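import Pool.Agent.H56.TC.Defs

/-!
Part SCL. Multihomogeneous polynomials: scaling, and the abstract specialisation lemma.
-/

set_option autoImplicit false

namespace Pool.Agent.H56.TC

open MvPolynomial

theorem MHom.mul {σ β : Type} {bl : σ → β} {d e : β →₀ ℕ} {P Q : MvPolynomial σ ℂ}
    (hP : MHom bl d P) (hQ : MHom bl e Q) : MHom bl (d + e) (P * Q) := by
  classical
  intro m hm
  obtain ⟨a, ha, b, hb, rfl⟩ := Finset.mem_add.1 (MvPolynomial.support_mul P Q hm)
  rw [Finsupp.mapDomain_add, hP a ha, hQ b hb]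

theorem MHom.add {σ β : Type} {bl : σ → β} {d : β →₀ ℕ} {P Q : MvPolynomial σ ℂ}
    (hP : MHom bl d P) (hQ : MHom bl d Q) : MHom bl d (P + Q) := by
  classical
  intro m hm
  rcases Finset.mem_union.1 (MvPolynomial.support_add hm) with h | h
  · exact hP m h
  · exact hQ m h

theorem MHom.X {σ β : Type} (bl : σ → β) (s : σ) :
    MHom bl (Finsupp.single (bl s) 1) (MvPolynomial.X s) := by
  intro m hm
  rw [MvPolynomial.support_X, Finset.mem_singleton] at hm
  rw [hm, Finsupp.mapDomain_single]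

theorem MHom.C {σ β : Type} (bl : σ → β) (c : ℂ) : MHom bl 0 (MvPolynomial.C c) := by
  classical
  intro m hm
  have h1 : m = 0 := by
    rw [MvPolynomial.mem_support_iff, MvPolynomial.coeff_C] at hm
    by_contra h
    exact hm (if_neg (fun h' => h h'.symm))
  rw [h1, Finsupp.mapDomain_zero]

theorem MHom.zero {σ β : Type} (bl : σ → β) (d : β →₀ ℕ) : MHom bl d 0 := by
  intro m hm
  simp at hm

theorem MHom.C_mul {σ β : Type} {bl : σ → β} {d : β →₀ ℕ} {P : MvPolynomial σ ℂ} (c : ℂ)
    (hP : MHom bl d P) : MHom bl d (MvPolynomial.C c * P) := by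
  have := (MHom.C bl c).mul hP
  rwa [zero_add] at this

theorem MHom.sub {σ β : Type} {bl : σ → β} {d : β →₀ ℕ} {P Q : MvPolynomial σ ℂ}
    (hP : MHom bl d P) (hQ : MHom bl d Q) : MHom bl d (P - Q) := by
  have e : P - Q = P + MvPolynomial.C (-1) * Q := by
    rw [map_neg, map_one]; ring
  rw [e]
  exact hP.add (hQ.C_mul (-1))

theorem MHom.pow {σ β : Type} {bl : σ → β} {d : β →₀ ℕ} {P : MvPolynomial σ ℂ}
    (hP : MHom bl d P) (n : ℕ) : MHom bl (n • d) (P ^ n) := by
  induction n with
  | zero =>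
    rw [zero_smul, pow_zero]
    have := MHom.C bl 1
    rwa [map_one] at this
  | succ n ih =>
    rw [pow_succ, succ_nsmul]
    exact ih.mul hP

theorem SCL_sum {σ β ι : Type} {bl : σ → β} {d : β →₀ ℕ} (s : Finset ι)
    (P : ι → MvPolynomial σ ℂ) (hP : ∀ i ∈ s, MHom bl d (P i)) : MHom bl d (∑ i ∈ s, P i) := by
  classical
  induction s using Finset.induction_on with
  | empty => rw [Finset.sum_empty]; exact MHom.zero bl d
  | insert a s ha ih =>
    rw [Finset.sum_insert ha]
    exact (hP a (Finset.mem_insert_self a s)).add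
      (ih (fun i hi => hP i (Finset.mem_insert_of_mem hi)))

/-- a multihomogeneous polynomial in the first group of variables -/
theorem MHom.rename_inl {σ τ β γ : Type} {bl : σ → β} {bl' : τ → γ} {d : β →₀ ℕ}
    {P : MvPolynomial σ ℂ} (hP : MHom bl d P) :
    MHom (Sum.map bl bl') (d.mapDomain Sum.inl) (MvPolynomial.rename Sum.inl P) := by
  classical
  intro m hm
  rw [MvPolynomial.support_rename_of_injective Sum.inl_injective, Finset.mem_image] at hm
  obtain ⟨a, ha, rfl⟩ := hm
  rw [← Finsupp.mapDomain_comp, ← hP a ha, ← Finsupp.mapDomain_comp]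
  rfl

theorem SCL_subst_monomial {σ τ β γ : Type} (bl : σ → β) (bl' : τ → γ) (t : τ → ℂ)
    (m : (σ ⊕ τ) →₀ ℕ) :
    MHom bl ((m.mapDomain (Sum.map bl bl')).comapDomain Sum.inl Sum.inl_injective.injOn)
      (aeval (Sum.elim (fun s => (MvPolynomial.X s : MvPolynomial σ ℂ))
        (fun s => MvPolynomial.C (t s))) (MvPolynomial.monomial m (1 : ℂ))) := by
  classical
  induction m using Finsupp.induction_linear with
  | zero =>
    have h1 : (Finsupp.mapDomain (Sum.map bl bl') (0 : (σ ⊕ τ) →₀ ℕ)).comapDomain Sum.inl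
        Sum.inl_injective.injOn = 0 := by
      ext b
      simp
    rw [h1, ← MvPolynomial.C_apply, map_one, map_one]
    have := MHom.C bl 1
    rwa [map_one] at this
  | add a b ha hb =>
    have h1 : (Finsupp.mapDomain (Sum.map bl bl') (a + b)).comapDomain Sum.inl
        Sum.inl_injective.injOn =
        (Finsupp.mapDomain (Sum.map bl bl') a).comapDomain Sum.inl Sum.inl_injective.injOn +
        (Finsupp.mapDomain (Sum.map bl bl') b).comapDomain Sum.inl Sum.inl_injective.injOn := by
      rw [Finsupp.mapDomain_add]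
      ext c
      simp
    have h2 : MvPolynomial.monomial (a + b) (1 : ℂ) =
        MvPolynomial.monomial a 1 * MvPolynomial.monomial b 1 := by
      rw [MvPolynomial.monomial_mul, mul_one]
    rw [h1, h2, map_mul]
    exact ha.mul hb
  | single i n =>
    have h2 : MvPolynomial.monomial (Finsupp.single i n) (1 : ℂ) = MvPolynomial.X i ^ n := by
      rw [MvPolynomial.X_pow_eq_monomial]
    rw [h2, map_pow, MvPolynomial.aeval_X, Finsupp.mapDomain_single]
    rcases i with s | s
    · have h1 : (Finsupp.single (Sum.map bl bl' (Sum.inl s)) n).comapDomain Sum.inl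
          Sum.inl_injective.injOn = n • Finsupp.single (bl s) 1 := by
        ext b
        rw [Finsupp.comapDomain_apply, Finsupp.smul_apply, Finsupp.single_apply,
          Finsupp.single_apply]
        by_cases h : bl s = b
        · simp [h]
        · simp [h]
      rw [h1]
      exact (MHom.X bl s).pow n
    · have h1 : (Finsupp.single (Sum.map bl bl' (Sum.inr s)) n).comapDomain Sum.inl
          Sum.inl_injective.injOn = n • (0 : β →₀ ℕ) := by
        ext b
        rw [Finsupp.comapDomain_apply, smul_zero, Finsupp.single_apply]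
        simp
      rw [h1]
      exact (MHom.C bl (t s)).pow n

/-- substituting constants for the second group of variables -/
theorem MHom.subst_inr {σ τ β γ : Type} {bl : σ → β} {bl' : τ → γ} {d : (β ⊕ γ) →₀ ℕ}
    {P : MvPolynomial (σ ⊕ τ) ℂ} (hP : MHom (Sum.map bl bl') d P) (t : τ → ℂ) :
    MHom bl (d.comapDomain Sum.inl Sum.inl_injective.injOn)
      (aeval (Sum.elim (fun s => (MvPolynomial.X s : MvPolynomial σ ℂ))
        (fun s => MvPolynomial.C (t s))) P) := by
  classical
  have h1 : P = ∑ m ∈ P.support, MvPolynomial.C (P.coeff m) * MvPolynomial.monomial m 1 := by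
    conv_lhs => rw [MvPolynomial.as_sum P]
    refine Finset.sum_congr rfl fun m _ => ?_
    rw [MvPolynomial.C_mul_monomial, mul_one]
  conv_rhs => rw [h1]
  rw [map_sum]
  refine SCL_sum _ _ fun m hm => ?_
  rw [map_mul, MvPolynomial.aeval_C]
  have h2 := (SCL_subst_monomial bl bl' t m).C_mul (P.coeff m)
  have h3 := hP m hm
  rw [h3] at h2
  exact h2

theorem aeval_scale {σ β R : Type} [CommRing R] [Algebra ℂ R] {bl : σ → β} {d : β →₀ ℕ}
    {P : MvPolynomial σ ℂ} (hP : MHom bl d P) (c : β → R) (x : σ → R) :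
    aeval (fun s => c (bl s) * x s) P = (d.prod fun b n => c b ^ n) * aeval x P := by
  classical
  rw [MvPolynomial.aeval_def, MvPolynomial.aeval_def, MvPolynomial.eval₂_eq,
    MvPolynomial.eval₂_eq, Finset.mul_sum]
  refine Finset.sum_congr rfl fun m hm => ?_
  have h1 : ∏ i ∈ m.support, (c (bl i) * x i) ^ m i =
      (d.prod fun b n => c b ^ n) * ∏ i ∈ m.support, x i ^ m i := by
    simp_rw [mul_pow]
    rw [Finset.prod_mul_distrib, ← hP m hm,
      Finsupp.prod_mapDomain_index (fun b => pow_zero _) (fun b n n' => pow_add _ _ _)]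
    rfl
  rw [h1]
  ring

theorem SCL_aeval_hom {σ A R : Type} [CommRing A] [Algebra ℂ A] [CommRing R] [Algebra ℂ R]
    (φ : A →ₐ[ℂ] R) (y : σ → A) (P : MvPolynomial σ ℂ) :
    aeval (fun s => φ (y s)) P = φ (aeval y P) :=
  (MvPolynomial.comp_aeval_apply (f := y) φ P).symm

theorem spec_of_scale {σ β B M R' R : Type} [CommRing B] [Algebra ℂ B] [CommRing M] [Algebra ℂ M]
    [CommRing R'] [Algebra ℂ R'] [CommRing R] [Algebra ℂ R] {bl : σ → β} (φ : B →ₐ[ℂ] M)
    (j : R' →ₐ[ℂ] M) (hj : Function.Injective j) (ψ : R' →ₐ[ℂ] R) (y : σ → B) (x' : σ → R')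
    (c : β → M) (hx : ∀ s, j (x' s) = c (bl s) * φ (y s)) {d : β →₀ ℕ} {P : MvPolynomial σ ℂ}
    (hP : MHom bl d P) (h0 : aeval y P = 0) : aeval (fun s => ψ (x' s)) P = 0 := by
  have h1 : aeval x' P = 0 := by
    apply hj
    rw [map_zero, ← SCL_aeval_hom]
    have e : (fun s => j (x' s)) = fun s => c (bl s) * φ (y s) := funext hx
    rw [e, aeval_scale hP c (fun s => φ (y s)), SCL_aeval_hom φ y P, h0, map_zero, mul_zero]
  rw [SCL_aeval_hom ψ x' P, h1, map_zero]

theorem SCL_xc_map {R R' : Type} [CommRing R] [CommRing R'] [Algebra ℂ R] [Algebra ℂ R']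
    (g : R →ₐ[ℂ] R') (a b : R) (ρ h w : Fin 3 → R) (k : Fin 3) (e : Fin 4) :
    g (xc a b ρ h w k e) =
      xc (g a) (g b) (fun k => g (ρ k)) (fun k => g (h k)) (fun k => g (w k)) k e := by
  fin_cases e <;> simp [xc]

theorem SCL_pt_map {R R' : Type} [CommRing R] [CommRing R'] [Algebra ℂ R] [Algebra ℂ R']
    (g : R →ₐ[ℂ] R') (a b : R) (ρ h w : Fin 3 → R) (s : Sg) :
    g (pt a b ρ h w s) =
      pt (g a) (g b) (fun k => g (ρ k)) (fun k => g (h k)) (fun k => g (w k)) s := by
  rcases s with ⟨k, e⟩ | ⟨k, e, e'⟩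
  · exact SCL_xc_map g a b ρ h w k e
  · simp only [pt, map_mul, SCL_xc_map]

/-- scaling of the Cox coordinates -/
theorem SCL_xc_scale {R : Type} [CommRing R] (a b : R) (ρ h w : Fin 3 → R) (a' b' : R)
    (ρ' h' w' : Fin 3 → R) (c : Fin 3 → R) (ha : ∀ k, a' * ρ' k = c k * (a * ρ k))
    (hb : ∀ k, b' * ρ' k = c k * (b * ρ k)) (hh : ∀ k, h' k = c k * h k)
    (hw : ∀ k, w' k = c k * w k) (k : Fin 3) (e : Fin 4) :
    xc a' b' ρ' h' w' k e = c k * xc a b ρ h w k e := by
  fin_cases e
  · exact ha k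
  · exact hb k
  · exact hh k
  · exact hw k

theorem SCL_aeval_fr {σ B : Type} [CommRing B] [IsDomain B] [Algebra ℂ B] (y : σ → B)
    (P : MvPolynomial σ ℂ) :
    aeval (fr y) P = algebraMap B (FractionRing B) (aeval y P) :=
  SCL_aeval_hom (IsScalarTower.toAlgHom ℂ B (FractionRing B)) y P

theorem SCL_aeval_fr_eq_zero {σ B : Type} [CommRing B] [IsDomain B] [Algebra ℂ B] (y : σ → B)
    (P : MvPolynomial σ ℂ) : aeval (fr y) P = 0 ↔ aeval y P = 0 := by
  rw [SCL_aeval_fr, map_eq_zero_iff _ (IsFractionRing.injective B (FractionRing B))]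

end Pool.Agent.H56.TC
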