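import Pool.Agent.H56.TC.Defs
import Pool.Agent.H56.TC.SCL

/-!
Part HOM. If in every block some coordinate of `y` is a nonzero constant and the coordinates
generate `B`, then `FractionRing B` is the function field.
-/

set_option autoImplicit false

namespace Pool.Agent.H56.TC

open MvPolynomial

theorem HOM_one {σ β : Type} {bl : σ → β} {B : Type} [CommRing B] [Algebra ℂ B] (y : σ → B)
    (hc : ∀ b, ∃ s, bl s = b ∧ ∃ τ : ℂ, τ ≠ 0 ∧ y s = algebraMap ℂ B τ) (d : β →₀ ℕ) :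
    ∃ P : MvPolynomial σ ℂ, MHom bl d P ∧ aeval y P = 1 := by
  classical
  induction d using Finsupp.induction_linear with
  | zero =>
    refine ⟨MvPolynomial.C 1, MHom.C bl 1, ?_⟩
    simp
  | add d e hd he =>
    obtain ⟨P, h1, h2⟩ := hd
    obtain ⟨Q, h3, h4⟩ := he
    exact ⟨P * Q, h1.mul h3, by rw [map_mul, h2, h4, one_mul]⟩
  | single b n =>
    obtain ⟨s, rfl, τ, hτ, hs⟩ := hc b
    refine ⟨(MvPolynomial.C τ⁻¹ * MvPolynomial.X s) ^ n, ?_, ?_⟩
    · have h1 := ((MHom.X bl s).C_mul τ⁻¹).pow n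
      have h2 : n • Finsupp.single (bl s) 1 = Finsupp.single (bl s) n := by
        rw [Finsupp.smul_single, smul_eq_mul, mul_one]
      rwa [h2] at h1
    · rw [map_pow, map_mul, aeval_C, aeval_X, hs, ← map_mul, inv_mul_cancel₀ hτ, map_one, one_pow]

theorem HOM_homog {σ β : Type} {bl : σ → β} {B : Type} [CommRing B] [Algebra ℂ B] (y : σ → B)
    (hc : ∀ b, ∃ s, bl s = b ∧ ∃ τ : ℂ, τ ≠ 0 ∧ y s = algebraMap ℂ B τ)
    (p : MvPolynomial σ ℂ) :
    ∃ D : β →₀ ℕ, ∀ d, D ≤ d → ∃ P : MvPolynomial σ ℂ, MHom bl d P ∧ aeval y P = aeval y p := by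
  classical
  induction p using MvPolynomial.induction_on with
  | C a =>
    refine ⟨0, fun d _ => ?_⟩
    obtain ⟨P, h1, h2⟩ := HOM_one y hc d
    exact ⟨MvPolynomial.C a * P, h1.C_mul a, by rw [map_mul, h2, mul_one]⟩
  | add p q hp hq =>
    obtain ⟨D, hD⟩ := hp
    obtain ⟨E, hE⟩ := hq
    refine ⟨D + E, fun d hd => ?_⟩
    obtain ⟨P, h1, h2⟩ := hD d (le_trans (le_add_of_nonneg_right zero_le) hd)
    obtain ⟨Q, h3, h4⟩ := hE d (le_trans (le_add_of_nonneg_left zero_le) hd)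
    exact ⟨P + Q, h1.add h3, by rw [map_add, map_add, h2, h4]⟩
  | mul_X p n hp =>
    obtain ⟨D, hD⟩ := hp
    refine ⟨D + Finsupp.single (bl n) 1, fun d hd => ?_⟩
    have h0 : Finsupp.single (bl n) 1 ≤ d := le_trans (le_add_of_nonneg_left zero_le) hd
    obtain ⟨P, h1, h2⟩ := hD (d - Finsupp.single (bl n) 1) (le_tsub_of_add_le_right hd)
    refine ⟨P * MvPolynomial.X n, ?_, by rw [map_mul, map_mul, h2]⟩
    have h3 := h1.mul (MHom.X bl n)
    rwa [tsub_add_cancel_of_le h0] at h3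

theorem isFF_of_const {σ β : Type} [Finite σ] [Finite β] {bl : σ → β} {B : Type} [CommRing B]
    [IsDomain B] [Algebra ℂ B] (y : σ → B) (hgen : Algebra.adjoin ℂ (Set.range y) = ⊤)
    (hc : ∀ b, ∃ s, bl s = b ∧ ∃ τ : ℂ, τ ≠ 0 ∧ y s = algebraMap ℂ B τ) :
    IsFF bl (fr y) := by
  have hinj := IsFractionRing.injective B (FractionRing B)
  refine ⟨fun b => ?_, fun f => ?_⟩
  · obtain ⟨s, hs, τ, hτ, hy⟩ := hc b
    refine ⟨s, hs, ?_⟩
    show algebraMap B (FractionRing B) (y s) ≠ 0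
    rw [Ne, map_eq_zero_iff _ hinj, hy, map_eq_zero_iff _ (FaithfulSMul.algebraMap_injective ℂ B)]
    exact hτ
  · have hsurj : ∀ b : B, ∃ p : MvPolynomial σ ℂ, aeval y p = b := by
      intro b
      have h1 : b ∈ Algebra.adjoin ℂ (Set.range y) := by rw [hgen]; trivial
      rw [Algebra.adjoin_range_eq_range_aeval] at h1
      exact h1
    obtain ⟨a, b, hb, hf⟩ := IsFractionRing.div_surjective (A := B) f
    obtain ⟨p, hp⟩ := hsurj a
    obtain ⟨q, hq⟩ := hsurj b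
    obtain ⟨D, hD⟩ := HOM_homog y hc p
    obtain ⟨E, hE⟩ := HOM_homog y hc q
    obtain ⟨P, h1, h2⟩ := hD (D + E) (le_add_of_nonneg_right zero_le)
    obtain ⟨Q, h3, h4⟩ := hE (D + E) (le_add_of_nonneg_left zero_le)
    have hb0 : algebraMap B (FractionRing B) b ≠ 0 := by
      rw [Ne, map_eq_zero_iff _ hinj]; exact nonZeroDivisors.ne_zero hb
    refine ⟨D + E, P, Q, h1, h3, ?_, ?_⟩
    · rw [SCL_aeval_fr, h4, hq]
      exact hb0
    · rw [SCL_aeval_fr, SCL_aeval_fr, h4, hq, h2, hp, ← hf]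
      field_simp

end Pool.Agent.H56.TC
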