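import Pool.Agent.H56.TC.Defs
import Pool.Agent.H56.TC.HOM

/-!
Part FFS. Instances of `isFF_of_const`. Generation: the subalgebra generated by the coordinates
contains `i X`, `h k`, `w k` (for `yM`: `h k`, `w k`; for `eE`: `h k`, `w k`), so it is `⊤` by `IsTower.gen`. Constant
coordinates: `1` in block `some k` of `yB` (index 1), `1 = ρ·1·1` in the block `none` (indices `1, 1`); for `yM` use
index `0` or `1` according to `t 0 ≠ 0` or `t 1 ≠ 0`.
-/

set_option autoImplicit false

namespace Pool.Agent.H56.TC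

open MvPolynomial

theorem FFS_gen {B : Type} [CommRing B] [Algebra ℂ B]
    {i : Polynomial ℂ →ₐ[ℂ] B} {h w : Fin 3 → B} (hT : IsTower i zX h w) (S : Subalgebra ℂ B)
    (hX : i Polynomial.X ∈ S) (hh : ∀ k, h k ∈ S) (hw : ∀ k, w k ∈ S) : S = ⊤ := by
  refine hT.gen S (fun a => ?_) hh hw
  induction a using Polynomial.induction_on' with
  | add p q hp hq => rw [map_add]; exact S.add_mem hp hq
  | monomial n c =>
    rw [← Polynomial.C_mul_X_pow_eq_monomial, map_mul, map_pow]
    refine S.mul_mem ?_ (S.pow_mem hX n)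
    have : i (Polynomial.C c) = algebraMap ℂ B c := i.commutes c
    rw [this]
    exact S.algebraMap_mem c

theorem FFS_const {B : Type} [CommRing B] [Algebra ℂ B] (a b : ℂ) (h w : Fin 3 → B)
    (e : Fin 4) (he : (e = 0 ∧ a ≠ 0) ∨ (e = 1 ∧ b ≠ 0)) (bb : Option (Fin 3)) :
    ∃ s, bX s = bb ∧ ∃ τ : ℂ, τ ≠ 0 ∧
      pt (algebraMap ℂ B a) (algebraMap ℂ B b) (fun _ => 1) h w s = algebraMap ℂ B τ := by
  obtain ⟨τ, hτ, hx⟩ : ∃ τ : ℂ, τ ≠ 0 ∧ ∀ k, xc (algebraMap ℂ B a) (algebraMap ℂ B b)
      (fun _ => 1) h w k e = algebraMap ℂ B τ := by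
    rcases he with ⟨rfl, ha⟩ | ⟨rfl, hb⟩
    · exact ⟨a, ha, fun k => by simp [xc]⟩
    · exact ⟨b, hb, fun k => by simp [xc]⟩
  rcases bb with _ | k
  · refine ⟨Sum.inr (0, e, e), rfl, τ * τ, mul_ne_zero hτ hτ, ?_⟩
    show 1 * xc (algebraMap ℂ B a) (algebraMap ℂ B b) (fun _ => 1) h w (0 + 1) e *
      xc (algebraMap ℂ B a) (algebraMap ℂ B b) (fun _ => 1) h w (0 + 2) e = _
    rw [hx, hx, one_mul, map_mul]
  · exact ⟨Sum.inl (k, e), rfl, τ, hτ, hx k⟩

theorem FFS_hmem {R : Type} [CommRing R] (a b : R) (ρ h w : Fin 3 → R) (k : Fin 3) :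
    pt a b ρ h w (Sum.inl (k, 2)) = h k := rfl

theorem FFS_wmem {R : Type} [CommRing R] (a b : R) (ρ h w : Fin 3 → R) (k : Fin 3) :
    pt a b ρ h w (Sum.inl (k, 3)) = w k := rfl

theorem isFF_yB {B : Type} [CommRing B] [IsDomain B] [Algebra ℂ B]
    {i : Polynomial ℂ →ₐ[ℂ] B} {h w : Fin 3 → B} (hT : IsTower i zX h w) :
    IsFF bX (fr (yB i h w)) := by
  refine isFF_of_const _ ?_ ?_
  · refine FFS_gen hT _ ?_ ?_ ?_
    · refine Algebra.subset_adjoin ⟨Sum.inl (0, 0), ?_⟩
      show i Polynomial.X * 1 = _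
      rw [mul_one]
    · exact fun k => Algebra.subset_adjoin ⟨Sum.inl (k, 2), rfl⟩
    · exact fun k => Algebra.subset_adjoin ⟨Sum.inl (k, 3), rfl⟩
  · intro b
    rcases b with _ | k
    · refine ⟨Sum.inr (0, 1, 1), rfl, 1, one_ne_zero, ?_⟩
      show (1 : B) * (1 * 1) * (1 * 1) = _
      rw [map_one]
      ring
    · refine ⟨Sum.inl (k, 1), rfl, 1, one_ne_zero, ?_⟩
      show (1 : B) * 1 = _
      rw [map_one, mul_one]

theorem isFF_yC {B : Type} [CommRing B] [IsDomain B] [Algebra ℂ B]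
    {i : Polynomial ℂ →ₐ[ℂ] B} {h w : Fin 3 → B} (hT : IsTower i zX h w) :
    IsFF (Sum.map bX bT) (fr (yC i h w)) := by
  refine isFF_of_const _ ?_ ?_
  · refine FFS_gen hT _ ?_ ?_ ?_
    · exact Algebra.subset_adjoin ⟨Sum.inr 0, rfl⟩
    · exact fun k => Algebra.subset_adjoin ⟨Sum.inl (Sum.inl (k, 2)), rfl⟩
    · exact fun k => Algebra.subset_adjoin ⟨Sum.inl (Sum.inl (k, 3)), rfl⟩
  · intro b
    rcases b with (_ | k) | u
    · refine ⟨Sum.inl (Sum.inr (0, 1, 1)), rfl, 1, one_ne_zero, ?_⟩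
      show (1 : B) * (1 * 1) * (1 * 1) = _
      rw [map_one]
      ring
    · refine ⟨Sum.inl (Sum.inl (k, 1)), rfl, 1, one_ne_zero, ?_⟩
      show (1 : B) * 1 = _
      rw [map_one, mul_one]
    · refine ⟨Sum.inr 1, rfl, 1, one_ne_zero, ?_⟩
      rw [map_one]
      rfl

theorem isFF_yM {t : Fin 2 → ℂ} (ht : t ≠ 0) {z : Fin 3 → ℂ ⊕ ℂ}
    {B : Type} [CommRing B] [IsDomain B] [Algebra ℂ B] {i : ℂ →ₐ[ℂ] B} {h w : Fin 3 → B}
    (hT : IsTower i z h w) : IsFF bX (fr (yM t h w)) := by
  refine isFF_of_const _ ?_ ?_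
  · refine hT.gen _ ?_ ?_ ?_
    · intro a
      have : i a = algebraMap ℂ B a := i.commutes a
      rw [this]
      exact Subalgebra.algebraMap_mem _ a
    · exact fun k => Algebra.subset_adjoin ⟨Sum.inl (k, 2), rfl⟩
    · exact fun k => Algebra.subset_adjoin ⟨Sum.inl (k, 3), rfl⟩
  · intro b
    by_cases h0 : t 0 = 0
    · have h1 : t 1 ≠ 0 := by
        intro h1
        apply ht
        funext j
        fin_cases j
        · exact h0
        · exact h1
      exact FFS_const (t 0) (t 1) h w 1 (Or.inr ⟨rfl, h1⟩) b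
    · exact FFS_const (t 0) (t 1) h w 0 (Or.inl ⟨rfl, h0⟩) b

/-- `P¹` is a variety of dimension one -/
theorem isVariety_T : IsVariety bT 1 {t : Fin 2 → ℂ | t ≠ 0} := by
  refine ⟨FractionRing (Polynomial ℂ), inferInstance, inferInstance,
    fr (![Polynomial.X, 1] : Fin 2 → Polynomial ℂ), ?_, ?_, ?_⟩
  · refine isFF_of_const _ ?_ ?_
    · rw [eq_top_iff]
      intro a _
      induction a using Polynomial.induction_on' with
      | add p q hp hq => exact Subalgebra.add_mem _ (hp trivial) (hq trivial)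
      | monomial n c =>
        rw [← Polynomial.C_mul_X_pow_eq_monomial]
        refine Subalgebra.mul_mem _ (Subalgebra.algebraMap_mem _ c) (Subalgebra.pow_mem _ ?_ n)
        exact Algebra.subset_adjoin ⟨0, rfl⟩
    · intro b
      refine ⟨1, rfl, 1, one_ne_zero, ?_⟩
      rw [map_one]
      rfl
  · have h1 := trdeg_add_eq ℂ (Polynomial ℂ) (A := FractionRing (Polynomial ℂ))
    rw [Polynomial.trdeg_of_isDomain] at h1
    have h2 : Algebra.trdeg (Polynomial ℂ) (FractionRing (Polynomial ℂ)) = 0 := by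
      have : Algebra.IsAlgebraic (Polynomial ℂ) (FractionRing (Polynomial ℂ)) :=
        IsLocalization.isAlgebraic _ (nonZeroDivisors (Polynomial ℂ))
      exact trdeg_eq_zero
    rw [h2, add_zero] at h1
    rw [← h1]
    norm_num
  · apply Set.Subset.antisymm
    · intro t ht
      have ht' : t ≠ 0 := ht
      refine ⟨fun b => ?_, ?_⟩
      · by_contra hc
        push Not at hc
        apply ht'
        funext j
        exact hc j rfl
      · intro d P hP h0
        have hB : aeval (![Polynomial.X, 1] : Fin 2 → Polynomial ℂ) P = 0 := by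
          have h1 := SCL_aeval_hom (Algebra.algHom ℂ (Polynomial ℂ) (FractionRing (Polynomial ℂ)))
            (![Polynomial.X, 1] : Fin 2 → Polynomial ℂ) P
          have h2 : (fun s => (Algebra.algHom ℂ (Polynomial ℂ) (FractionRing (Polynomial ℂ)))
              ((![Polynomial.X, 1] : Fin 2 → Polynomial ℂ) s)) =
              fr (![Polynomial.X, 1] : Fin 2 → Polynomial ℂ) := rfl
          rw [h2, h0] at h1
          have h3 : (algebraMap (Polynomial ℂ) (FractionRing (Polynomial ℂ)))
              (aeval (![Polynomial.X, 1] : Fin 2 → Polynomial ℂ) P) = 0 := h1.symm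
          rwa [map_eq_zero_iff _ (IsFractionRing.injective (Polynomial ℂ) _)] at h3
        have hX1 : algebraMap (MvPolynomial (Fin 2) ℂ) (FractionRing (MvPolynomial (Fin 2) ℂ))
            (X 1) ≠ 0 := by
          rw [Ne, map_eq_zero_iff _ (IsFractionRing.injective (MvPolynomial (Fin 2) ℂ) _)]
          exact X_ne_zero 1
        have h4 := spec_of_scale (bl := bT) (Polynomial.aeval
          (algebraMap (MvPolynomial (Fin 2) ℂ) (FractionRing (MvPolynomial (Fin 2) ℂ)) (X 0) /
            algebraMap (MvPolynomial (Fin 2) ℂ) (FractionRing (MvPolynomial (Fin 2) ℂ)) (X 1)))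
          (Algebra.algHom ℂ (MvPolynomial (Fin 2) ℂ) (FractionRing (MvPolynomial (Fin 2) ℂ)))
          (IsFractionRing.injective (MvPolynomial (Fin 2) ℂ) _)
          (aeval t : MvPolynomial (Fin 2) ℂ →ₐ[ℂ] ℂ)
          (![Polynomial.X, 1] : Fin 2 → Polynomial ℂ) (fun s => X s)
          (fun _ => algebraMap (MvPolynomial (Fin 2) ℂ) (FractionRing (MvPolynomial (Fin 2) ℂ))
            (X 1)) (by
            intro s
            fin_cases s
            · show algebraMap (MvPolynomial (Fin 2) ℂ) (FractionRing (MvPolynomial (Fin 2) ℂ))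
                (X 0) = algebraMap (MvPolynomial (Fin 2) ℂ)
                  (FractionRing (MvPolynomial (Fin 2) ℂ)) (X 1) * Polynomial.aeval _ Polynomial.X
              rw [Polynomial.aeval_X]
              field_simp
            · show algebraMap (MvPolynomial (Fin 2) ℂ) (FractionRing (MvPolynomial (Fin 2) ℂ))
                (X 1) = algebraMap (MvPolynomial (Fin 2) ℂ)
                  (FractionRing (MvPolynomial (Fin 2) ℂ)) (X 1) *
                    Polynomial.aeval _ (1 : Polynomial ℂ)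
              rw [map_one, mul_one]) hP hB
        simpa using h4
    · intro t ht h0
      obtain ⟨s, _, hs⟩ := ht.1 ()
      apply hs
      have h0' : t = 0 := h0
      rw [h0']
      rfl

end Pool.Agent.H56.TC
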