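import Pool.Agent.H56.TC.Defs

/-!
Part TW1. One cubic step of the tower.
-/

set_option autoImplicit false

namespace Pool.Agent.H56.TC

open MvPolynomial

theorem TW1_not_cube {F : Type} [Field F] [CharZero F] (b : F) (hb : b ≠ 0) (r : Polynomial F) :
    r ^ 3 ≠ Polynomial.X ^ 3 + Polynomial.C b := by
  intro hr
  have h1 : r ^ 2 * Polynomial.derivative r = Polynomial.X ^ 2 := by
    have := congrArg Polynomial.derivative hr
    simp only [Polynomial.derivative_pow, Polynomial.derivative_add, Polynomial.derivative_X,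
      Polynomial.derivative_C] at this
    have h3 : (Polynomial.C (3 : F)) ≠ 0 := by
      rw [Ne, Polynomial.C_eq_zero]; norm_num
    apply mul_left_cancel₀ h3
    push_cast at this
    simp only [mul_one, add_zero] at this
    rw [← mul_assoc, ← this]
  have h2 : r ^ 2 ∣ Polynomial.X ^ 2 := ⟨_, h1.symm⟩
  have h3 : r ^ 2 ∣ Polynomial.X ^ 3 + Polynomial.C b := ⟨r, by rw [← hr]; ring⟩
  have h4 : r ^ 2 ∣ Polynomial.C b := by
    have := dvd_sub h3 (Dvd.dvd.mul_left h2 Polynomial.X)
    have e : Polynomial.X ^ 3 + Polynomial.C b - Polynomial.X * Polynomial.X ^ 2 = Polynomial.C b := by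
      ring
    rwa [e] at this
  have h5 : IsUnit (r ^ 2) := isUnit_of_dvd_unit h4 (Polynomial.isUnit_C.2 (isUnit_iff_ne_zero.2 hb))
  have h6 : IsUnit r := (isUnit_pow_iff (by norm_num)).1 h5
  have h7 : r.natDegree = 0 := Polynomial.natDegree_eq_zero_of_isUnit h6
  have h8 : (r ^ 3).natDegree = 3 := by
    rw [hr, Polynomial.natDegree_X_pow_add_C]
  rw [Polynomial.natDegree_pow, h7] at h8
  omega

theorem TW1_prime (A : Type) [CommRing A] [IsDomain A] [Algebra ℂ A] (b : A) (hb : b ≠ 0) :
    Prime (Polynomial.X ^ 3 - Polynomial.C (Polynomial.X ^ 3 + Polynomial.C b) :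
      Polynomial (Polynomial A)) := by
  set q : Polynomial (Polynomial A) :=
    Polynomial.X ^ 3 - Polynomial.C (Polynomial.X ^ 3 + Polynomial.C b) with hq
  have hmon : q.Monic := Polynomial.monic_X_pow_sub_C _ (by norm_num)
  have : CharZero A := charZero_of_injective_algebraMap (FaithfulSMul.algebraMap_injective ℂ A)
  have : CharZero (FractionRing A) :=
    charZero_of_injective_algebraMap (FaithfulSMul.algebraMap_injective A (FractionRing A))
  let φ : Polynomial A →+* FractionRing (Polynomial (FractionRing A)) :=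
    (algebraMap (Polynomial (FractionRing A)) (FractionRing (Polynomial (FractionRing A)))).comp
      (Polynomial.mapRingHom (algebraMap A (FractionRing A)))
  have hφ : Function.Injective φ := by
    refine (IsFractionRing.injective (Polynomial (FractionRing A))
      (FractionRing (Polynomial (FractionRing A)))).comp ?_
    exact Polynomial.map_injective _ (IsFractionRing.injective A (FractionRing A))
  have hirr : Irreducible (q.map φ) := by
    have e : q.map φ = Polynomial.X ^ 3 - Polynomial.C (φ (Polynomial.X ^ 3 + Polynomial.C b)) := by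
      rw [hq, Polynomial.map_sub, Polynomial.map_pow, Polynomial.map_X, Polynomial.map_C]
    rw [e]
    apply X_pow_sub_C_irreducible_of_prime Nat.prime_three
    intro s hs
    have hint : IsIntegral (Polynomial (FractionRing A)) s := by
      refine IsIntegral.of_pow (n := 3) (by norm_num) ?_
      rw [hs]
      exact isIntegral_algebraMap
    obtain ⟨r, hr⟩ := IsIntegrallyClosed.isIntegral_iff.1 hint
    refine TW1_not_cube (algebraMap A (FractionRing A) b) ?_ r ?_
    · rw [Ne, map_eq_zero_iff _ (IsFractionRing.injective A (FractionRing A))]; exact hb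
    · apply IsFractionRing.injective (Polynomial (FractionRing A))
        (FractionRing (Polynomial (FractionRing A)))
      rw [map_pow, hr, hs]
      simp [φ]
  have hpr : Prime (q.map φ) := hirr.prime
  refine ⟨hmon.ne_zero, ?_, ?_⟩
  · intro hu
    exact hpr.not_isUnit (hu.map (Polynomial.mapRingHom φ))
  · intro f g hfg
    have : q.map φ ∣ f.map φ * g.map φ := by
      rw [← Polynomial.map_mul]; exact Polynomial.map_dvd φ hfg
    rcases hpr.dvd_or_dvd this with h | h
    · left; exact (Polynomial.map_dvd_map φ hφ hmon).1 h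
    · right; exact (Polynomial.map_dvd_map φ hφ hmon).1 h

theorem step_cubic (A : Type) [CommRing A] [IsDomain A] [Algebra ℂ A] (b : A) (hb : b ≠ 0) :
    ∃ (B : Type) (_ : CommRing B) (_ : IsDomain B) (_ : Algebra ℂ B) (i : A →ₐ[ℂ] B) (h w : B),
      Function.Injective i ∧ w ^ 3 = h ^ 3 + i b ∧
      (∀ S : Subalgebra ℂ B, (∀ a, i a ∈ S) → h ∈ S → w ∈ S → S = ⊤) ∧
      ∀ (R : Type) [CommRing R] [Algebra ℂ R] (f : A →ₐ[ℂ] R) (h' w' : R),
        w' ^ 3 = h' ^ 3 + f b →
        ∃ g : B →ₐ[ℂ] R, (∀ a, g (i a) = f a) ∧ g h = h' ∧ g w = w' := by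
  set q : Polynomial (Polynomial A) :=
    Polynomial.X ^ 3 - Polynomial.C (Polynomial.X ^ 3 + Polynomial.C b) with hq
  have hpr : Prime q := TW1_prime A b hb
  have hmon : q.Monic := Polynomial.monic_X_pow_sub_C _ (by norm_num)
  have hdom : IsDomain (AdjoinRoot q) := AdjoinRoot.isDomain_of_prime hpr
  let i : A →ₐ[ℂ] AdjoinRoot q :=
    { (AdjoinRoot.of q).comp Polynomial.C with
      commutes' := by
        intro c
        show AdjoinRoot.of q (Polynomial.C (algebraMap ℂ A c)) = algebraMap ℂ (AdjoinRoot q) c
        rfl }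
  have hi : ∀ a, i a = AdjoinRoot.of q (Polynomial.C a) := fun a => rfl
  refine ⟨AdjoinRoot q, inferInstance, hdom, inferInstance, i, AdjoinRoot.of q Polynomial.X,
    AdjoinRoot.root q, ?_, ?_, ?_, ?_⟩
  · intro a a' haa
    rw [hi, hi] at haa
    have hinj : Function.Injective (AdjoinRoot.of q) := by
      apply AdjoinRoot.of.injective_of_degree_ne_zero
      rw [hq, Polynomial.degree_X_pow_sub_C (by norm_num)]
      norm_num
    exact Polynomial.C_injective (hinj haa)
  · have := AdjoinRoot.eval₂_root q
    rw [hq] at this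
    rw [Polynomial.eval₂_sub, Polynomial.eval₂_pow, Polynomial.eval₂_X,
      Polynomial.eval₂_C, ← hq] at this
    rw [map_add, map_pow] at this
    rw [hi]
    exact sub_eq_zero.1 this
  · intro S hS1 hS2 hS3
    rw [eq_top_iff]
    intro x _
    obtain ⟨p, rfl⟩ := AdjoinRoot.mk_surjective (g := q) x
    have hA : ∀ p : Polynomial A, AdjoinRoot.of q p ∈ S := by
      intro p
      induction p using Polynomial.induction_on' with
      | add p p' hp hp' => rw [map_add]; exact S.add_mem hp hp'
      | monomial n a =>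
        rw [← Polynomial.C_mul_X_pow_eq_monomial, map_mul, map_pow]
        exact S.mul_mem (hS1 a) (S.pow_mem hS2 n)
    clear * - hA hS3
    induction p using Polynomial.induction_on' with
    | add p p' hp hp' => rw [map_add]; exact S.add_mem hp hp'
    | monomial n a =>
      rw [← Polynomial.C_mul_X_pow_eq_monomial, map_mul, map_pow, AdjoinRoot.mk_C,
        AdjoinRoot.mk_X]
      exact S.mul_mem (hA a) (S.pow_mem hS3 n)
  · intro R _ _ f h' w' hr
    let g0 : Polynomial A →+* R := Polynomial.eval₂RingHom (f : A →+* R) h'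
    let g : AdjoinRoot q →+* R := AdjoinRoot.lift g0 w' (by
      rw [hq]
      simp only [Polynomial.eval₂_sub, Polynomial.eval₂_pow, Polynomial.eval₂_X,
        Polynomial.eval₂_C]
      rw [hr]
      simp [g0])
    have hg1 : ∀ p, g (AdjoinRoot.of q p) = g0 p := fun p => AdjoinRoot.lift_of _
    have hg2 : g (AdjoinRoot.root q) = w' := AdjoinRoot.lift_root _
    refine ⟨{ g with
      commutes' := ?_ }, ?_, ?_, ?_⟩
    · intro c
      show g (algebraMap ℂ (AdjoinRoot q) c) = algebraMap ℂ R c
      have e : algebraMap ℂ (AdjoinRoot q) c = AdjoinRoot.of q (Polynomial.C (algebraMap ℂ A c)) :=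
        rfl
      rw [e, hg1]
      simp [g0]
    · intro a
      show g (i a) = f a
      rw [hi, hg1]
      simp [g0]
    · show g (AdjoinRoot.of q Polynomial.X) = h'
      rw [hg1]
      simp [g0]
    · exact hg2

end Pool.Agent.H56.TC
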