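import Pool.Agent.H56.TC.Defs
import Pool.Agent.H56.TC.TW1

/-!
Part TW3. The tower with three steps.
-/

set_option autoImplicit false

namespace Pool.Agent.H56.TC

open MvPolynomial

theorem TW3_step (A : Type) [CommRing A] [IsDomain A] [Algebra ℂ A] (z : A ⊕ A)
    (hz : ∀ b, z = Sum.inl b → b ≠ 0) :
    ∃ (B : Type) (_ : CommRing B) (_ : IsDomain B) (_ : Algebra ℂ B) (i : A →ₐ[ℂ] B) (h w : B),
      Function.Injective i ∧ Rel i z h w ∧
      (∀ S : Subalgebra ℂ B, (∀ a, i a ∈ S) → h ∈ S → w ∈ S → S = ⊤) ∧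
      ∀ (R : Type) [CommRing R] [Algebra ℂ R] (f : A →ₐ[ℂ] R) (h' w' : R),
        Rel f z h' w' →
        ∃ g : B →ₐ[ℂ] R, (∀ a, g (i a) = f a) ∧ g h = h' ∧ g w = w' := by
  rcases z with b | c
  · obtain ⟨B, _, _, _, i, h, w, h1, h2, h3, h4⟩ := step_cubic A b (hz b rfl)
    refine ⟨B, inferInstance, inferInstance, inferInstance, i, h, w, h1, ⟨?_, ?_⟩, h3, ?_⟩
    · intro b' hb'
      rw [← Sum.inl.inj hb']
      exact h2
    · intro c hc
      exact absurd hc (by simp)
    · intro R _ _ f h' w' hr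
      exact h4 R f h' w' (hr.1 b rfl)
  · refine ⟨Polynomial A, inferInstance, inferInstance, inferInstance, Polynomial.CAlgHom,
      Polynomial.X, Polynomial.C c * Polynomial.X, ?_, ⟨?_, ?_⟩, ?_, ?_⟩
    · exact Polynomial.C_injective
    · intro b hb
      exact absurd hb (by simp)
    · intro c' hc'
      rw [← Sum.inr.inj hc']
      rfl
    · intro S hS1 hS2 _
      rw [eq_top_iff]
      intro p _
      clear * - hS1 hS2
      induction p using Polynomial.induction_on' with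
      | add p p' hp hp' => exact S.add_mem hp hp'
      | monomial n a =>
        rw [← Polynomial.C_mul_X_pow_eq_monomial]
        exact S.mul_mem (hS1 a) (S.pow_mem hS2 n)
    · intro R _ _ f h' w' hr
      let g0 : Polynomial A →+* R := Polynomial.eval₂RingHom (f : A →+* R) h'
      refine ⟨{ g0 with
        commutes' := ?_ }, ?_, ?_, ?_⟩
      · intro c
        show g0 (algebraMap ℂ (Polynomial A) c) = algebraMap ℂ R c
        have e : algebraMap ℂ (Polynomial A) c = Polynomial.C (algebraMap ℂ A c) := rfl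
        rw [e]
        simp [g0]
      · intro a
        show g0 (Polynomial.C a) = f a
        simp [g0]
      · show g0 Polynomial.X = h'
        simp [g0]
      · show g0 (Polynomial.C c * Polynomial.X) = w'
        rw [hr.2 c rfl]
        simp [g0]

theorem TW3_rel_map {A B R : Type} [CommRing A] [CommRing B] [CommRing R] [Algebra ℂ A]
    [Algebra ℂ B] [Algebra ℂ R] (f : A →ₐ[ℂ] B) (g : B →ₐ[ℂ] R) (k : A →ₐ[ℂ] R)
    (hk : ∀ a, k a = g (f a)) {z : A ⊕ A} {h w : B} (hr : Rel f z h w) : Rel k z (g h) (g w) := by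
  refine ⟨fun b hb => ?_, fun c hc => ?_⟩
  · rw [← map_pow, hr.1 b hb, map_add, map_pow, hk]
  · rw [hr.2 c hc, map_mul, hk]

theorem TW3_rel_push {A B R : Type} [CommRing A] [CommRing B] [CommRing R] [Algebra ℂ A]
    [Algebra ℂ B] [Algebra ℂ R] (f : A →ₐ[ℂ] B) (g : B →ₐ[ℂ] R) (k : A →ₐ[ℂ] R)
    (hk : ∀ a, k a = g (f a)) {z : A ⊕ A} {h w : R} :
    Rel g (Sum.map f f z) h w ↔ Rel k z h w := by
  rcases z with b | c
  · constructor
    · intro hr
      refine ⟨fun b' hb' => ?_, fun c hc => absurd hc (by simp)⟩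
      rw [← Sum.inl.inj hb', hk]
      exact hr.1 (f b) rfl
    · intro hr
      refine ⟨fun b' hb' => ?_, fun c hc => absurd hc (by simp)⟩
      rw [← Sum.inl.inj hb', ← hk]
      exact hr.1 b rfl
  · constructor
    · intro hr
      refine ⟨fun b hb => absurd hb (by simp), fun c' hc' => ?_⟩
      rw [← Sum.inr.inj hc', hk]
      exact hr.2 (f c) rfl
    · intro hr
      refine ⟨fun b hb => absurd hb (by simp), fun c' hc' => ?_⟩
      rw [← Sum.inr.inj hc', ← hk]
      exact hr.2 c rfl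

theorem TW3_ne {A B : Type} [CommRing A] [CommRing B] [Algebra ℂ A]
    [Algebra ℂ B] (f : A →ₐ[ℂ] B) (hf : Function.Injective f) {z : A ⊕ A}
    (hz : ∀ b, z = Sum.inl b → b ≠ 0) : ∀ b, Sum.map f f z = Sum.inl b → b ≠ 0 := by
  rcases z with b | c
  · intro b' hb'
    rw [← Sum.inl.inj hb', Ne, map_eq_zero_iff f hf]
    exact hz b rfl
  · intro b' hb'
    exact absurd hb' (by simp)

theorem exists_tower (A : Type) [CommRing A] [IsDomain A] [Algebra ℂ A] (z : Fin 3 → A ⊕ A)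
    (hz : ∀ k b, z k = Sum.inl b → b ≠ 0) :
    ∃ (B : Type) (_ : CommRing B) (_ : IsDomain B) (_ : Algebra ℂ B) (i : A →ₐ[ℂ] B)
      (h w : Fin 3 → B), IsTower i z h w := by
  obtain ⟨B1, _, _, _, i1, h0, w0, inj1, rel1, gen1, univ1⟩ := TW3_step A (z 0) (hz 0)
  obtain ⟨B2, _, _, _, i2, h1, w1, inj2, rel2, gen2, univ2⟩ :=
    TW3_step B1 (Sum.map i1 i1 (z 1)) (TW3_ne i1 inj1 (hz 1))
  obtain ⟨B3, _, _, _, i3, h2, w2, inj3, rel3, gen3, univ3⟩ :=
    TW3_step B2 (Sum.map (i2.comp i1) (i2.comp i1) (z 2))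
      (TW3_ne (i2.comp i1) (inj2.comp inj1) (hz 2))
  refine ⟨B3, inferInstance, inferInstance, inferInstance, (i3.comp i2).comp i1,
    ![i3 (i2 h0), i3 h1, h2], ![i3 (i2 w0), i3 w1, w2], ?_, ?_, ?_, ?_⟩
  · exact (inj3.comp inj2).comp inj1
  · intro k
    fin_cases k
    · exact TW3_rel_map i1 (i3.comp i2) _ (fun _ => rfl) rel1
    · exact TW3_rel_map (i2.comp i1) i3 _ (fun _ => rfl)
        ((TW3_rel_push i1 i2 (i2.comp i1) (fun _ => rfl)).1 rel2)
    · exact (TW3_rel_push (i2.comp i1) i3 _ (fun _ => rfl)).1 rel3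
  · intro S hS hh hw
    have e1 : S.comap (i3.comp i2) = ⊤ := gen1 _ (fun a => hS a) (hh 0) (hw 0)
    have f1 : ∀ b, i3 (i2 b) ∈ S := fun b => by
      have : b ∈ S.comap (i3.comp i2) := by rw [e1]; trivial
      exact this
    have e2 : S.comap i3 = ⊤ := gen2 _ (fun a => f1 a) (hh 1) (hw 1)
    have f2 : ∀ b, i3 b ∈ S := fun b => by
      have : b ∈ S.comap i3 := by rw [e2]; trivial
      exact this
    exact gen3 _ f2 (hh 2) (hw 2)
  · intro R _ _ f h' w' hr
    obtain ⟨g1, a1, b1, c1⟩ := univ1 R f (h' 0) (w' 0) (hr 0)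
    obtain ⟨g2, a2, b2, c2⟩ := univ2 R g1 (h' 1) (w' 1)
      ((TW3_rel_push i1 g1 f (fun a => (a1 a).symm)).2 (hr 1))
    obtain ⟨g3, a3, b3, c3⟩ := univ3 R g2 (h' 2) (w' 2)
      ((TW3_rel_push (i2.comp i1) g2 f (fun a => by
        rw [← a1 a, ← a2 (i1 a)]; rfl)).2 (hr 2))
    refine ⟨g3, ?_, ?_, ?_⟩
    · intro a
      show g3 (i3 (i2 (i1 a))) = f a
      rw [a3, a2, a1]
    · intro k
      fin_cases k
      · show g3 (i3 (i2 h0)) = h' 0
        rw [a3, a2, b1]
      · show g3 (i3 h1) = h' 1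
        rw [a3, b2]
      · exact b3
    · intro k
      fin_cases k
      · show g3 (i3 (i2 w0)) = w' 0
        rw [a3, a2, c1]
      · show g3 (i3 w1) = w' 1
        rw [a3, c2]
      · exact c3

end Pool.Agent.H56.TC
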