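import Pool.Agent.H56.TC.Defs
import Pool.Agent.H56.TC.TW3
import Pool.Agent.H56.TC.SCL
import Pool.Agent.H56.TC.HOM
import Pool.Agent.H56.TC.FFS

/-!
Part BIR. The general member is birational to `E × E × E`. `K = FractionRing B`, `z = fr (yM t h w)`,
`e (k, 0) = h k`, `e (k, 1) = δ k` with `δ k ^ 3 = gg t k` (nonzero constant), `e (k, 2) = w k`. `IsFF` for `e`:
`isFF_of_const`. `Var Prod.fst e = fermatCube`: `⊆`: the polynomials `X (k,2) ^ 3 - X (k,0) ^ 3 - X (k,1) ^ 3` vanish at `e`.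
`⊇`: let `R'` be the tower over `MvPolynomial (Fin 3) ℂ` with `z' k = inl (X k ^ 3)`, `M` its fraction field; `B → M`,
`h k ↦ (δ k / X k) h'' k`, `w k ↦ (δ k / X k) w'' k` (`IsTower.univ`); the point `(h'' k, X k, w'' k)` is the image of `e`
scaled by `X k / δ k`; use `spec_of_scale` with `ψ : R' → ℂ`, `X k ↦ p (k, 1)`, `h'' k ↦ p (k, 0)`, `w'' k ↦ p (k, 2)`.
-/

set_option autoImplicit false

namespace Pool.Agent.H56.TC

open MvPolynomial

/-- the generic point of `E × E × E` -/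
noncomputable def BIR_e {B : Type} [CommRing B] [Algebra ℂ B] (δ : Fin 3 → ℂ) (h w : Fin 3 → B) :
    Fin 3 × Fin 3 → B := fun s => ![h s.1, algebraMap ℂ B (δ s.1), w s.1] s.2

theorem BIR_i {B : Type} [CommRing B] [Algebra ℂ B] (i : ℂ →ₐ[ℂ] B) (a : ℂ) :
    i a = algebraMap ℂ B a := i.commutes a

theorem BIR_gen {δ : Fin 3 → ℂ} {z : Fin 3 → ℂ ⊕ ℂ} {B : Type} [CommRing B] [Algebra ℂ B]
    {i : ℂ →ₐ[ℂ] B} {h w : Fin 3 → B} (hT : IsTower i z h w) :
    Algebra.adjoin ℂ (Set.range (BIR_e δ h w)) = ⊤ := by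
  refine hT.gen _ (fun a => ?_) (fun k => ?_) (fun k => ?_)
  · rw [BIR_i]
    exact Subalgebra.algebraMap_mem _ a
  · exact Algebra.subset_adjoin ⟨(k, 0), rfl⟩
  · exact Algebra.subset_adjoin ⟨(k, 2), rfl⟩

theorem BIR_sub {δ : Fin 3 → ℂ} {B : Type} [CommRing B] [IsDomain B] [Algebra ℂ B]
    {h w : Fin 3 → B} (hr : ∀ k, w k ^ 3 = h k ^ 3 + algebraMap ℂ B (δ k) ^ 3) :
    Var Prod.fst (fr (BIR_e δ h w)) ⊆ fermatCube := by
  rintro x ⟨hx, hP⟩
  refine ⟨hx, fun k => ?_⟩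
  have h1 : MHom (Prod.fst : Fin 3 × Fin 3 → Fin 3) (3 • Finsupp.single k 1)
      (X (k, 2) ^ 3 - X (k, 0) ^ 3 - X (k, 1) ^ 3) :=
    (((MHom.X Prod.fst (k, (2 : Fin 3))).pow 3).sub ((MHom.X Prod.fst (k, (0 : Fin 3))).pow 3)).sub
      ((MHom.X Prod.fst (k, (1 : Fin 3))).pow 3)
  have h2 := hP _ _ h1 (by
    rw [map_sub, map_sub, map_pow, map_pow, map_pow, aeval_X, aeval_X, aeval_X]
    show algebraMap B (FractionRing B) (w k) ^ 3 - algebraMap B (FractionRing B) (h k) ^ 3 -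
      algebraMap B (FractionRing B) (algebraMap ℂ B (δ k)) ^ 3 = 0
    rw [← map_pow, ← map_pow, ← map_pow, hr k, map_add]
    ring)
  rw [map_sub, map_sub, map_pow, map_pow, map_pow, aeval_X, aeval_X, aeval_X] at h2
  linear_combination h2

theorem BIR_sup {δ : Fin 3 → ℂ} (hδ : ∀ k, δ k ≠ 0) {B : Type} [CommRing B] [IsDomain B]
    [Algebra ℂ B] {i : ℂ →ₐ[ℂ] B} {h w : Fin 3 → B}
    (hT : IsTower i (fun k => Sum.inl (δ k ^ 3)) h w) :
    fermatCube ⊆ Var Prod.fst (fr (BIR_e δ h w)) := by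
  rintro p ⟨hp, hrel⟩
  refine ⟨hp, fun d P hP h0 => ?_⟩
  have h0' : aeval (BIR_e δ h w) P = 0 := by
    apply FaithfulSMul.algebraMap_injective B (FractionRing B)
    rw [map_zero, ← h0]
    exact (SCL_aeval_hom (IsScalarTower.toAlgHom ℂ B (FractionRing B)) (BIR_e δ h w) P).symm
  obtain ⟨R', _, _, _, i', h'', w'', hT'⟩ := exists_tower (MvPolynomial (Fin 3) ℂ)
    (fun k => Sum.inl (X k ^ 3)) (by
      intro k b hb
      rw [← Sum.inl.inj hb]
      exact pow_ne_zero 3 (X_ne_zero k))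
  let j : R' →ₐ[ℂ] FractionRing R' := IsScalarTower.toAlgHom ℂ R' (FractionRing R')
  have hj : Function.Injective j := FaithfulSMul.algebraMap_injective R' (FractionRing R')
  let q : Fin 3 → FractionRing R' := fun k => j (i' (X k))
  have hq : ∀ k, q k ≠ 0 := by
    intro k hk
    have e1 : i' (X k) = 0 := hj (by rw [map_zero]; exact hk)
    have e2 : (X k : MvPolynomial (Fin 3) ℂ) = 0 := hT'.inj (by rw [map_zero]; exact e1)
    exact X_ne_zero k e2
  let D : Fin 3 → FractionRing R' := fun k => algebraMap ℂ (FractionRing R') (δ k)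
  have hD : ∀ k, D k ≠ 0 := by
    intro k hk
    apply hδ k
    apply FaithfulSMul.algebraMap_injective ℂ (FractionRing R')
    rw [map_zero]
    exact hk
  have hrel' : ∀ k, w'' k ^ 3 = h'' k ^ 3 + i' (X k ^ 3) := fun k => (hT'.rel k).1 _ rfl
  obtain ⟨φ, hφ1, hφ2, hφ3⟩ := hT.univ (FractionRing R') (Algebra.ofId ℂ (FractionRing R'))
    (fun k => D k / q k * j (h'' k)) (fun k => D k / q k * j (w'' k)) (by
      intro k
      refine ⟨fun b hb => ?_, fun c hc => absurd hc (by simp)⟩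
      rw [← Sum.inl.inj hb]
      have e1 : j (w'' k) ^ 3 = j (h'' k) ^ 3 + q k ^ 3 := by
        rw [← map_pow, hrel' k, map_add, map_pow, map_pow, map_pow]
      have e2 : Algebra.ofId ℂ (FractionRing R') (δ k ^ 3) = D k ^ 3 := by
        rw [map_pow]; rfl
      rw [e2, mul_pow, mul_pow, e1, div_pow]
      have := hq k
      field_simp)
  obtain ⟨ψ, hψ1, hψ2, hψ3⟩ := hT'.univ ℂ (aeval (fun k => p (k, 1))) (fun k => p (k, 0))
    (fun k => p (k, 2)) (by
      intro k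
      refine ⟨fun b hb => ?_, fun c hc => absurd hc (by simp)⟩
      rw [← Sum.inl.inj hb, map_pow, aeval_X]
      exact hrel k)
  have key := spec_of_scale (bl := (Prod.fst : Fin 3 × Fin 3 → Fin 3)) φ j hj ψ (BIR_e δ h w)
    (fun s => ![h'' s.1, i' (X s.1), w'' s.1] s.2) (fun k => q k / D k) (by
      rintro ⟨k, e⟩
      have a1 := hq k
      have a2 := hD k
      fin_cases e
      · show j (h'' k) = q k / D k * φ (h k)
        rw [hφ2]
        field_simp
      · show j (i' (X k)) = q k / D k * φ (algebraMap ℂ B (δ k))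
        rw [φ.commutes]
        show q k = q k / D k * D k
        field_simp
      · show j (w'' k) = q k / D k * φ (w k)
        rw [hφ3]
        field_simp) hP h0'
  have e : (fun s : Fin 3 × Fin 3 => ψ (![h'' s.1, i' (X s.1), w'' s.1] s.2)) = p := by
    funext s
    obtain ⟨k, e⟩ := s
    fin_cases e
    · exact hψ2 k
    · show ψ (i' (X k)) = p (k, 1)
      rw [hψ1, aeval_X]
    · exact hψ3 k
  rw [e] at key
  exact key

theorem birat_M {t : Fin 2 → ℂ} (ht : t ≠ 0) (hg : ∀ k, gg t k ≠ 0)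
    {B : Type} [CommRing B] [IsDomain B] [Algebra ℂ B] {i : ℂ →ₐ[ℂ] B} {h w : Fin 3 → B}
    (hT : IsTower i (fun k => Sum.inl (gg t k)) h w) :
    BiratECube bX (Var bX (fr (yM t h w))) := by
  have hex : ∀ k, ∃ δ : ℂ, δ ^ 3 = gg t k := fun k => IsAlgClosed.exists_pow_nat_eq _ (by norm_num)
  choose δ hδ using hex
  have hδ0 : ∀ k, δ k ≠ 0 := by
    intro k hk
    apply hg k
    rw [← hδ k, hk]
    norm_num
  have hz : (fun k => Sum.inl (gg t k) : Fin 3 → ℂ ⊕ ℂ) = fun k => Sum.inl (δ k ^ 3) := by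
    funext k; rw [hδ k]
  have hT' : IsTower i (fun k => Sum.inl (δ k ^ 3)) h w := by rw [← hz]; exact hT
  refine ⟨FractionRing B, inferInstance, inferInstance, fr (yM t h w), fr (BIR_e δ h w),
    isFF_yM ht hT, ?_, rfl, ?_⟩
  · refine isFF_of_const (BIR_e δ h w) (BIR_gen hT) fun b => ?_
    exact ⟨(b, 1), rfl, δ b, hδ0 b, rfl⟩
  · refine Set.Subset.antisymm (BIR_sup hδ0 hT') (BIR_sub fun k => ?_)
    have := (hT'.rel k).1 _ rfl
    rw [this, BIR_i, map_pow]

end Pool.Agent.H56.TC
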