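import Pool.Agent.H56.TC.Defs
import Pool.Agent.H56.TC.SCL

/-!
Part REL. Coordinates of the points of `X` and `C`.
The following multihomogeneous polynomials vanish at the generic point, hence at `x`
(notation `x k e = x (inl (k, e))`, `U k e e' = x (inr (k, e, e'))`):
`U k e e' * x (k+1) f * x (k+2) f' = U k f f' * x (k+1) e * x (k+2) e'`;
`U k 1 e' = U (k+1) e' 1` and `U k 0 e' = U (k+1) e' 0` (`0, 1` in `Fin 4`);
`x k 3 ^ 3 = x k 2 ^ 3 + x k 0 ^ 3 + cc k * x k 1 ^ 3`; for `C` also `t 1 * x k 0 = t 0 * x k 1`.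
As the blocks of `x` are nonzero there are `ρ k` with `U k e e' = ρ k * x (k+1) e * x (k+2) e'`, not all zero (block
`none`); the second relations give `ρ k * x (k+1) e = ρ (k+1) * x k e` for `e = 0, 1`, so the vectors `(x k e)_k` are
multiples of `ρ`: `x k 0 = a ρ k`, `x k 1 = b ρ k`. For `C`: `t 1 a = t 0 b` and `t ≠ 0` (block of `P¹`), so
`(a, b) = θ t`.
-/

set_option autoImplicit false
set_option linter.unusedSectionVars false

namespace Pool.Agent.H56.TC

open MvPolynomial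

lemma REL_vanish {B : Type} [CommRing B] [IsDomain B] [Algebra ℂ B] {σ β : Type} {bl : σ → β} {y : σ → B}
    {x : σ → ℂ} (hx : x ∈ Var bl (fr y)) {d : β →₀ ℕ} {P : MvPolynomial σ ℂ} (hP : MHom bl d P)
    (h0 : aeval y P = 0) : aeval x P = 0 := by
  refine hx.2 d P hP ?_
  have h1 : aeval (fr y) P = algebraMap B (FractionRing B) (aeval y P) := by
    have := SCL_aeval_hom (IsScalarTower.toAlgHom ℂ B (FractionRing B)) y P
    exact this
  rw [h1, h0, map_zero]

lemma REL_X {σ β : Type} {bl : σ → β} (s : σ) (b : β) (hb : bl s = b) :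
    MHom bl (Finsupp.single b 1) (MvPolynomial.X s) := by
  subst hb
  exact MHom.X bl s

lemma REL_X2 {σ β : Type} {bl : σ → β} (s s' : σ) (b b' : β) (hb : bl s = b) (hb' : bl s' = b') :
    MHom bl (Finsupp.single b 1 + Finsupp.single b' 1) (MvPolynomial.X s * MvPolynomial.X s') :=
  (REL_X s b hb).mul (REL_X s' b' hb')

lemma REL_X3 {σ β : Type} {bl : σ → β} (s s' s'' : σ) (b b' b'' : β) (hb : bl s = b) (hb' : bl s' = b')
    (hb'' : bl s'' = b'') :
    MHom bl (Finsupp.single b 1 + Finsupp.single b' 1 + Finsupp.single b'' 1)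
      (MvPolynomial.X s * MvPolynomial.X s' * MvPolynomial.X s'') :=
  (REL_X2 s s' b b' hb hb').mul (REL_X s'' b'' hb'')

lemma REL_P3 {σ β : Type} {bl : σ → β} (s : σ) (b : β) (hb : bl s = b) :
    MHom bl (3 • Finsupp.single b 1) (MvPolynomial.X s ^ 3) :=
  (REL_X s b hb).pow 3

section

variable {B : Type} [CommRing B] [IsDomain B] [Algebra ℂ B] {i : Polynomial ℂ →ₐ[ℂ] B} {h w : Fin 3 → B}

lemma REL_y_inl (k : Fin 3) (e : Fin 4) :
    yB i h w (Sum.inl (k, e)) = ![i Polynomial.X, 1, h k, w k] e := by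
  unfold yB pt xc
  simp only [mul_one]

lemma REL_y_inr (k : Fin 3) (e e' : Fin 4) :
    yB i h w (Sum.inr (k, e, e')) = yB i h w (Sum.inl (k + 1, e)) * yB i h w (Sum.inl (k + 2, e')) := by
  unfold yB pt
  simp only [one_mul]

lemma REL_fin3 (k : Fin 3) : k + 1 + 1 = k + 2 ∧ k + 1 + 2 = k ∧ k + 2 + 1 = k := by
  fin_cases k <;> decide

lemma REL_cases : ∀ k0 k : Fin 3, k = k0 ∨ k = k0 + 1 ∨ k = k0 + 2 := by decide

lemma REL_one {x : Sg → ℂ} (hx : x ∈ VX i h w) (k : Fin 3) (e e' f f' : Fin 4) :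
    x (Sum.inr (k, e, e')) * x (Sum.inl (k + 1, f)) * x (Sum.inl (k + 2, f')) =
      x (Sum.inr (k, f, f')) * x (Sum.inl (k + 1, e)) * x (Sum.inl (k + 2, e')) := by
  have hP : MHom bX (Finsupp.single none 1 + Finsupp.single (some (k + 1)) 1 + Finsupp.single (some (k + 2)) 1)
      (X (Sum.inr (k, e, e')) * X (Sum.inl (k + 1, f)) * X (Sum.inl (k + 2, f')) -
        X (Sum.inr (k, f, f')) * X (Sum.inl (k + 1, e)) * X (Sum.inl (k + 2, e'))) :=
    (REL_X3 (bl := bX) _ _ _ none (some (k + 1)) (some (k + 2)) rfl rfl rfl).sub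
      (REL_X3 (bl := bX) _ _ _ none (some (k + 1)) (some (k + 2)) rfl rfl rfl)
  have := REL_vanish hx hP (by
    simp only [map_sub, map_mul, aeval_X]
    rw [REL_y_inr k e e', REL_y_inr k f f']
    ring)
  simp only [map_sub, map_mul, aeval_X] at this
  exact sub_eq_zero.1 this

lemma REL_two {x : Sg → ℂ} (hx : x ∈ VX i h w) (k : Fin 3) (e' : Fin 4) :
    x (Sum.inr (k, 1, e')) = x (Sum.inr (k + 1, e', 1)) := by
  have hP : MHom bX (Finsupp.single none 1)
      (X (Sum.inr (k, 1, e')) - X (Sum.inr (k + 1, e', 1))) :=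
    (REL_X (bl := bX) _ none rfl).sub (REL_X (bl := bX) _ none rfl)
  have := REL_vanish hx hP (by
    simp only [map_sub, aeval_X]
    rw [REL_y_inr k 1 e', REL_y_inr (k + 1) e' 1, (REL_fin3 k).1, (REL_fin3 k).2.1, REL_y_inl (k + 1) 1,
      REL_y_inl k 1]
    simp)
  simp only [map_sub, aeval_X] at this
  exact sub_eq_zero.1 this

lemma REL_three {x : Sg → ℂ} (hx : x ∈ VX i h w) (k : Fin 3) (e' : Fin 4) :
    x (Sum.inr (k, 0, e')) = x (Sum.inr (k + 1, e', 0)) := by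
  have hP : MHom bX (Finsupp.single none 1)
      (X (Sum.inr (k, 0, e')) - X (Sum.inr (k + 1, e', 0))) :=
    (REL_X (bl := bX) _ none rfl).sub (REL_X (bl := bX) _ none rfl)
  have := REL_vanish hx hP (by
    simp only [map_sub, aeval_X]
    rw [REL_y_inr k 0 e', REL_y_inr (k + 1) e' 0, (REL_fin3 k).1, (REL_fin3 k).2.1, REL_y_inl (k + 1) 0,
      REL_y_inl k 0]
    simp only [Matrix.cons_val_zero]
    ring)
  simp only [map_sub, aeval_X] at this
  exact sub_eq_zero.1 this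

lemma REL_cubic (hT : IsTower i zX h w) {x : Sg → ℂ} (hx : x ∈ VX i h w) (k : Fin 3) :
    x (Sum.inl (k, 3)) ^ 3 = x (Sum.inl (k, 2)) ^ 3 + x (Sum.inl (k, 0)) ^ 3 + cc k * x (Sum.inl (k, 1)) ^ 3 := by
  have hP : MHom bX (3 • Finsupp.single (some k) 1)
      (X (Sum.inl (k, 3)) ^ 3 - (X (Sum.inl (k, 2)) ^ 3 + X (Sum.inl (k, 0)) ^ 3 +
        C (cc k) * X (Sum.inl (k, 1)) ^ 3)) :=
    (REL_P3 (bl := bX) _ (some k) rfl).sub (((REL_P3 (bl := bX) _ (some k) rfl).add
      (REL_P3 (bl := bX) _ (some k) rfl)).add ((REL_P3 (bl := bX) _ (some k) rfl).C_mul _))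
  have hr : w k ^ 3 = h k ^ 3 + i (Polynomial.X ^ 3 + Polynomial.C (cc k)) := (hT.rel k).1 _ rfl
  have hc : i (Polynomial.C (cc k)) = algebraMap ℂ B (cc k) := by
    have := i.commutes (cc k)
    exact this
  have := REL_vanish hx hP (by
    simp only [map_sub, map_add, map_mul, map_pow, aeval_X, aeval_C]
    rw [REL_y_inl k 3, REL_y_inl k 2, REL_y_inl k 1, REL_y_inl k 0]
    rw [map_add, map_pow, hc] at hr
    have e3 : ![i Polynomial.X, 1, h k, w k] 3 = w k := rfl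
    have e2 : ![i Polynomial.X, 1, h k, w k] 2 = h k := rfl
    have e1 : ![i Polynomial.X, 1, h k, w k] 1 = 1 := rfl
    have e0 : ![i Polynomial.X, 1, h k, w k] 0 = i Polynomial.X := rfl
    rw [e3, e2, e1, e0, hr]
    ring)
  simp only [map_sub, map_add, map_mul, map_pow, aeval_X, aeval_C, Algebra.algebraMap_self, RingHom.id_apply] at this
  exact sub_eq_zero.1 this

/-- coordinates of the points of `X`, with `ρ ≠ 0` -/
lemma REL_cox (hT : IsTower i zX h w) {x : Sg → ℂ} (hx : x ∈ VX i h w) :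
    ∃ (a b : ℂ) (ρ h' w' : Fin 3 → ℂ), (∃ k, ρ k ≠ 0) ∧
      (∀ k, w' k ^ 3 = h' k ^ 3 + ρ k ^ 3 * (a ^ 3 + cc k * b ^ 3)) ∧ x = pt a b ρ h' w' := by
  have hpt : IsPt bX x := hx.1
  -- nonzero coordinates in the three blocks
  have hne : ∀ k : Fin 3, ∃ e : Fin 4, x (Sum.inl (k, e)) ≠ 0 := by
    intro k
    obtain ⟨s, hs, hs'⟩ := hpt (some k)
    rcases s with ⟨k', e⟩ | s
    · have : k' = k := by simpa [bX] using hs
      subst this
      exact ⟨e, hs'⟩
    · simp [bX] at hs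
  choose g hg using hne
  -- the numbers ρ
  set ρ : Fin 3 → ℂ := fun k => x (Sum.inr (k, g (k + 1), g (k + 2))) /
    (x (Sum.inl (k + 1, g (k + 1))) * x (Sum.inl (k + 2, g (k + 2)))) with hρ
  have hU : ∀ k e e', x (Sum.inr (k, e, e')) = ρ k * x (Sum.inl (k + 1, e)) * x (Sum.inl (k + 2, e')) := by
    intro k e e'
    have h1 := REL_one hx k e e' (g (k + 1)) (g (k + 2))
    have h2 := hg (k + 1)
    have h3 := hg (k + 2)
    simp only [hρ]
    field_simp
    linear_combination h1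
  obtain ⟨k0, hk0⟩ : ∃ k, ρ k ≠ 0 := by
    obtain ⟨s, hs, hs'⟩ := hpt none
    rcases s with ⟨k', e⟩ | ⟨k, e, e'⟩
    · simp [bX] at hs
    · refine ⟨k, fun h0 => hs' ?_⟩
      rw [hU, h0, zero_mul, zero_mul]
  have hprop1 : ∀ k, ρ k * x (Sum.inl (k + 1, 1)) = ρ (k + 1) * x (Sum.inl (k, 1)) := by
    intro k
    have h1 := REL_two hx k (g (k + 2))
    rw [hU, hU (k + 1), (REL_fin3 k).1, (REL_fin3 k).2.1] at h1
    have h3 := hg (k + 2)
    apply mul_right_cancel₀ h3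
    linear_combination h1
  have hprop0 : ∀ k, ρ k * x (Sum.inl (k + 1, 0)) = ρ (k + 1) * x (Sum.inl (k, 0)) := by
    intro k
    have h1 := REL_three hx k (g (k + 2))
    rw [hU, hU (k + 1), (REL_fin3 k).1, (REL_fin3 k).2.1] at h1
    have h3 := hg (k + 2)
    apply mul_right_cancel₀ h3
    linear_combination h1
  have hall : ∀ v : Fin 3 → ℂ, (∀ k, ρ k * v (k + 1) = ρ (k + 1) * v k) → ∀ k, v k = v k0 / ρ k0 * ρ k := by
    intro v hv k
    have hcases := REL_cases k0 k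
    rcases hcases with rfl | rfl | rfl
    · field_simp
    · have := hv k0
      field_simp
      linear_combination this
    · have := hv (k0 + 2)
      rw [(REL_fin3 k0).2.2] at this
      field_simp
      linear_combination -this
  refine ⟨x (Sum.inl (k0, 0)) / ρ k0, x (Sum.inl (k0, 1)) / ρ k0, ρ, fun k => x (Sum.inl (k, 2)),
    fun k => x (Sum.inl (k, 3)), ⟨k0, hk0⟩, ?_, ?_⟩
  · intro k
    have h1 := REL_cubic hT hx k
    have h2 := hall (fun k => x (Sum.inl (k, 0))) hprop0 k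
    have h3 := hall (fun k => x (Sum.inl (k, 1))) hprop1 k
    rw [h1, h2, h3]
    ring
  · have hinl : ∀ k e, x (Sum.inl (k, e)) = xc (x (Sum.inl (k0, 0)) / ρ k0) (x (Sum.inl (k0, 1)) / ρ k0) ρ
        (fun k => x (Sum.inl (k, 2))) (fun k => x (Sum.inl (k, 3))) k e := by
      intro k e
      have h2 := hall (fun k => x (Sum.inl (k, 0))) hprop0 k
      have h3 := hall (fun k => x (Sum.inl (k, 1))) hprop1 k
      unfold xc
      fin_cases e
      · exact h2
      · exact h3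
      · rfl
      · rfl
    funext s
    rcases s with ⟨k, e⟩ | ⟨k, e, e'⟩
    · exact hinl k e
    · rw [hU]
      simp only [pt]
      rw [← hinl (k + 1) e, ← hinl (k + 2) e']

end

theorem cox_X {B : Type} [CommRing B] [IsDomain B] [Algebra ℂ B] {i : Polynomial ℂ →ₐ[ℂ] B}
    {h w : Fin 3 → B} (hT : IsTower i zX h w) {x : Sg → ℂ} (hx : x ∈ VX i h w) :
    ∃ (a b : ℂ) (ρ h' w' : Fin 3 → ℂ),
      (∀ k, w' k ^ 3 = h' k ^ 3 + ρ k ^ 3 * (a ^ 3 + cc k * b ^ 3)) ∧ x = pt a b ρ h' w' := by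
  obtain ⟨a, b, ρ, h', w', _, h1, h2⟩ := REL_cox hT hx
  exact ⟨a, b, ρ, h', w', h1, h2⟩

lemma REL_CX {B : Type} [CommRing B] [IsDomain B] [Algebra ℂ B] {i : Polynomial ℂ →ₐ[ℂ] B}
    {h w : Fin 3 → B} {x : Sg → ℂ} {t : Fin 2 → ℂ}
    (hx : Sum.elim x t ∈ VC i h w) : x ∈ VX i h w := by
  refine ⟨?_, ?_⟩
  · intro b
    obtain ⟨s, hs, hs'⟩ := hx.1 (Sum.inl b)
    rcases s with s | s
    · exact ⟨s, Sum.inl_injective hs, hs'⟩
    · exact absurd hs (by simp [Sum.map])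
  · intro d P hP h0
    have h1 := hx.2 _ _ (hP.rename_inl (bl' := bT)) (by
      rw [aeval_rename]
      exact h0)
    rw [aeval_rename] at h1
    exact h1

theorem cox_C {B : Type} [CommRing B] [IsDomain B] [Algebra ℂ B] {i : Polynomial ℂ →ₐ[ℂ] B}
    {h w : Fin 3 → B} (hT : IsTower i zX h w) {x : Sg → ℂ} {t : Fin 2 → ℂ}
    (hx : Sum.elim x t ∈ VC i h w) :
    x ∈ VX i h w ∧ t ≠ 0 ∧ ∃ (θ : ℂ) (ρ h' w' : Fin 3 → ℂ),
      (∀ k, w' k ^ 3 = h' k ^ 3 + (θ * ρ k) ^ 3 * gg t k) ∧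
        x = pt (t 0 * θ) (t 1 * θ) ρ h' w' := by
  have hX := REL_CX hx
  have ht : t ≠ 0 := by
    obtain ⟨s, hs, hs'⟩ := hx.1 (Sum.inr ())
    rcases s with s | s
    · exact absurd hs (by simp [Sum.map])
    · intro h0
      apply hs'
      rw [Sum.elim_inr, h0]
      rfl
  refine ⟨hX, ht, ?_⟩
  obtain ⟨a, b, ρ, h', w', ⟨k0, hk0⟩, h1, h2⟩ := REL_cox hT hX
  have hlin : t 1 * x (Sum.inl (k0, 0)) = t 0 * x (Sum.inl (k0, 1)) := by
    have hP : MHom (Sum.map bX bT) (Finsupp.single (Sum.inr ()) 1 + Finsupp.single (Sum.inl (some k0)) 1)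
        (X (Sum.inr 1) * X (Sum.inl (Sum.inl (k0, 0))) - X (Sum.inr 0) * X (Sum.inl (Sum.inl (k0, 1)))) :=
      (REL_X2 (bl := Sum.map bX bT) _ _ (Sum.inr ()) (Sum.inl (some k0)) rfl rfl).sub
        (REL_X2 (bl := Sum.map bX bT) _ _ (Sum.inr ()) (Sum.inl (some k0)) rfl rfl)
    have := REL_vanish hx hP (by
      simp only [map_sub, map_mul, aeval_X]
      unfold yC
      simp only [Sum.elim_inl, Sum.elim_inr]
      rw [REL_y_inl, REL_y_inl]
      simp)
    simp only [map_sub, map_mul, aeval_X, Sum.elim_inl, Sum.elim_inr] at this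
    exact sub_eq_zero.1 this
  have hab : t 1 * a = t 0 * b := by
    have e0 : x (Sum.inl (k0, 0)) = a * ρ k0 := by rw [h2]; rfl
    have e1 : x (Sum.inl (k0, 1)) = b * ρ k0 := by rw [h2]; rfl
    rw [e0, e1] at hlin
    apply mul_right_cancel₀ hk0
    linear_combination hlin
  obtain ⟨θ, ha, hb⟩ : ∃ θ, a = t 0 * θ ∧ b = t 1 * θ := by
    by_cases h0 : t 0 = 0
    · have h1' : t 1 ≠ 0 := by
        intro h1'
        apply ht
        funext j
        fin_cases j
        · exact h0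
        · exact h1'
      refine ⟨b / t 1, ?_, by field_simp⟩
      rw [h0, zero_mul] at hab ⊢
      exact (mul_eq_zero.1 hab).resolve_left h1'
    · refine ⟨a / t 0, by field_simp, ?_⟩
      field_simp
      linear_combination -hab
  refine ⟨θ, ρ, h', w', fun k => ?_, ?_⟩
  · rw [h1 k, ha, hb]
    unfold gg
    ring
  · rw [h2, ha, hb]

end Pool.Agent.H56.TC
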