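import Pool.Agent.H56.TC.Defs
import Pool.Agent.H56.TC.SCL

/-!
Part VAL. The local ring at a point of the variety. `Loc` is a subalgebra: if `f Q(y) = P(y)`,
`g Q'(y) = P'(y)` then `(f + g) Q Q' = P Q' + P' Q`, etc. `Q(x) ≠ 0` implies `Q(y) ≠ 0` (as `x ∈ Var bl y`).
`ev f = P(x) / Q(x)` is well defined: if also `f Q'(y) = P'(y)` then `P Q' - P' Q` is multihomogeneous and vanishes at `y`,
hence at `x`. `ratio_mem`: `P = X s`, `Q = X s'`.
-/

set_option autoImplicit false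

namespace Pool.Agent.H56.TC

open MvPolynomial

/-- the local ring as a subalgebra -/
def VAL_O {σ β K : Type} [Field K] [Algebra ℂ K] (bl : σ → β) (y : σ → K) (x : σ → ℂ) :
    Subalgebra ℂ K where
  carrier := Loc bl y x
  mul_mem' := by
    rintro f g ⟨d, P, Q, hP, hQ, hx, h⟩ ⟨d', P', Q', hP', hQ', hx', h'⟩
    refine ⟨d + d', P * P', Q * Q', hP.mul hP', hQ.mul hQ', ?_, ?_⟩
    · rw [map_mul]; exact mul_ne_zero hx hx'
    · rw [map_mul, map_mul, ← h, ← h']; ring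
  add_mem' := by
    rintro f g ⟨d, P, Q, hP, hQ, hx, h⟩ ⟨d', P', Q', hP', hQ', hx', h'⟩
    refine ⟨d + d', P * Q' + Q * P', Q * Q', (hP.mul hQ').add (hQ.mul hP'), hQ.mul hQ', ?_, ?_⟩
    · rw [map_mul]; exact mul_ne_zero hx hx'
    · rw [map_mul, map_add, map_mul, map_mul, ← h, ← h']; ring
  algebraMap_mem' := by
    intro r
    refine ⟨0, C r, C 1, MHom.C bl r, MHom.C bl 1, ?_, ?_⟩
    · simp
    · simp

theorem VAL_wd {σ β K : Type} [Field K] [Algebra ℂ K] {bl : σ → β} {y : σ → K} {x : σ → ℂ}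
    (hx : x ∈ Var bl y) {f : K} {d d' : β →₀ ℕ} {P Q P' Q' : MvPolynomial σ ℂ}
    (hP : MHom bl d P) (hQ : MHom bl d Q) (hQx : aeval x Q ≠ 0) (hf : f * aeval y Q = aeval y P)
    (hP' : MHom bl d' P') (hQ' : MHom bl d' Q') (hQx' : aeval x Q' ≠ 0)
    (hf' : f * aeval y Q' = aeval y P') : aeval x P / aeval x Q = aeval x P' / aeval x Q' := by
  have h1 : aeval y (P * Q' - Q * P') = 0 := by
    rw [map_sub, map_mul, map_mul, ← hf, ← hf']; ring
  have h2 := hx.2 (d + d') (P * Q' - Q * P') ((hP.mul hQ').sub (hQ.mul hP')) h1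
  rw [map_sub, map_mul, map_mul] at h2
  rw [div_eq_div_iff hQx hQx']
  linear_combination h2

open Classical in
/-- the value -/
noncomputable def VAL_ev {σ β K : Type} [Field K] [Algebra ℂ K] (bl : σ → β) (y : σ → K)
    (x : σ → ℂ) (f : VAL_O bl y x) : ℂ :=
  aeval x f.2.choose_spec.choose / aeval x f.2.choose_spec.choose_spec.choose

theorem VAL_val {σ β K : Type} [Field K] [Algebra ℂ K] {bl : σ → β} {y : σ → K} {x : σ → ℂ}
    (hx : x ∈ Var bl y) (f : VAL_O bl y x) {d : β →₀ ℕ} {P Q : MvPolynomial σ ℂ}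
    (hP : MHom bl d P) (hQ : MHom bl d Q) (hQx : aeval x Q ≠ 0)
    (hf : (f : K) * aeval y Q = aeval y P) : VAL_ev bl y x f = aeval x P / aeval x Q := by
  obtain ⟨h1, h2, h3, h4⟩ := f.2.choose_spec.choose_spec.choose_spec
  exact VAL_wd hx h1 h2 h3 h4 hP hQ hQx hf

/-- the value as a homomorphism -/
noncomputable def VAL_hom {σ β K : Type} [Field K] [Algebra ℂ K] {bl : σ → β} {y : σ → K}
    {x : σ → ℂ} (hx : x ∈ Var bl y) : VAL_O bl y x →ₐ[ℂ] ℂ where
  toFun := VAL_ev bl y x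
  map_one' := by
    rw [VAL_val hx 1 (MHom.C bl 1) (MHom.C bl 1) (by simp) (by simp)]
    simp
  map_zero' := by
    rw [VAL_val hx 0 (MHom.C bl 0) (MHom.C bl 1) (by simp) (by simp)]
    simp
  map_mul' := by
    intro f g
    obtain ⟨d, P, Q, hP, hQ, hQx, h⟩ := f.2
    obtain ⟨d', P', Q', hP', hQ', hQx', h'⟩ := g.2
    rw [VAL_val hx f hP hQ hQx h, VAL_val hx g hP' hQ' hQx' h',
      VAL_val hx _ (hP.mul hP') (hQ.mul hQ') (by rw [map_mul]; exact mul_ne_zero hQx hQx')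
        (by rw [map_mul, map_mul, ← h, ← h']; push_cast; ring)]
    rw [map_mul, map_mul, mul_div_mul_comm]
  map_add' := by
    intro f g
    obtain ⟨d, P, Q, hP, hQ, hQx, h⟩ := f.2
    obtain ⟨d', P', Q', hP', hQ', hQx', h'⟩ := g.2
    rw [VAL_val hx f hP hQ hQx h, VAL_val hx g hP' hQ' hQx' h',
      VAL_val hx _ ((hP.mul hQ').add (hQ.mul hP')) (hQ.mul hQ')
        (by rw [map_mul]; exact mul_ne_zero hQx hQx')
        (by rw [map_mul, map_add, map_mul, map_mul, ← h, ← h']; push_cast; ring)]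
    rw [map_mul, map_add, map_mul, map_mul]
    field_simp
  commutes' := by
    intro r
    rw [VAL_val hx _ (MHom.C bl r) (MHom.C bl 1) (by simp) (by simp)]
    simp

theorem exists_LR {σ β K : Type} [Field K] [Algebra ℂ K] {bl : σ → β} {y : σ → K} {x : σ → ℂ}
    (hx : x ∈ Var bl y) : ∃ (O : Subalgebra ℂ K) (ev : O →ₐ[ℂ] ℂ), LR bl y x O ev := by
  refine ⟨VAL_O bl y x, VAL_hom hx, ?_, ?_, ?_, ?_⟩
  · intro f; exact Iff.rfl
  · rintro ⟨f, d, P, Q, hP, hQ, hQx, h⟩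
    have hv : VAL_hom hx ⟨f, d, P, Q, hP, hQ, hQx, h⟩ = aeval x P / aeval x Q :=
      VAL_val hx _ hP hQ hQx h
    rw [hv]
    constructor
    · intro h0
      rcases div_eq_zero_iff.1 h0 with h0 | h0
      · exact ⟨d, P, Q, hP, hQ, hQx, h0, h⟩
      · exact absurd h0 hQx
    · rintro ⟨d', P', Q', hP', hQ', hQx', h0', h'⟩
      rw [VAL_wd hx hP hQ hQx h hP' hQ' hQx' h', h0', zero_div]
  · rintro ⟨f, d, P, Q, hP, hQ, hQx, h⟩ hne
    have hv : VAL_hom hx ⟨f, d, P, Q, hP, hQ, hQx, h⟩ = aeval x P / aeval x Q :=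
      VAL_val hx _ hP hQ hQx h
    rw [hv] at hne
    have hPx : aeval x P ≠ 0 := by
      intro h0; apply hne; rw [h0, zero_div]
    have hPy : aeval y P ≠ 0 := fun h0 => hPx (hx.2 d P hP h0)
    have hf : f ≠ 0 := by
      rintro rfl
      rw [zero_mul] at h
      exact hPy h.symm
    refine ⟨d, Q, P, hQ, hP, hPx, ?_⟩
    change f⁻¹ * aeval y P = aeval y Q
    rw [← h, ← mul_assoc, inv_mul_cancel₀ hf, one_mul]
  · intro d P Q hP hQ hQx f h
    exact VAL_val hx f hP hQ hQx h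

theorem LR.ratio {σ β K : Type} [Field K] [Algebra ℂ K] {bl : σ → β} {y : σ → K} {x : σ → ℂ}
    {O : Subalgebra ℂ K} {ev : O →ₐ[ℂ] ℂ} (hO : LR bl y x O ev) (hx : x ∈ Var bl y) {s s' : σ}
    (hs : bl s = bl s') (h0 : x s' ≠ 0) :
    ∃ hm : y s / y s' ∈ O, ev ⟨y s / y s', hm⟩ = x s / x s' := by
  have hP : MHom bl (Finsupp.single (bl s') 1) (X s : MvPolynomial σ ℂ) := by
    rw [← hs]; exact MHom.X bl s
  have hQ : MHom bl (Finsupp.single (bl s') 1) (X s' : MvPolynomial σ ℂ) := MHom.X bl s'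
  have hQx : aeval x (X s' : MvPolynomial σ ℂ) ≠ 0 := by rw [aeval_X]; exact h0
  have hy : y s' ≠ 0 := by
    intro h
    apply hQx
    exact hx.2 _ _ hQ (by rw [aeval_X]; exact h)
  have hrel : y s / y s' * aeval y (X s' : MvPolynomial σ ℂ) =
      aeval y (X s : MvPolynomial σ ℂ) := by
    rw [aeval_X, aeval_X, div_mul_cancel₀ _ hy]
  have hm : y s / y s' ∈ O := (hO.mem _).2 ⟨_, _, _, hP, hQ, hQx, hrel⟩
  refine ⟨hm, ?_⟩
  have := hO.val _ _ _ hP hQ hQx ⟨y s / y s', hm⟩ hrel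
  rw [aeval_X, aeval_X] at this
  exact this

end Pool.Agent.H56.TC
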