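import Pool.Agent.H56.TC.Defs
import Pool.Agent.H56.TC.REL
import Pool.Agent.H56.TC.VAL

/-!
Part CHA. The chart at a point `x ∈ X`, `x = pt a b ρ h' w'`, all blocks nonzero.
At most one `k` has `h' k = w' k = 0` (then `ρ k ≠ 0` and `a ^ 3 + cc k b ^ 3 = 0`, `(a, b) ≠ 0`, and the `cc k` are
distinct). Let `i` be this `k` if it exists, otherwise any `i` with `ρ i ≠ 0` (block `none` is nonzero). `dd k` = index of a
nonzero coordinate of the block `k`, for `k ≠ i` equal to `2` or `3`. Then `x (inr (i, dd (i+1), dd (i+2))) =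
ρ i * x (i+1) (dd (i+1)) * x (i+2) (dd (i+2)) ≠ 0`.
`chart_mem`: with `Y k e = fr (yB i₀ h w) (inl (k, e))` the quotients `Y k e / Y k (dd k)` are in `O` (`LR.ratio`), and
`Y i (dd i) / Y (i+1) (dd (i+1))` is the quotient of the coordinates `inr (i+1, dd (i+2), dd i)` and
`inr (i, dd (i+1), dd (i+2))`; `Y i (dd i) / Y (i+2) (dd (i+2))` is the quotient of the coordinates
`inr (i+2, dd i, dd (i+1))` and `inr (i, dd (i+1), dd (i+2))`.
-/

set_option autoImplicit false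

namespace Pool.Agent.H56.TC

open MvPolynomial

lemma cha_fin3 (i : Fin 3) : i + 1 ≠ i ∧ i + 2 ≠ i ∧ i + 1 + 1 = i + 2 ∧ i + 1 + 2 = i ∧
    i + 2 + 1 = i ∧ i + 2 + 2 = i + 1 := by
  fin_cases i <;> decide

lemma cha_cc_ne {k k' : Fin 3} (h : k ≠ k') : cc k - cc k' ≠ 0 := by
  unfold cc
  intro h0
  apply h
  have h1 : ((k : ℕ) : ℂ) = ((k' : ℕ) : ℂ) := by linear_combination h0
  exact Fin.ext (by exact_mod_cast h1)

/-- both last coordinates of the block `k` vanish -/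
lemma cha_zero {a b : ℂ} {ρ h' w' : Fin 3 → ℂ}
    (hrel : ∀ k, w' k ^ 3 = h' k ^ 3 + ρ k ^ 3 * (a ^ 3 + cc k * b ^ 3))
    (hP : IsPt bX (pt a b ρ h' w')) {k : Fin 3} (h0 : h' k = 0) (w0 : w' k = 0) :
    ρ k ≠ 0 ∧ (a ≠ 0 ∨ b ≠ 0) ∧ a ^ 3 + cc k * b ^ 3 = 0 := by
  obtain ⟨s, hs, hne⟩ := hP (some k)
  rcases s with ⟨k', e⟩ | ⟨k', e, e'⟩
  · have hk : k' = k := by simpa [bX] using hs
    subst hk
    have hρ : ρ k' ≠ 0 ∧ (a ≠ 0 ∨ b ≠ 0) := by
      fin_cases e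
      · have h1 : a * ρ k' ≠ 0 := by simpa [pt, xc] using hne
        exact ⟨right_ne_zero_of_mul h1, Or.inl (left_ne_zero_of_mul h1)⟩
      · have h1 : b * ρ k' ≠ 0 := by simpa [pt, xc] using hne
        exact ⟨right_ne_zero_of_mul h1, Or.inr (left_ne_zero_of_mul h1)⟩
      · exact absurd h0 (by simpa [pt, xc] using hne)
      · exact absurd w0 (by simpa [pt, xc] using hne)
    refine ⟨hρ.1, hρ.2, ?_⟩
    have h2 := hrel k'
    rw [h0, w0] at h2
    have h3 : ρ k' ^ 3 * (a ^ 3 + cc k' * b ^ 3) = 0 := by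
      simpa using h2.symm
    exact (mul_eq_zero.mp h3).resolve_left (pow_ne_zero 3 hρ.1)
  · simp [bX] at hs

theorem chart {B : Type} [CommRing B] [IsDomain B] [Algebra ℂ B]
    {i₀ : Polynomial ℂ →ₐ[ℂ] B} {h w : Fin 3 → B} (hT : IsTower i₀ zX h w) {x : Sg → ℂ}
    (hx : x ∈ VX i₀ h w) :
    ∃ (i : Fin 3) (dd : Fin 3 → Fin 4), (dd (i + 1) = 2 ∨ dd (i + 1) = 3) ∧
      (dd (i + 2) = 2 ∨ dd (i + 2) = 3) ∧ (∀ k, x (Sum.inl (k, dd k)) ≠ 0) ∧
      x (Sum.inr (i, dd (i + 1), dd (i + 2))) ≠ 0 := by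
  classical
  obtain ⟨a, b, ρ, h', w', hrel, hxe⟩ := cox_X hT hx
  have hP : IsPt bX (pt a b ρ h' w') := hxe ▸ hx.1
  subst hxe
  have huniq : ∀ k k', h' k = 0 → w' k = 0 → h' k' = 0 → w' k' = 0 → k = k' := by
    intro k k' h1 h2 h3 h4
    by_contra hkk
    obtain ⟨_, hab, e1⟩ := cha_zero hrel hP h1 h2
    obtain ⟨_, _, e2⟩ := cha_zero hrel hP h3 h4
    have h5 : (cc k - cc k') * b ^ 3 = 0 := by linear_combination e1 - e2
    have hb : b = 0 := by
      have := (mul_eq_zero.mp h5).resolve_left (cha_cc_ne hkk)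
      exact pow_eq_zero_iff (three_ne_zero) |>.mp this
    have ha : a = 0 := by
      rw [hb] at e1
      have : a ^ 3 = 0 := by linear_combination e1
      exact pow_eq_zero_iff (three_ne_zero) |>.mp this
    rcases hab with h | h
    · exact h ha
    · exact h hb
  obtain ⟨i, hρi, hi⟩ : ∃ i, ρ i ≠ 0 ∧ ∀ k, k ≠ i → h' k ≠ 0 ∨ w' k ≠ 0 := by
    by_cases hZ : ∃ k, h' k = 0 ∧ w' k = 0
    · obtain ⟨k, h1, h2⟩ := hZ
      refine ⟨k, (cha_zero hrel hP h1 h2).1, ?_⟩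
      intro k' hk'
      by_contra hc
      push Not at hc
      exact hk' (huniq k' k hc.1 hc.2 h1 h2)
    · push Not at hZ
      obtain ⟨s, hs, hne⟩ := hP none
      rcases s with ⟨k', e⟩ | ⟨k', e, e'⟩
      · simp [bX] at hs
      · refine ⟨k', ?_, ?_⟩
        · have h1 : ρ k' * xc a b ρ h' w' (k' + 1) e * xc a b ρ h' w' (k' + 2) e' ≠ 0 := hne
          exact left_ne_zero_of_mul (left_ne_zero_of_mul h1)
        · intro k _
          by_cases hk : h' k = 0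
          · exact Or.inr (hZ k hk)
          · exact Or.inl hk
  obtain ⟨s, hs, hne⟩ := hP (some i)
  obtain ⟨ei, hei⟩ : ∃ e, xc a b ρ h' w' i e ≠ 0 := by
    rcases s with ⟨k', e⟩ | ⟨k', e, e'⟩
    · have hk : k' = i := by simpa [bX] using hs
      subst hk
      exact ⟨e, hne⟩
    · simp [bX] at hs
  obtain ⟨f1, f2, f3, f4, f5, f6⟩ := cha_fin3 i
  set dd : Fin 3 → Fin 4 := fun k => if k = i then ei else if h' k ≠ 0 then 2 else 3 with hdd
  have hd : ∀ k, k ≠ i → dd k = 2 ∨ dd k = 3 := by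
    intro k hk
    simp only [hdd, if_neg hk]
    split_ifs
    · exact Or.inl rfl
    · exact Or.inr rfl
  have hx' : ∀ k, xc a b ρ h' w' k (dd k) ≠ 0 := by
    intro k
    by_cases hk : k = i
    · subst hk
      simpa [hdd] using hei
    · by_cases hk' : h' k = 0
      · have h1 : w' k ≠ 0 := (hi k hk).resolve_left (fun h => h hk')
        have h2 : dd k = 3 := by simp [hdd, hk, hk']
        rw [h2]
        simpa [xc] using h1
      · have h2 : dd k = 2 := by simp [hdd, hk, hk']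
        rw [h2]
        simpa [xc] using hk'
  refine ⟨i, dd, hd _ f1, hd _ f2, fun k => hx' k, ?_⟩
  change ρ i * xc a b ρ h' w' (i + 1) (dd (i + 1)) * xc a b ρ h' w' (i + 2) (dd (i + 2)) ≠ 0
  exact mul_ne_zero (mul_ne_zero hρi (hx' _)) (hx' _)

/-- no coordinate of the generic point vanishes -/
theorem yB_ne_zero {B : Type} [CommRing B] [IsDomain B] [Algebra ℂ B]
    {i₀ : Polynomial ℂ →ₐ[ℂ] B} {h w : Fin 3 → B} (hT : IsTower i₀ zX h w) (s : Sg) :
    fr (yB i₀ h w) s ≠ 0 := by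
  have hX : i₀ Polynomial.X ≠ 0 := by
    intro h0
    have : (Polynomial.X : Polynomial ℂ) = 0 := hT.inj (by rw [h0, map_zero])
    exact Polynomial.X_ne_zero this
  have key : ∀ (a c : Fin 3 → ℂ), (∀ k, c k ^ 3 = a k ^ 3 + cc k) →
      ∃ g : B →ₐ[ℂ] ℂ, (∀ k, g (h k) = a k) ∧ ∀ k, g (w k) = c k := by
    intro a c hac
    obtain ⟨g, _, h2, h3⟩ := hT.univ ℂ (Polynomial.aeval (0 : ℂ)) a c (by
      intro k
      refine ⟨?_, ?_⟩
      · intro b hb
        have hb' : b = Polynomial.X ^ 3 + Polynomial.C (cc k) := (Sum.inl.inj hb).symm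
        rw [hb', hac k]
        simp
      · intro c' hc'
        exact absurd hc' (by simp [zX]))
    exact ⟨g, h2, h3⟩
  have hh : ∀ k, h k ≠ 0 := by
    intro k h0
    have hr : ∀ k, ∃ c : ℂ, c ^ 3 = 1 + cc k := fun k =>
      IsAlgClosed.exists_pow_nat_eq _ (by norm_num)
    choose c hc using hr
    obtain ⟨g, h2, _⟩ := key (fun _ => 1) c (by intro k; rw [hc k]; ring)
    have := h2 k
    rw [h0, map_zero] at this
    exact zero_ne_one this
  have hw : ∀ k, w k ≠ 0 := by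
    intro k h0
    have hr : ∀ k, ∃ c : ℂ, c ^ 3 = 1 - cc k := fun k =>
      IsAlgClosed.exists_pow_nat_eq _ (by norm_num)
    choose c hc using hr
    obtain ⟨g, _, h2⟩ := key c (fun _ => 1) (by intro k; rw [hc k]; ring)
    have := h2 k
    rw [h0, map_zero] at this
    exact zero_ne_one this
  have hxc : ∀ k e, xc (i₀ Polynomial.X) 1 (fun _ => (1 : B)) h w k e ≠ 0 := by
    intro k e
    fin_cases e
    · simpa [xc] using hX
    · simp [xc]
    · simpa [xc] using hh k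
    · simpa [xc] using hw k
  have hy : yB i₀ h w s ≠ 0 := by
    rcases s with ⟨k, e⟩ | ⟨k, e, e'⟩
    · exact hxc k e
    · change (1 : B) * xc (i₀ Polynomial.X) 1 (fun _ => (1 : B)) h w (k + 1) e *
        xc (i₀ Polynomial.X) 1 (fun _ => (1 : B)) h w (k + 2) e' ≠ 0
      exact mul_ne_zero (mul_ne_zero one_ne_zero (hxc _ _)) (hxc _ _)
  change algebraMap B (FractionRing B) (yB i₀ h w s) ≠ 0
  intro h0
  apply hy
  apply IsFractionRing.injective B (FractionRing B)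
  rw [h0, map_zero]

/-- the coordinates of the last block of the generic point -/
lemma cha_inr {B : Type} [CommRing B] [IsDomain B] [Algebra ℂ B]
    (i₀ : Polynomial ℂ →ₐ[ℂ] B) (h w : Fin 3 → B) (k : Fin 3) (e e' : Fin 4) :
    fr (yB i₀ h w) (Sum.inr (k, e, e')) =
      fr (yB i₀ h w) (Sum.inl (k + 1, e)) * fr (yB i₀ h w) (Sum.inl (k + 2, e')) := by
  change algebraMap B (FractionRing B) (1 * xc (i₀ Polynomial.X) 1 (fun _ => (1 : B)) h w (k + 1) e *
      xc (i₀ Polynomial.X) 1 (fun _ => (1 : B)) h w (k + 2) e') = _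
  rw [one_mul, map_mul]
  rfl

theorem chart_mem {B : Type} [CommRing B] [IsDomain B] [Algebra ℂ B]
    {i₀ : Polynomial ℂ →ₐ[ℂ] B} {h w : Fin 3 → B} (hT : IsTower i₀ zX h w) {x : Sg → ℂ}
    (hx : x ∈ VX i₀ h w) {O : Subalgebra ℂ (FractionRing B)} {ev : O →ₐ[ℂ] ℂ}
    (hO : LR bX (fr (yB i₀ h w)) x O ev) {i : Fin 3} {dd : Fin 3 → Fin 4}
    (hd : ∀ k, x (Sum.inl (k, dd k)) ≠ 0) (hu : x (Sum.inr (i, dd (i + 1), dd (i + 2))) ≠ 0) :
    (∀ k e, fr (yB i₀ h w) (Sum.inl (k, e)) / fr (yB i₀ h w) (Sum.inl (k, dd k)) ∈ O) ∧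
    (fr (yB i₀ h w) (Sum.inl (i, dd i)) / fr (yB i₀ h w) (Sum.inl (i + 1, dd (i + 1))) ∈ O) ∧
    (fr (yB i₀ h w) (Sum.inl (i, dd i)) / fr (yB i₀ h w) (Sum.inl (i + 2, dd (i + 2))) ∈ O) := by
  obtain ⟨f1, f2, f3, f4, f5, f6⟩ := cha_fin3 i
  have hY := yB_ne_zero hT
  refine ⟨fun k e => (hO.ratio hx (s := Sum.inl (k, e))
    (s' := Sum.inl (k, dd k)) rfl (hd k)).choose, ?_, ?_⟩
  · have h1 := (hO.ratio hx (s := Sum.inr (i + 1, dd (i + 2), dd i))
      (s' := Sum.inr (i, dd (i + 1), dd (i + 2))) rfl hu).choose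
    rw [cha_inr, cha_inr, f3, f4] at h1
    convert h1 using 1
    have e1 := hY (Sum.inl (i + 1, dd (i + 1)))
    have e2 := hY (Sum.inl (i + 2, dd (i + 2)))
    field_simp
  · have h1 := (hO.ratio hx (s := Sum.inr (i + 2, dd i, dd (i + 1)))
      (s' := Sum.inr (i, dd (i + 1), dd (i + 2))) rfl hu).choose
    rw [cha_inr, cha_inr, f5, f6] at h1
    convert h1 using 1
    have e1 := hY (Sum.inl (i + 1, dd (i + 1)))
    have e2 := hY (Sum.inl (i + 2, dd (i + 2)))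
    field_simp

end Pool.Agent.H56.TC
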