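import Mathlib

/-!
MP_1478a0: definitions.

Varieties are closed irreducible subsets of products of complex projective spaces, described by
(multi)homogeneous coordinates `σ`, sorted into blocks by `bl : σ → β` (one projective space for
each block), through their generic points.
-/

set_option autoImplicit false

namespace Pool.Agent.H56.TC

open MvPolynomial

/-- `P` is homogeneous of degree `d b` in the variables of the block `b`, for every block `b` -/
def MHom {σ β : Type} (bl : σ → β) (d : β →₀ ℕ) (P : MvPolynomial σ ℂ) : Prop :=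
  ∀ m ∈ P.support, Finsupp.mapDomain bl m = d

/-- `x` are the coordinates of a point of the product of the projective spaces of the blocks -/
def IsPt {σ β K : Type} [Zero K] (bl : σ → β) (x : σ → K) : Prop :=
  ∀ b, ∃ s, bl s = b ∧ x s ≠ 0

/-- the irreducible closed subvariety (its set of complex points, given by coordinates) with
generic point `y`: the common zeros of the multihomogeneous polynomials vanishing at `y` -/
def Var {σ β K : Type} [Field K] [Algebra ℂ K] (bl : σ → β) (y : σ → K) : Set (σ → ℂ) :=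
  {x | IsPt bl x ∧ ∀ (d : β →₀ ℕ) (P : MvPolynomial σ ℂ), MHom bl d P → aeval y P = 0 →
    aeval x P = 0}

/-- `y` is a point over `K` and `K` is the function field of the variety with generic point `y` -/
def IsFF {σ β K : Type} [Field K] [Algebra ℂ K] (bl : σ → β) (y : σ → K) : Prop :=
  IsPt bl y ∧ ∀ f : K, ∃ (d : β →₀ ℕ) (P Q : MvPolynomial σ ℂ), MHom bl d P ∧ MHom bl d Q ∧
    aeval y Q ≠ 0 ∧ f * aeval y Q = aeval y P

/-- `X` is an irreducible closed subvariety of dimension `n` -/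
def IsVariety {σ β : Type} (bl : σ → β) (n : ℕ) (X : Set (σ → ℂ)) : Prop :=
  ∃ (K : Type) (_ : Field K) (_ : Algebra ℂ K) (y : σ → K),
    IsFF bl y ∧ Algebra.trdeg ℂ K = n ∧ X = Var bl y

/-- `E × E × E` for the Fermat curve `E : z ^ 3 = x ^ 3 + y ^ 3`, an elliptic curve -/
def fermatCube : Set (Fin 3 × Fin 3 → ℂ) :=
  {p | IsPt Prod.fst p ∧ ∀ k, p (k, 2) ^ 3 = p (k, 0) ^ 3 + p (k, 1) ^ 3}

/-- `Z` is an irreducible variety birational to `E × E × E`: their function fields are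
isomorphic -/
def BiratECube {σ β : Type} (bl : σ → β) (Z : Set (σ → ℂ)) : Prop :=
  ∃ (K : Type) (_ : Field K) (_ : Algebra ℂ K) (z : σ → K) (e : Fin 3 × Fin 3 → K),
    IsFF bl z ∧ IsFF Prod.fst e ∧ Z = Var bl z ∧ fermatCube = Var Prod.fst e

/-- the local ring of the variety with generic point `y` at the point `x` -/
def Loc {σ β K : Type} [Field K] [Algebra ℂ K] (bl : σ → β) (y : σ → K) (x : σ → ℂ) : Set K :=
  {f | ∃ (d : β →₀ ℕ) (P Q : MvPolynomial σ ℂ), MHom bl d P ∧ MHom bl d Q ∧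
    aeval x Q ≠ 0 ∧ f * aeval y Q = aeval y P}

/-- the maximal ideal of the local ring at `x` -/
def MaxId {σ β K : Type} [Field K] [Algebra ℂ K] (bl : σ → β) (y : σ → K) (x : σ → ℂ) : Set K :=
  {f | ∃ (d : β →₀ ℕ) (P Q : MvPolynomial σ ℂ), MHom bl d P ∧ MHom bl d Q ∧
    aeval x Q ≠ 0 ∧ aeval x P = 0 ∧ f * aeval y Q = aeval y P}

/-- the maximal ideal of the local ring at `x` is generated by `n` elements -/
def SmoothAt {σ β K : Type} [Field K] [Algebra ℂ K] (bl : σ → β) (y : σ → K) (n : ℕ)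
    (x : σ → ℂ) : Prop :=
  ∃ u : Fin n → K, (∀ j, u j ∈ MaxId bl y x) ∧ ∀ f ∈ MaxId bl y x,
    ∃ a : Fin n → K, (∀ j, a j ∈ Loc bl y x) ∧ f = ∑ j, a j * u j

/-- the sums of rational differential `p`-forms `a du₁ ∧ ⋯ ∧ du_p` with `a, u₁, …, u_p` in `L`;
if `L` is the local ring of a point `x`, these are the `p`-forms which are regular at `x` -/
noncomputable def formsOn {K : Type} [Field K] [Algebra ℂ K] (L : Set K)
    (p : ℕ) : AddSubgroup (ExteriorAlgebra K (KaehlerDifferential ℂ K)) :=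
  AddSubgroup.closure {ω | ∃ a ∈ L, ∃ u : Fin p → K, (∀ j, u j ∈ L) ∧
    ω = a • ExteriorAlgebra.ιMulti K p (fun j => KaehlerDifferential.D ℂ K (u j))}

/-- `X` is chain connected by a covering family of `d`-dimensional varieties with graph
`C ⊆ X × T` (`T` and `C` irreducible, `C → X` surjective, all fibres of `C → T` of pure
dimension `d`), whose general member is irreducible and birational to `E × E × E` -/
def TorChain {σ β : Type} (bl : σ → β) (X : Set (σ → ℂ)) : Prop :=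
  ∃ (τ γ : Type) (_ : Fintype τ) (_ : Fintype γ) (bT : τ → γ) (T : Set (τ → ℂ))
    (C : Set (σ ⊕ τ → ℂ)) (m n d : ℕ),
    IsVariety bT m T ∧ IsVariety (Sum.map bl bT) n C ∧
    (∀ x t, Sum.elim x t ∈ C → x ∈ X ∧ t ∈ T) ∧
    (∀ x ∈ X, ∃ t, Sum.elim x t ∈ C) ∧
    (∀ t ∈ T, ∃ (r : ℕ) (Z : Fin (r + 1) → Set (σ → ℂ)), (∀ i, IsVariety bl d (Z i)) ∧
      {x | Sum.elim x t ∈ C} = ⋃ i, Z i) ∧
    (∃ (e : γ →₀ ℕ) (G : MvPolynomial τ ℂ), MHom bT e G ∧ (∃ t ∈ T, aeval t G ≠ 0) ∧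
      ∀ t ∈ T, aeval t G ≠ 0 → BiratECube bl {x | Sum.elim x t ∈ C}) ∧
    (∀ x ∈ X, ∀ x' ∈ X, Relation.ReflTransGen
      (fun a b => ∃ t, Sum.elim a t ∈ C ∧ Sum.elim b t ∈ C) x x')

/-! The example. -/

/-- coordinates of `P³ × P³ × P³ × P⁴⁷` -/
abbrev Sg := (Fin 3 × Fin 4) ⊕ (Fin 3 × Fin 4 × Fin 4)

/-- the blocks -/
def bX : Sg → Option (Fin 3)
  | Sum.inl p => some p.1
  | Sum.inr _ => none

/-- the single block of `P¹` -/
def bT : Fin 2 → Unit := fun _ => ()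

/-- the constants `1, 2, 3` -/
def cc (k : Fin 3) : ℂ := ((k : ℕ) : ℂ) + 1

variable {R : Type} [CommRing R]

/-- the coordinates in the `k`-th `P³` -/
def xc (a b : R) (ρ h w : Fin 3 → R) (k : Fin 3) : Fin 4 → R :=
  ![a * ρ k, b * ρ k, h k, w k]

/-- the point with Cox coordinates `a, b, ρ, h, w` -/
def pt (a b : R) (ρ h w : Fin 3 → R) : Sg → R
  | Sum.inl (k, e) => xc a b ρ h w k e
  | Sum.inr (k, e, e') => ρ k * xc a b ρ h w (k + 1) e * xc a b ρ h w (k + 2) e'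

/-! Towers. -/

/-- `inl b` stands for the relation `w ^ 3 = h ^ 3 + b`, `inr c` for `w = c h` -/
def Rel {A R : Type} [CommRing A] [CommRing R] [Algebra ℂ A] [Algebra ℂ R] (f : A →ₐ[ℂ] R)
    (z : A ⊕ A) (h w : R) : Prop :=
  (∀ b, z = Sum.inl b → w ^ 3 = h ^ 3 + f b) ∧ (∀ c, z = Sum.inr c → w = f c * h)

/-- `B` is the universal `A`-algebra with elements `h k`, `w k` satisfying the relations `z k` -/
structure IsTower {A B : Type} [CommRing A] [CommRing B] [Algebra ℂ A] [Algebra ℂ B]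
    (i : A →ₐ[ℂ] B) (z : Fin 3 → A ⊕ A) (h w : Fin 3 → B) : Prop where
  inj : Function.Injective i
  rel : ∀ k, Rel i (z k) (h k) (w k)
  gen : ∀ S : Subalgebra ℂ B, (∀ a, i a ∈ S) → (∀ k, h k ∈ S) → (∀ k, w k ∈ S) → S = ⊤
  univ : ∀ (R : Type) [CommRing R] [Algebra ℂ R] (f : A →ₐ[ℂ] R) (h' w' : Fin 3 → R),
    (∀ k, Rel f (z k) (h' k) (w' k)) →
    ∃ g : B →ₐ[ℂ] R, (∀ a, g (i a) = f a) ∧ (∀ k, g (h k) = h' k) ∧ ∀ k, g (w k) = w' k

/-- the relations of the tower for `X` over `ℂ[λ]` -/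
noncomputable def zX (k : Fin 3) : Polynomial ℂ ⊕ Polynomial ℂ :=
  Sum.inl (Polynomial.X ^ 3 + Polynomial.C (cc k))

section

variable {B : Type} [CommRing B] [Algebra ℂ B]

/-- the generic point of `X`, coordinates in `B` -/
noncomputable def yB (i : Polynomial ℂ →ₐ[ℂ] B) (h w : Fin 3 → B) : Sg → B :=
  pt (i Polynomial.X) 1 (fun _ => 1) h w

/-- the generic point of the graph `C`, coordinates in `B` -/
noncomputable def yC (i : Polynomial ℂ →ₐ[ℂ] B) (h w : Fin 3 → B) : Sg ⊕ Fin 2 → B :=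
  Sum.elim (yB i h w) ![i Polynomial.X, 1]

/-- the generic point of a component of the member over `t`, coordinates in `B` -/
noncomputable def yM (t : Fin 2 → ℂ) (h w : Fin 3 → B) : Sg → B :=
  pt (algebraMap ℂ B (t 0)) (algebraMap ℂ B (t 1)) (fun _ => 1) h w

variable [IsDomain B]

/-- coordinates in the fraction field -/
noncomputable def fr {σ : Type} (y : σ → B) : σ → FractionRing B :=
  fun s => algebraMap B (FractionRing B) (y s)

/-- the set `X` -/
noncomputable def VX (i : Polynomial ℂ →ₐ[ℂ] B) (h w : Fin 3 → B) : Set (Sg → ℂ) :=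
  Var bX (fr (yB i h w))

/-- the set `C` -/
noncomputable def VC (i : Polynomial ℂ →ₐ[ℂ] B) (h w : Fin 3 → B) : Set (Sg ⊕ Fin 2 → ℂ) :=
  Var (Sum.map bX bT) (fr (yC i h w))

end

/-- the value of the discriminant at `t` -/
noncomputable def gg (t : Fin 2 → ℂ) (k : Fin 3) : ℂ := t 0 ^ 3 + cc k * t 1 ^ 3

/-- the admissible relations over `t` -/
def adm (t : Fin 2 → ℂ) (z : Fin 3 → ℂ ⊕ ℂ) : Prop :=
  ∀ k, (∀ b, z k = Sum.inl b → b = gg t k ∧ b ≠ 0) ∧ (∀ c, z k = Sum.inr c → c ^ 3 = 1 ∧ gg t k = 0)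

/-- the component of the member over `t` given by the admissible relations `z` -/
def piece (t : Fin 2 → ℂ) (z : Fin 3 → ℂ ⊕ ℂ) : Set (Sg → ℂ) :=
  {x | IsPt bX x ∧ ∃ (θ : ℂ) (ρ h w : Fin 3 → ℂ),
    (∀ k, (∀ b, z k = Sum.inl b → w k ^ 3 = h k ^ 3 + (θ * ρ k) ^ 3 * b) ∧
      (∀ c, z k = Sum.inr c → w k = c * h k)) ∧ x = pt (t 0 * θ) (t 1 * θ) ρ h w}

/-- `O` is the local ring at `x`, with evaluation `ev` -/
structure LR {σ β K : Type} [Field K] [Algebra ℂ K] (bl : σ → β) (y : σ → K) (x : σ → ℂ)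
    (O : Subalgebra ℂ K) (ev : O →ₐ[ℂ] ℂ) : Prop where
  mem : ∀ f, f ∈ O ↔ f ∈ Loc bl y x
  zero : ∀ f : O, ev f = 0 ↔ (f : K) ∈ MaxId bl y x
  inv : ∀ f : O, ev f ≠ 0 → (f : K)⁻¹ ∈ O
  val : ∀ (d : β →₀ ℕ) (P Q : MvPolynomial σ ℂ), MHom bl d P → MHom bl d Q → aeval x Q ≠ 0 →
    ∀ f : O, (f : K) * aeval y Q = aeval y P → ev f = aeval x P / aeval x Q

/-- the differential form `dλ ∧ dη₀ ∧ dη₁ ∧ dη₂ / (ω₀ ω₁ ω₂)²` -/
noncomputable def omega0 {K : Type} [Field K] [Algebra ℂ K] (lam : K) (eta om : Fin 3 → K) :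
    ExteriorAlgebra K (KaehlerDifferential ℂ K) :=
  ((om 0 * om 1 * om 2) ^ 2)⁻¹ • ExteriorAlgebra.ιMulti K 4
    ![KaehlerDifferential.D ℂ K lam, KaehlerDifferential.D ℂ K (eta 0),
      KaehlerDifferential.D ℂ K (eta 1), KaehlerDifferential.D ℂ K (eta 2)]

end Pool.Agent.H56.TC
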