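import Pool.Agent.H56.TC.Defs
import Pool.Agent.H56.TC.TW3
import Pool.Agent.H56.TC.SCL

/-!
Part SPG. General specialisation lemma.
-/

set_option autoImplicit false

namespace Pool.Agent.H56.TC

open MvPolynomial

theorem SPG_prod {R : Type} [CommRing R] (ρ : Fin 3 → R) (k : Fin 3) :
    ρ k * ρ (k + 1) * ρ (k + 2) = ρ 0 * ρ 1 * ρ 2 := by
  fin_cases k
  · rfl
  · show ρ 1 * ρ 2 * ρ 0 = _
    ring
  · show ρ 2 * ρ 0 * ρ 1 = _
    ring

theorem spec_general {A B : Type} [CommRing A] [CommRing B] [Algebra ℂ A] [Algebra ℂ B]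
    {i : A →ₐ[ℂ] B} {z : Fin 3 → A ⊕ A} {h w : Fin 3 → B} (hT : IsTower i z h w) (S V : A)
    {A' : Type} [CommRing A'] [IsDomain A'] [Algebra ℂ A'] (s u θ κ : A') (ρ : Fin 3 → A')
    (hθ : θ ≠ 0) (hκ : κ ≠ 0) (hρ : ∀ k, ρ k ≠ 0) (φ : A →ₐ[ℂ] FractionRing A')
    (hs : algebraMap A' (FractionRing A') s = algebraMap A' (FractionRing A') κ * φ S)
    (hu : algebraMap A' (FractionRing A') u = algebraMap A' (FractionRing A') κ * φ V)
    (z' : Fin 3 → A' ⊕ A') (hz0 : ∀ k b, z' k = Sum.inl b → b ≠ 0)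
    (hzz : ∀ k, (∀ b, z k = Sum.inl b → ∃ b', z' k = Sum.inl b' ∧
        algebraMap A' (FractionRing A') b' =
          (algebraMap A' (FractionRing A') (κ * θ * ρ k)) ^ 3 * φ b) ∧
      (∀ c, z k = Sum.inr c → ∃ c', z' k = Sum.inr c' ∧
        algebraMap A' (FractionRing A') c' = φ c))
    {R : Type} [CommRing R] [Algebra ℂ R] (f : A' →ₐ[ℂ] R) (h' w' : Fin 3 → R)
    (hr : ∀ k, Rel f (z' k) (h' k) (w' k)) {d : (Option (Fin 3) ⊕ Unit) →₀ ℕ}
    {P : MvPolynomial (Sg ⊕ Fin 2) ℂ} (hP : MHom (Sum.map bX bT) d P)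
    (h0 : aeval (Sum.elim (pt (i S) (i V) (fun _ => 1) h w) ![i S, i V]) P = 0) :
    aeval (Sum.elim (pt (f (s * θ)) (f (u * θ)) (fun k => f (ρ k)) h' w') ![f s, f u]) P = 0 := by
  obtain ⟨R', _, _, _, i', h'', w'', hT'⟩ := exists_tower A' z' hz0
  let j : R' →ₐ[ℂ] FractionRing R' := IsScalarTower.toAlgHom ℂ R' (FractionRing R')
  have hj : Function.Injective j := IsFractionRing.injective R' (FractionRing R')
  have hji : Function.Injective (j.comp i') := hj.comp hT'.inj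
  let e : FractionRing A' →ₐ[ℂ] FractionRing R' := IsFractionRing.liftAlgHom (g := j.comp i') hji
  have he : ∀ a, e (algebraMap A' (FractionRing A') a) = j (i' a) := fun a =>
    IsFractionRing.lift_algebraMap (g := (j.comp i' : A' →+* FractionRing R')) hji a
  have hu0 : ∀ k, j (i' (κ * θ * ρ k)) ≠ 0 := by
    intro k
    rw [Ne, show j (i' (κ * θ * ρ k)) = (j.comp i') (κ * θ * ρ k) from rfl,
      map_eq_zero_iff _ hji]
    exact mul_ne_zero (mul_ne_zero hκ hθ) (hρ k)
  obtain ⟨g, hg1, hg2, hg3⟩ := hT.univ (FractionRing R') (e.comp φ)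
    (fun k => j (h'' k) / j (i' (κ * θ * ρ k))) (fun k => j (w'' k) / j (i' (κ * θ * ρ k))) (by
      intro k
      refine ⟨fun b hb => ?_, fun c hc => ?_⟩
      · obtain ⟨b', hb', hbb⟩ := (hzz k).1 b hb
        have h1 := (hT'.rel k).1 b' hb'
        have h2 := congrArg e hbb
        rw [map_mul, map_pow, he, he] at h2
        have h3 := congrArg j h1
        rw [map_add, map_pow, map_pow, h2] at h3
        rw [div_pow, div_pow, h3, show (e.comp φ) b = e (φ b) from rfl]
        have := hu0 k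
        field_simp
      · obtain ⟨c', hc', hcc⟩ := (hzz k).2 c hc
        have h1 := (hT'.rel k).2 c' hc'
        have h2 := congrArg e hcc
        rw [he] at h2
        rw [h1, map_mul, h2, show (e.comp φ) c = e (φ c) from rfl]
        ring)
  obtain ⟨ψ, hψ1, hψ2, hψ3⟩ := hT'.univ R f h' w' hr
  let x' : Sg ⊕ Fin 2 → R' := Sum.elim (pt (i' (s * θ)) (i' (u * θ)) (fun k => i' (ρ k)) h'' w'')
    ![i' s, i' u]
  let c : Option (Fin 3) ⊕ Unit → FractionRing R' := Sum.elim
    (fun o => o.elim (j (i' (κ ^ 2 * θ ^ 2 * (ρ 0 * ρ 1 * ρ 2)))) (fun k => j (i' (κ * θ * ρ k))))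
    (fun _ => j (i' κ))
  have hs' : j (i' s) = j (i' κ) * e (φ S) := by
    have := congrArg e hs
    rwa [map_mul, he, he] at this
  have hu' : j (i' u) = j (i' κ) * e (φ V) := by
    have := congrArg e hu
    rwa [map_mul, he, he] at this
  have hgS : g (i S) = e (φ S) := hg1 S
  have hgV : g (i V) = e (φ V) := hg1 V
  have hx1 : ∀ k ee, j (xc (i' (s * θ)) (i' (u * θ)) (fun k => i' (ρ k)) h'' w'' k ee) =
      j (i' (κ * θ * ρ k)) * g (xc (i S) (i V) (fun _ => 1) h w k ee) := by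
    intro k ee
    rw [SCL_xc_map j, SCL_xc_map g]
    refine SCL_xc_scale _ _ _ _ _ _ _ _ _ _ (fun k => j (i' (κ * θ * ρ k))) ?_ ?_ ?_ ?_ k ee
    · intro k
      simp only [map_mul, map_one, mul_one]
      rw [hs', hgS]
      ring
    · intro k
      simp only [map_mul, map_one, mul_one]
      rw [hu', hgV]
      ring
    · intro k
      show j (h'' k) = j (i' (κ * θ * ρ k)) * g (h k)
      rw [hg2]
      have := hu0 k
      field_simp
    · intro k
      show j (w'' k) = j (i' (κ * θ * ρ k)) * g (w k)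
      rw [hg3]
      have := hu0 k
      field_simp
  have hx : ∀ ss, j (x' ss) = c ((Sum.map bX bT) ss) *
      g (Sum.elim (pt (i S) (i V) (fun _ => 1) h w) ![i S, i V] ss) := by
    intro ss
    rcases ss with (⟨k, ee⟩ | ⟨k, ee, ee'⟩) | m
    · exact hx1 k ee
    · show j (i' (ρ k) * xc (i' (s * θ)) (i' (u * θ)) (fun k => i' (ρ k)) h'' w'' (k + 1) ee *
        xc (i' (s * θ)) (i' (u * θ)) (fun k => i' (ρ k)) h'' w'' (k + 2) ee') =
        j (i' (κ ^ 2 * θ ^ 2 * (ρ 0 * ρ 1 * ρ 2))) * g (1 * xc (i S) (i V) (fun _ => 1) h w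
          (k + 1) ee * xc (i S) (i V) (fun _ => 1) h w (k + 2) ee')
      rw [map_mul, map_mul, hx1, hx1, map_mul g, map_mul g, map_one g, ← SPG_prod ρ k]
      simp only [map_mul, map_pow]
      ring
    · fin_cases m
      · show j (i' s) = j (i' κ) * g (i S)
        rw [hs', hgS]
      · show j (i' u) = j (i' κ) * g (i V)
        rw [hu', hgV]
  have hfin := spec_of_scale g j hj ψ _ x' c hx hP h0
  have hfun : (fun ss => ψ (x' ss)) =
      Sum.elim (pt (f (s * θ)) (f (u * θ)) (fun k => f (ρ k)) h' w') ![f s, f u] := by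
    funext ss
    rcases ss with ss | m
    · show ψ (pt (i' (s * θ)) (i' (u * θ)) (fun k => i' (ρ k)) h'' w'' ss) =
        pt (f (s * θ)) (f (u * θ)) (fun k => f (ρ k)) h' w' ss
      rw [SCL_pt_map]
      simp only [hψ1, hψ2, hψ3]
    · fin_cases m
      · exact hψ1 s
      · exact hψ1 u
  rwa [hfun] at hfin

end Pool.Agent.H56.TC
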