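import Pool.Agent.H56.TC.Defs
import Pool.Agent.H56.TC.SPG

/-!
Part SPC. The two instances of `spec_general`.
-/

set_option autoImplicit false

namespace Pool.Agent.H56.TC

open MvPolynomial

theorem SPC_C {B : Type} [CommRing B] [Algebra ℂ B] {i : Polynomial ℂ →ₐ[ℂ] B}
    {h w : Fin 3 → B} (hT : IsTower i zX h w) {A' : Type} [CommRing A'] [IsDomain A']
    [Algebra ℂ A'] (s' u' θ' : A') (ρ' : Fin 3 → A') (hu0 : u' ≠ 0) (hθ0 : θ' ≠ 0)
    (hρ0 : ∀ k, ρ' k ≠ 0)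
    (hg0 : ∀ k, (θ' * ρ' k) ^ 3 * (s' ^ 3 + algebraMap ℂ A' (cc k) * u' ^ 3) ≠ 0)
    {R : Type} [CommRing R] [Algebra ℂ R] (f : A' →ₐ[ℂ] R)
    (s u θ : R) (ρ h' w' : Fin 3 → R) (fs : f s' = s) (fu : f u' = u) (fθ : f θ' = θ)
    (fρ : ∀ k, f (ρ' k) = ρ k)
    (hr : ∀ k, w' k ^ 3 = h' k ^ 3 + (θ * ρ k) ^ 3 * (s ^ 3 + algebraMap ℂ R (cc k) * u ^ 3))
    {d : (Option (Fin 3) ⊕ Unit) →₀ ℕ} {P : MvPolynomial (Sg ⊕ Fin 2) ℂ}
    (hP : MHom (Sum.map bX bT) d P) (h0 : aeval (yC i h w) P = 0) :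
    aeval (Sum.elim (pt (s * θ) (u * θ) ρ h' w') ![s, u]) P = 0 := by
  let φ : Polynomial ℂ →ₐ[ℂ] FractionRing A' :=
    Polynomial.aeval (algebraMap A' (FractionRing A') s' / algebraMap A' (FractionRing A') u')
  have hφX : φ Polynomial.X =
      algebraMap A' (FractionRing A') s' / algebraMap A' (FractionRing A') u' :=
    Polynomial.aeval_X _
  have hu' : algebraMap A' (FractionRing A') u' ≠ 0 := by
    rw [Ne, map_eq_zero_iff _ (IsFractionRing.injective A' (FractionRing A'))]; exact hu0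
  have key := spec_general hT Polynomial.X 1 s' u' θ' u' ρ' hθ0 hu0 hρ0 φ
    (by
      rw [hφX]
      field_simp)
    (by
      rw [map_one, mul_one])
    (fun k => Sum.inl ((θ' * ρ' k) ^ 3 * (s' ^ 3 + algebraMap ℂ A' (cc k) * u' ^ 3)))
    (by
      intro k b hb
      rw [← Sum.inl.inj hb]
      exact hg0 k)
    (by
      intro k
      refine ⟨fun b hb => ⟨_, rfl, ?_⟩, fun c hc => absurd hc (by simp [zX])⟩
      have h1 : b = Polynomial.X ^ 3 + Polynomial.C (cc k) := (Sum.inl.inj hb).symm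
      have h2 : φ b = (algebraMap A' (FractionRing A') s' / algebraMap A' (FractionRing A') u') ^ 3
          + algebraMap A' (FractionRing A') (algebraMap ℂ A' (cc k)) := by
        rw [h1, map_add, map_pow, hφX]
        congr 1
        exact Polynomial.aeval_C _ _
      rw [h2]
      simp only [map_mul, map_pow, map_add]
      field_simp) f h' w'
    (by
      intro k
      refine ⟨fun b hb => ?_, fun c hc => absurd hc (by simp)⟩
      rw [← Sum.inl.inj hb, hr k]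
      simp only [map_mul, map_pow, map_add, fs, fu, fθ, fρ, AlgHom.commutes]) hP
    (by
      rw [map_one]
      exact h0)
  simp only [map_mul, fs, fu, fθ, fρ] at key
  exact key

theorem specC {B : Type} [CommRing B] [Algebra ℂ B] {i : Polynomial ℂ →ₐ[ℂ] B}
    {h w : Fin 3 → B} (hT : IsTower i zX h w) {R : Type} [CommRing R] [Algebra ℂ R]
    (s u θ : R) (ρ h' w' : Fin 3 → R)
    (hr : ∀ k, w' k ^ 3 = h' k ^ 3 + (θ * ρ k) ^ 3 * (s ^ 3 + algebraMap ℂ R (cc k) * u ^ 3))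
    {d : (Option (Fin 3) ⊕ Unit) →₀ ℕ} {P : MvPolynomial (Sg ⊕ Fin 2) ℂ}
    (hP : MHom (Sum.map bX bT) d P) (h0 : aeval (yC i h w) P = 0) :
    aeval (Sum.elim (pt (s * θ) (u * θ) ρ h' w') ![s, u]) P = 0 := by
  refine SPC_C hT (A' := MvPolynomial (Fin 3 ⊕ Fin 3) ℂ) (X (Sum.inl 0)) (X (Sum.inl 1))
    (X (Sum.inl 2)) (fun k => X (Sum.inr k)) (X_ne_zero _) (X_ne_zero _) (fun k => X_ne_zero _)
    ?_ (aeval (Sum.elim ![s, u, θ] ρ)) s u θ ρ h' w' (aeval_X _ _) (aeval_X _ _) (aeval_X _ _)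
    (fun k => aeval_X _ _) hr hP h0
  intro k hb
  have h2 := congrArg (aeval (Sum.elim ![(1 : ℂ), 0, 1] (fun _ => (1 : ℂ)))) hb
  simp at h2

theorem SPC_F (t : Fin 2 → ℂ) {z : Fin 3 → ℂ ⊕ ℂ} (hz0 : ∀ k b, z k = Sum.inl b → b ≠ 0)
    {B : Type} [CommRing B] [Algebra ℂ B] {i : ℂ →ₐ[ℂ] B} {h w : Fin 3 → B}
    (hT : IsTower i z h w) {A' : Type} [CommRing A'] [IsDomain A'] [Algebra ℂ A']
    (θ' : A') (ρ' : Fin 3 → A') (hθ0 : θ' ≠ 0) (hρ0 : ∀ k, ρ' k ≠ 0)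
    {R : Type} [CommRing R] [Algebra ℂ R] (f : A' →ₐ[ℂ] R) (θ : R) (ρ h' w' : Fin 3 → R)
    (fθ : f θ' = θ) (fρ : ∀ k, f (ρ' k) = ρ k)
    (hr : ∀ k, (∀ b, z k = Sum.inl b →
        w' k ^ 3 = h' k ^ 3 + (θ * ρ k) ^ 3 * algebraMap ℂ R b) ∧
      (∀ c, z k = Sum.inr c → w' k = algebraMap ℂ R c * h' k))
    {d : Option (Fin 3) →₀ ℕ} {P : MvPolynomial Sg ℂ} (hP : MHom bX d P)
    (h0 : aeval (yM t h w) P = 0) :
    aeval (pt (algebraMap ℂ R (t 0) * θ) (algebraMap ℂ R (t 1) * θ) ρ h' w') P = 0 := by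
  have hφ : ∀ c, (Algebra.ofId ℂ (FractionRing A')) c =
    algebraMap A' (FractionRing A') (algebraMap ℂ A' c) := fun c => rfl
  have hi : ∀ c, i c = algebraMap ℂ B c := fun c => i.commutes c
  have hz'1 : ∀ k b, z k = Sum.inl b → Sum.map (fun b => (θ' * ρ' k) ^ 3 * algebraMap ℂ A' b)
      (fun c => algebraMap ℂ A' c) (z k) = Sum.inl ((θ' * ρ' k) ^ 3 * algebraMap ℂ A' b) := by
    intro k b hb
    rw [hb, Sum.map_inl]
  have hz'2 : ∀ k c, z k = Sum.inr c → Sum.map (fun b => (θ' * ρ' k) ^ 3 * algebraMap ℂ A' b)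
      (fun c => algebraMap ℂ A' c) (z k) = Sum.inr (algebraMap ℂ A' c) := by
    intro k b hb
    rw [hb, Sum.map_inr]
  have key := spec_general hT (t 0) (t 1) (algebraMap ℂ A' (t 0)) (algebraMap ℂ A' (t 1)) θ' 1 ρ'
    hθ0 one_ne_zero hρ0 (Algebra.ofId ℂ (FractionRing A'))
    (by
      rw [map_one, one_mul, hφ])
    (by
      rw [map_one, one_mul, hφ])
    (fun k => Sum.map (fun b => (θ' * ρ' k) ^ 3 * algebraMap ℂ A' b)
      (fun c => algebraMap ℂ A' c) (z k))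
    (by
      intro k b hb
      rcases hk : z k with b' | c
      · have hb2 := (hz'1 k b' hk).symm.trans hb
        rw [← Sum.inl.inj hb2]
        refine mul_ne_zero (pow_ne_zero _ (mul_ne_zero hθ0 (hρ0 k))) ?_
        rw [Ne, map_eq_zero_iff _ (FaithfulSMul.algebraMap_injective ℂ A')]
        exact hz0 k b' hk
      · have hb2 := (hz'2 k c hk).symm.trans hb
        exact absurd hb2 (by simp))
    (by
      intro k
      refine ⟨fun b hb => ⟨(θ' * ρ' k) ^ 3 * algebraMap ℂ A' b, hz'1 k b hb, ?_⟩,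
        fun c hc => ⟨algebraMap ℂ A' c, hz'2 k c hc, ?_⟩⟩
      · rw [hφ, one_mul, ← map_pow, ← map_mul]
      · rfl) f h' w'
    (by
      intro k
      refine ⟨fun b hb => ?_, fun c hc => ?_⟩
      · rcases hk : z k with b' | c
        · have hb2 := (hz'1 k b' hk).symm.trans hb
          rw [← Sum.inl.inj hb2, (hr k).1 b' hk]
          simp only [map_mul, map_pow, fθ, fρ, AlgHom.commutes]
        · have hb2 := (hz'2 k c hk).symm.trans hb
          exact absurd hb2 (by simp)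
      · rcases hk : z k with b' | c'
        · have hb2 := (hz'1 k b' hk).symm.trans hc
          exact absurd hb2 (by simp)
        · have hb2 := (hz'2 k c' hk).symm.trans hc
          rw [← Sum.inr.inj hb2, (hr k).2 c' hk, AlgHom.commutes])
    (hP.rename_inl (bl' := bT))
    (by
      rw [aeval_rename, hi, hi]
      exact h0)
  simp only [map_mul, fθ, fρ, AlgHom.commutes, aeval_rename] at key
  exact key

theorem specF (t : Fin 2 → ℂ) {z : Fin 3 → ℂ ⊕ ℂ} (hz0 : ∀ k b, z k = Sum.inl b → b ≠ 0)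
    {B : Type} [CommRing B] [Algebra ℂ B] {i : ℂ →ₐ[ℂ] B} {h w : Fin 3 → B}
    (hT : IsTower i z h w) {R : Type} [CommRing R] [Algebra ℂ R] (θ : R) (ρ h' w' : Fin 3 → R)
    (hr : ∀ k, (∀ b, z k = Sum.inl b →
        w' k ^ 3 = h' k ^ 3 + (θ * ρ k) ^ 3 * algebraMap ℂ R b) ∧
      (∀ c, z k = Sum.inr c → w' k = algebraMap ℂ R c * h' k))
    {d : Option (Fin 3) →₀ ℕ} {P : MvPolynomial Sg ℂ} (hP : MHom bX d P)
    (h0 : aeval (yM t h w) P = 0) :
    aeval (pt (algebraMap ℂ R (t 0) * θ) (algebraMap ℂ R (t 1) * θ) ρ h' w') P = 0 :=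
  SPC_F t hz0 hT (A' := MvPolynomial (Unit ⊕ Fin 3) ℂ) (X (Sum.inl ()))
    (fun k => X (Sum.inr k)) (X_ne_zero _) (fun k => X_ne_zero _)
    (aeval (Sum.elim (fun _ => θ) ρ)) θ ρ h' w' (aeval_X _ _) (fun k => aeval_X _ _) hr hP h0

end Pool.Agent.H56.TC
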