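import Pool.Agent.H56.TC.Defs
import Pool.Agent.H56.TC.SPC
import Pool.Agent.H56.TC.REL

/-!
Part MEM. Points of `X` and `C`. `→`: part REL. `←`: `specC` with `R = ℂ`; for `X` use `s = a, u = b, θ = 1`;
a multihomogeneous polynomial in the first variables is renamed by `MHom.rename_inl`.
-/

set_option autoImplicit false

namespace Pool.Agent.H56.TC

open MvPolynomial

lemma MEM_fr {B : Type} [CommRing B] [IsDomain B] [Algebra ℂ B] {σ : Type} {y : σ → B}
    {P : MvPolynomial σ ℂ} (h0 : aeval (fr y) P = 0) : aeval y P = 0 := by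
  have h1 : aeval (fr y) P = algebraMap B (FractionRing B) (aeval y P) :=
    SCL_aeval_hom (IsScalarTower.toAlgHom ℂ B (FractionRing B)) y P
  rw [h1] at h0
  exact (IsFractionRing.injective B (FractionRing B)) (by rw [h0, map_zero])

theorem mem_C_iff {B : Type} [CommRing B] [IsDomain B] [Algebra ℂ B]
    {i : Polynomial ℂ →ₐ[ℂ] B} {h w : Fin 3 → B} (hT : IsTower i zX h w) (x : Sg → ℂ)
    (t : Fin 2 → ℂ) :
    Sum.elim x t ∈ VC i h w ↔ IsPt bX x ∧ t ≠ 0 ∧ ∃ (θ : ℂ) (ρ h' w' : Fin 3 → ℂ),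
      (∀ k, w' k ^ 3 = h' k ^ 3 + (θ * ρ k) ^ 3 * gg t k) ∧
        x = pt (t 0 * θ) (t 1 * θ) ρ h' w' := by
  constructor
  · intro hx
    obtain ⟨hX, ht, h1⟩ := cox_C hT hx
    exact ⟨hX.1, ht, h1⟩
  · rintro ⟨hx, ht, θ, ρ, h', w', hr, rfl⟩
    refine ⟨?_, ?_⟩
    · intro b
      rcases b with b | b
      · obtain ⟨s, hs, hs'⟩ := hx b
        exact ⟨Sum.inl s, by rw [Sum.map_inl, hs], hs'⟩
      · obtain ⟨j, hj⟩ : ∃ j, t j ≠ 0 := by
          by_contra hcon
          push Not at hcon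
          exact ht (funext hcon)
        exact ⟨Sum.inr j, rfl, hj⟩
    · intro d P hP h0
      have h1 := specC hT (R := ℂ) (t 0) (t 1) θ ρ h' w' (by
        intro k
        rw [hr k]
        unfold gg
        simp only [Algebra.algebraMap_self, RingHom.id_apply]) hP (MEM_fr h0)
      have ht2 : ![t 0, t 1] = t := by
        funext j
        fin_cases j <;> rfl
      rw [ht2] at h1
      exact h1

theorem mem_X_iff {B : Type} [CommRing B] [IsDomain B] [Algebra ℂ B]
    {i : Polynomial ℂ →ₐ[ℂ] B} {h w : Fin 3 → B} (hT : IsTower i zX h w) (x : Sg → ℂ) :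
    x ∈ VX i h w ↔ IsPt bX x ∧ ∃ (a b : ℂ) (ρ h' w' : Fin 3 → ℂ),
      (∀ k, w' k ^ 3 = h' k ^ 3 + ρ k ^ 3 * (a ^ 3 + cc k * b ^ 3)) ∧ x = pt a b ρ h' w' := by
  constructor
  · intro hx
    exact ⟨hx.1, cox_X hT hx⟩
  · rintro ⟨hx, a, b, ρ, h', w', hr, rfl⟩
    refine ⟨hx, ?_⟩
    intro d P hP h0
    have h1 := specC hT (R := ℂ) a b 1 ρ h' w' (by
      intro k
      rw [hr k]
      simp only [Algebra.algebraMap_self, RingHom.id_apply, one_mul]) (hP.rename_inl (bl' := bT)) (by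
      rw [aeval_rename]
      exact MEM_fr h0)
    rw [aeval_rename, mul_one, mul_one] at h1
    exact h1

end Pool.Agent.H56.TC
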