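import Pool.Agent.H56.TC.Defs
import Pool.Agent.H56.TC.MEM

/-!
Part FIB. The members. By `mem_C_iff` the member over `t` consists of the points
`pt (t 0 θ) (t 1 θ) ρ h w` with cubic relations. If all `gg t k ≠ 0` this is `piece t (fun k => inl (gg t k))`. At most one
`gg t k` vanishes (`t ≠ 0`, the `cc k` are distinct); if `gg t k₀ = 0` then `w k₀ ^ 3 = h k₀ ^ 3`, so `w k₀ = c h k₀` with
`c ^ 3 = 1`: union of the three pieces with `inr c` at `k₀` (`c` = powers of a primitive cube root of unity,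
`Complex.isPrimitiveRoot_exp 3` or the roots of `X ^ 3 - 1`).
-/

set_option autoImplicit false

namespace Pool.Agent.H56.TC

open MvPolynomial

theorem FIB_cc_inj {k l : Fin 3} (h : cc k = cc l) : k = l := by
  unfold cc at h
  have h1 : ((k : ℕ) : ℂ) = ((l : ℕ) : ℂ) := by linear_combination h
  exact Fin.ext (by exact_mod_cast h1)

theorem FIB_gg_ne {t : Fin 2 → ℂ} (ht : t ≠ 0) {k l : Fin 3} (hk : gg t k = 0) (hkl : l ≠ k) :
    gg t l ≠ 0 := by
  intro hl
  apply ht
  unfold gg at hk hl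
  have h1 : (cc l - cc k) * t 1 ^ 3 = 0 := by linear_combination hl - hk
  have hc : cc l - cc k ≠ 0 := fun h => hkl (FIB_cc_inj (sub_eq_zero.1 h))
  have h2 : t 1 = 0 := by
    rcases mul_eq_zero.1 h1 with h | h
    · exact absurd h hc
    · exact pow_eq_zero_iff (by norm_num) |>.1 h
  have h3 : t 0 = 0 := by
    rw [h2] at hk
    have : t 0 ^ 3 = 0 := by linear_combination hk
    exact pow_eq_zero_iff (by norm_num) |>.1 this
  funext j
  fin_cases j
  · exact h3
  · exact h2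

theorem FIB_cube {ζ : ℂ} (hζ : IsPrimitiveRoot ζ 3) {w h : ℂ} (e : w ^ 3 = h ^ 3) :
    ∃ j : Fin 3, w = ζ ^ (j : ℕ) * h := by
  by_cases hh : h = 0
  · refine ⟨0, ?_⟩
    rw [hh] at e
    have : w = 0 := pow_eq_zero_iff (n := 3) (by norm_num) |>.1 (by rw [e]; norm_num)
    rw [this, hh]
    simp
  · have h1 : (w / h) ^ 3 = 1 := by
      rw [div_pow, e, div_self (pow_ne_zero 3 hh)]
    obtain ⟨i, hi, hi2⟩ := hζ.eq_pow_of_pow_eq_one h1
    refine ⟨⟨i, hi⟩, ?_⟩
    rw [hi2]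
    field_simp

theorem fibre_good {B : Type} [CommRing B] [IsDomain B] [Algebra ℂ B]
    {i : Polynomial ℂ →ₐ[ℂ] B} {h w : Fin 3 → B} (hT : IsTower i zX h w) {t : Fin 2 → ℂ}
    (ht : t ≠ 0) (hg : ∀ k, gg t k ≠ 0) :
    {x | Sum.elim x t ∈ VC i h w} = piece t (fun k => Sum.inl (gg t k)) := by
  ext x
  change Sum.elim x t ∈ VC i h w ↔ x ∈ piece t (fun k => Sum.inl (gg t k))
  rw [mem_C_iff hT]
  constructor
  · rintro ⟨h1, _, θ, ρ, h', w', h2, h3⟩
    refine ⟨h1, θ, ρ, h', w', fun k => ⟨fun b hb => ?_, fun c hc => ?_⟩, h3⟩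
    · rw [← Sum.inl.inj hb]
      exact h2 k
    · exact absurd hc (by simp)
  · rintro ⟨h1, θ, ρ, h', w', h2, h3⟩
    exact ⟨h1, ht, θ, ρ, h', w', fun k => (h2 k).1 _ rfl, h3⟩

theorem fibre_union {B : Type} [CommRing B] [IsDomain B] [Algebra ℂ B]
    {i : Polynomial ℂ →ₐ[ℂ] B} {h w : Fin 3 → B} (hT : IsTower i zX h w) {t : Fin 2 → ℂ}
    (ht : t ≠ 0) :
    ∃ (r : ℕ) (z : Fin (r + 1) → (Fin 3 → ℂ ⊕ ℂ)), (∀ j, adm t (z j)) ∧
      {x | Sum.elim x t ∈ VC i h w} = ⋃ j, piece t (z j) := by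
  classical
  by_cases hg : ∀ k, gg t k ≠ 0
  · refine ⟨0, fun _ k => Sum.inl (gg t k), fun _ k => ⟨fun b hb => ?_, fun c hc => ?_⟩, ?_⟩
    · rw [← Sum.inl.inj hb]
      exact ⟨rfl, hg k⟩
    · exact absurd hc (by simp)
    · rw [fibre_good hT ht hg]
      ext x
      simp
  · push Not at hg
    obtain ⟨k₀, hk₀⟩ := hg
    obtain ⟨ζ, hζ⟩ : ∃ ζ : ℂ, IsPrimitiveRoot ζ 3 :=
      ⟨_, Complex.isPrimitiveRoot_exp 3 (by norm_num)⟩
    refine ⟨2, fun j k => if k = k₀ then Sum.inr (ζ ^ (j : ℕ)) else Sum.inl (gg t k), ?_, ?_⟩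
    · intro j k
      by_cases hk : k = k₀
      · subst hk
        refine ⟨fun b hb => ?_, fun c hc => ?_⟩
        · simp at hb
        · simp only [if_true] at hc
          have hc' := Sum.inr.inj hc
          rw [← hc', ← pow_mul, mul_comm, pow_mul, hζ.pow_eq_one, one_pow]
          exact ⟨rfl, hk₀⟩
      · refine ⟨fun b hb => ?_, fun c hc => ?_⟩
        · simp only [if_neg hk] at hb
          rw [← Sum.inl.inj hb]
          exact ⟨rfl, FIB_gg_ne ht hk₀ hk⟩
        · simp [if_neg hk] at hc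
    · ext x
      change Sum.elim x t ∈ VC i h w ↔ _
      rw [mem_C_iff hT, Set.mem_iUnion]
      constructor
      · rintro ⟨h1, _, θ, ρ, h', w', h2, h3⟩
        have h4 := h2 k₀
        rw [hk₀, mul_zero, add_zero] at h4
        obtain ⟨j, hj⟩ := FIB_cube hζ h4
        refine ⟨j, h1, θ, ρ, h', w', fun k => ?_, h3⟩
        by_cases hk : k = k₀
        · subst hk
          refine ⟨fun b hb => ?_, fun c hc => ?_⟩
          · simp at hb
          · simp only [if_true] at hc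
            rw [← Sum.inr.inj hc]
            exact hj
        · refine ⟨fun b hb => ?_, fun c hc => ?_⟩
          · simp only [if_neg hk] at hb
            rw [← Sum.inl.inj hb]
            exact h2 k
          · simp [if_neg hk] at hc
      · rintro ⟨j, h1, θ, ρ, h', w', h2, h3⟩
        refine ⟨h1, ht, θ, ρ, h', w', fun k => ?_, h3⟩
        by_cases hk : k = k₀
        · subst hk
          have h4 := (h2 k).2 (ζ ^ (j : ℕ)) (by simp)
          rw [h4, hk₀, mul_zero, add_zero, mul_pow, ← pow_mul, mul_comm (j : ℕ) 3, pow_mul,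
            hζ.pow_eq_one, one_pow, one_mul]
        · exact (h2 k).1 (gg t k) (by simp [hk])

end Pool.Agent.H56.TC
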