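import Pool.Agent.H56.TC.Defs

/-!
Part FID. The identity between the differential forms.
-/

set_option autoImplicit false

namespace Pool.Agent.H56.TC

open MvPolynomial

section FID

variable {K : Type} [Field K] [Algebra ℂ K]

theorem FID_wedge (x y : KaehlerDifferential ℂ K) (a b a' b' : K) :
    ExteriorAlgebra.ι K (a • x + b • y) * ExteriorAlgebra.ι K (a' • x + b' • y) =
      (a * b' - b * a') • (ExteriorAlgebra.ι K x * ExteriorAlgebra.ι K y) := by
  have h1 : ExteriorAlgebra.ι K y * ExteriorAlgebra.ι K x =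
      -(ExteriorAlgebra.ι K x * ExteriorAlgebra.ι K y) :=
    eq_neg_of_add_eq_zero_right (ExteriorAlgebra.ι_add_mul_swap x y)
  simp only [map_add, map_smul, add_mul, mul_add, smul_mul_assoc, mul_smul_comm,
    ExteriorAlgebra.ι_sq_zero, smul_zero, h1, smul_neg]
  module

theorem FID_div (L E : KaehlerDifferential ℂ K) (x y a b a' b' : K)
    (hx : KaehlerDifferential.D ℂ K x = a • L + b • E)
    (hy : KaehlerDifferential.D ℂ K y = a' • L + b' • E) :
    KaehlerDifferential.D ℂ K (x / y) =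
      ((y * a - x * a') / y ^ 2) • L + ((y * b - x * b') / y ^ 2) • E := by
  rw [Derivation.leibniz_div, hx, hy, div_eq_mul_inv, div_eq_mul_inv, ← inv_pow]
  module

theorem FID_om (lam eta om : K) (c : ℂ)
    (hrel : om ^ 3 = eta ^ 3 + lam ^ 3 + algebraMap ℂ K c) (ho : om ≠ 0) :
    KaehlerDifferential.D ℂ K om = (lam ^ 2 / om ^ 2) • KaehlerDifferential.D ℂ K lam +
      (eta ^ 2 / om ^ 2) • KaehlerDifferential.D ℂ K eta := by
  have h := congrArg (KaehlerDifferential.D ℂ K) hrel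
  simp only [map_add, Derivation.map_algebraMap, Derivation.leibniz_pow, add_zero] at h
  norm_num at h
  have hc : CharZero K := charZero_of_injective_algebraMap (algebraMap ℂ K).injective
  have h3 : (3 : K) ≠ 0 := by norm_num
  have h4 : (3 * om ^ 2) • KaehlerDifferential.D ℂ K om =
      (3 * eta ^ 2) • KaehlerDifferential.D ℂ K eta +
        (3 * lam ^ 2) • KaehlerDifferential.D ℂ K lam := by
    have e1 : ∀ (s : K) (x : KaehlerDifferential ℂ K), (3 * s) • x = 3 • s • x := by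
      intro s x
      module
    rw [e1, e1, e1]
    exact h
  have h5 := congrArg (fun x => (3 * om ^ 2)⁻¹ • x) h4
  simp only [smul_smul, smul_add] at h5
  rw [inv_mul_cancel₀ (by exact mul_ne_zero h3 (pow_ne_zero 2 ho)), one_smul] at h5
  rw [h5, add_comm]
  congr 1
  · congr 1
    field_simp
  · congr 1
    field_simp

theorem FID_T (L E : KaehlerDifferential ℂ K) (q : Fin 4 → K) (α β : Fin 4 → K)
    (hq : ∀ e, KaehlerDifferential.D ℂ K (q e) = α e • L + β e • E) (a b c' : Fin 3 → Fin 4)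
    (sg : Fin 3 → ℤ) :
    ∑ j, sg j • (q (a j) • (ExteriorAlgebra.ι K (KaehlerDifferential.D ℂ K (q (b j))) *
      ExteriorAlgebra.ι K (KaehlerDifferential.D ℂ K (q (c' j))))) =
    (∑ j, (sg j : K) * (q (a j) * (α (b j) * β (c' j) - β (b j) * α (c' j)))) •
      (ExteriorAlgebra.ι K L * ExteriorAlgebra.ι K E) := by
  rw [Finset.sum_smul]
  refine Finset.sum_congr rfl fun j _ => ?_
  rw [hq, hq, FID_wedge, smul_smul (q (a j)), mul_smul (sg j : K), Int.cast_smul_eq_zsmul]

theorem FID_q (lam eta om : K) (c : ℂ)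
    (hrel : om ^ 3 = eta ^ 3 + lam ^ 3 + algebraMap ℂ K c) (ho : om ≠ 0) (d e : Fin 4) :
    KaehlerDifferential.D ℂ K (![lam, 1, eta, om] e / ![lam, 1, eta, om] d) =
      ((![lam, 1, eta, om] d * ![1, 0, 0, lam ^ 2 / om ^ 2] e -
        ![lam, 1, eta, om] e * ![1, 0, 0, lam ^ 2 / om ^ 2] d) / ![lam, 1, eta, om] d ^ 2) •
          KaehlerDifferential.D ℂ K lam +
      ((![lam, 1, eta, om] d * ![0, 0, 1, eta ^ 2 / om ^ 2] e -
        ![lam, 1, eta, om] e * ![0, 0, 1, eta ^ 2 / om ^ 2] d) / ![lam, 1, eta, om] d ^ 2) •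
          KaehlerDifferential.D ℂ K eta := by
  have h : ∀ e : Fin 4, KaehlerDifferential.D ℂ K (![lam, 1, eta, om] e) =
      (![1, 0, 0, lam ^ 2 / om ^ 2] e : K) • KaehlerDifferential.D ℂ K lam +
        (![0, 0, 1, eta ^ 2 / om ^ 2] e : K) • KaehlerDifferential.D ℂ K eta := by
    intro e
    fin_cases e
    · simp
    · simp
    · simp
    · simpa using FID_om lam eta om c hrel ho
  exact FID_div _ _ _ _ _ _ _ _ (h e) (h d)

end FID

theorem id_surface {K : Type} [Field K] [Algebra ℂ K] (lam eta om : K) (c : ℂ) (hc : c ≠ 0)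
    (hrel : om ^ 3 = eta ^ 3 + lam ^ 3 + algebraMap ℂ K c) (hl : lam ≠ 0) (he : eta ≠ 0)
    (ho : om ≠ 0) (d : Fin 4) :
    ∃ (κ : ℂ) (T : ExteriorAlgebra K (KaehlerDifferential ℂ K)), κ ≠ 0 ∧
      (∃ (a b : Fin 3 → Fin 4) (c' : Fin 3 → Fin 4) (sg : Fin 3 → ℤ),
        T = ∑ j, sg j • ((![lam, 1, eta, om] (a j) / ![lam, 1, eta, om] d) •
          (ExteriorAlgebra.ι K (KaehlerDifferential.D ℂ K
              (![lam, 1, eta, om] (b j) / ![lam, 1, eta, om] d)) *
            ExteriorAlgebra.ι K (KaehlerDifferential.D ℂ K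
              (![lam, 1, eta, om] (c' j) / ![lam, 1, eta, om] d))))) ∧
      T = (algebraMap ℂ K κ / (![lam, 1, eta, om] d * om ^ 2)) •
        (ExteriorAlgebra.ι K (KaehlerDifferential.D ℂ K lam) *
          ExteriorAlgebra.ι K (KaehlerDifferential.D ℂ K eta)) := by
  have hC : algebraMap ℂ K c = om ^ 3 - eta ^ 3 - lam ^ 3 := by rw [hrel]; ring
  refine ⟨if d = 1 then c else -1, _, ?_, ⟨![![1, 2, 3], ![0, 2, 3], ![0, 1, 3], ![0, 1, 2]] d,
    ![![2, 1, 1], ![2, 0, 0], ![1, 0, 0], ![1, 0, 0]] d,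
    ![![3, 3, 2], ![3, 3, 2], ![3, 3, 1], ![2, 2, 1]] d, ![1, -1, 1], rfl⟩, ?_⟩
  · split_ifs
    · exact hc
    · norm_num
  · rw [FID_T _ _ (fun e => ![lam, 1, eta, om] e / ![lam, 1, eta, om] d) _ _
      (fun e => FID_q lam eta om c hrel ho d e)]
    congr 1
    fin_cases d
    · simp [Fin.sum_univ_three]
      field_simp
      ring
    · simp [Fin.sum_univ_three, hC]
      field_simp
      ring
    · simp [Fin.sum_univ_three]
      field_simp
      ring
    · simp [Fin.sum_univ_three]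
      field_simp
      try ring

theorem id_curve {K : Type} [Field K] [Algebra ℂ K] (lam eta om : K) (c : ℂ)
    (hrel : om ^ 3 = eta ^ 3 + lam ^ 3 + algebraMap ℂ K c) (he : eta ≠ 0) (ho : om ≠ 0) (r : K) :
    (∃ α β : K, (r / eta) • KaehlerDifferential.D ℂ K (om / eta) -
        (om / eta) • KaehlerDifferential.D ℂ K (r / eta) =
      (r / om ^ 2) • KaehlerDifferential.D ℂ K eta + α • KaehlerDifferential.D ℂ K lam +
        β • KaehlerDifferential.D ℂ K r) ∧
    (∃ α β : K, (r / om) • KaehlerDifferential.D ℂ K (eta / om) -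
        (eta / om) • KaehlerDifferential.D ℂ K (r / om) =
      (r / om ^ 2) • KaehlerDifferential.D ℂ K eta + α • KaehlerDifferential.D ℂ K lam +
        β • KaehlerDifferential.D ℂ K r) := by
  have key : ∀ x y : K, y ≠ 0 → (r / y) • KaehlerDifferential.D ℂ K (x / y) -
      (x / y) • KaehlerDifferential.D ℂ K (r / y) =
        (r / y ^ 2) • KaehlerDifferential.D ℂ K x - (x / y ^ 2) • KaehlerDifferential.D ℂ K r := by
    intro x y hy
    rw [Derivation.leibniz_div, Derivation.leibniz_div]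
    simp only [smul_sub, smul_smul]
    have e1 : r / y * (y⁻¹ ^ 2 * y) = r / y ^ 2 := by field_simp
    have e2 : x / y * (y⁻¹ ^ 2 * y) = x / y ^ 2 := by field_simp
    have e3 : r / y * (y⁻¹ ^ 2 * x) = x / y * (y⁻¹ ^ 2 * r) := by ring
    rw [e1, e2, e3]
    abel
  constructor
  · refine ⟨r * lam ^ 2 / (eta ^ 2 * om ^ 2), -(om / eta ^ 2), ?_⟩
    rw [key om eta he, FID_om lam eta om c hrel ho, smul_add, smul_smul, smul_smul]
    have e1 : r / eta ^ 2 * (lam ^ 2 / om ^ 2) = r * lam ^ 2 / (eta ^ 2 * om ^ 2) := by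
      field_simp
    have e2 : r / eta ^ 2 * (eta ^ 2 / om ^ 2) = r / om ^ 2 := by field_simp
    rw [e1, e2, neg_smul]
    abel
  · refine ⟨0, -(eta / om ^ 2), ?_⟩
    rw [key eta om ho, zero_smul, neg_smul, add_zero, sub_eq_add_neg]

end Pool.Agent.H56.TC
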