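import Pool.Agent.H56.TC.Defs

/-!
Part FMU. Products of regular forms are regular. `ExteriorAlgebra.ιMulti_apply` (product of a list),
`Fin.append` for the product of two `ιMulti`; bilinearity by `AddSubgroup.closure_induction`.
-/

set_option autoImplicit false

namespace Pool.Agent.H56.TC

open MvPolynomial

theorem formsOn_mul {K : Type} [Field K] [Algebra ℂ K] (O : Subalgebra ℂ K) {p q : ℕ}
    {α β : ExteriorAlgebra K (KaehlerDifferential ℂ K)} (hα : α ∈ formsOn (O : Set K) p)
    (hβ : β ∈ formsOn (O : Set K) q) : α * β ∈ formsOn (O : Set K) (p + q) := by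
  unfold formsOn at hα hβ
  refine AddSubgroup.closure_induction (p := fun α _ => α * β ∈ formsOn (O : Set K) (p + q))
    ?_ ?_ ?_ ?_ hα
  · rintro _ ⟨a, ha, u, hu, rfl⟩
    refine AddSubgroup.closure_induction (p := fun β _ => (a • ExteriorAlgebra.ιMulti K p
      (fun j => KaehlerDifferential.D ℂ K (u j))) * β ∈ formsOn (O : Set K) (p + q))
      ?_ ?_ ?_ ?_ hβ
    · rintro _ ⟨b, hb, u', hu', rfl⟩
      refine AddSubgroup.subset_closure ⟨a * b, O.mul_mem ha hb, Fin.append u u', ?_, ?_⟩
      · intro j
        refine Fin.addCases (fun j => ?_) (fun j => ?_) j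
        · rw [Fin.append_left]
          exact hu j
        · rw [Fin.append_right]
          exact hu' j
      · have h1 : (fun j => KaehlerDifferential.D ℂ K (Fin.append u u' j)) =
            Fin.append (fun j => KaehlerDifferential.D ℂ K (u j))
              (fun j => KaehlerDifferential.D ℂ K (u' j)) := by
          funext j
          refine Fin.addCases (fun j => ?_) (fun j => ?_) j
          · rw [Fin.append_left, Fin.append_left]
          · rw [Fin.append_right, Fin.append_right]
        have h2 : ExteriorAlgebra.ιMulti K (p + q)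
            (Fin.append (fun j => KaehlerDifferential.D ℂ K (u j))
              (fun j => KaehlerDifferential.D ℂ K (u' j))) =
            ExteriorAlgebra.ιMulti K p (fun j => KaehlerDifferential.D ℂ K (u j)) *
              ExteriorAlgebra.ιMulti K q (fun j => KaehlerDifferential.D ℂ K (u' j)) := by
          rw [ExteriorAlgebra.ιMulti_apply, ExteriorAlgebra.ιMulti_apply,
            ExteriorAlgebra.ιMulti_apply, ← List.prod_append, ← List.ofFn_fin_append]
          congr 2
          funext j
          refine Fin.addCases (fun j => ?_) (fun j => ?_) j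
          · rw [Fin.append_left, Fin.append_left]
          · rw [Fin.append_right, Fin.append_right]
        rw [h1, h2, smul_mul_smul_comm]
    · rw [mul_zero]
      exact AddSubgroup.zero_mem _
    · intro x y _ _ hx hy
      rw [mul_add]
      exact AddSubgroup.add_mem _ hx hy
    · intro x _ hx
      rw [mul_neg]
      exact AddSubgroup.neg_mem _ hx
  · rw [zero_mul]
    exact AddSubgroup.zero_mem _
  · intro x y _ _ hx hy
    rw [add_mul]
    exact AddSubgroup.add_mem _ hx hy
  · intro x _ hx
    rw [neg_mul]
    exact AddSubgroup.neg_mem _ hx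

theorem formsOn_smul {K : Type} [Field K] [Algebra ℂ K] (O : Subalgebra ℂ K) {p : ℕ} {a : K}
    (ha : a ∈ O) {α : ExteriorAlgebra K (KaehlerDifferential ℂ K)}
    (hα : α ∈ formsOn (O : Set K) p) : a • α ∈ formsOn (O : Set K) p := by
  unfold formsOn at hα
  refine AddSubgroup.closure_induction (p := fun α _ => a • α ∈ formsOn (O : Set K) p)
    ?_ ?_ ?_ ?_ hα
  · rintro _ ⟨b, hb, u, hu, rfl⟩
    exact AddSubgroup.subset_closure ⟨a * b, O.mul_mem ha hb, u, hu, (mul_smul _ _ _).symm⟩
  · rw [smul_zero]
    exact AddSubgroup.zero_mem _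
  · intro x y _ _ hx hy
    rw [smul_add]
    exact AddSubgroup.add_mem _ hx hy
  · intro x _ hx
    rw [smul_neg]
    exact AddSubgroup.neg_mem _ hx

theorem formsOn_d {K : Type} [Field K] [Algebra ℂ K] (O : Subalgebra ℂ K) {u : K} (hu : u ∈ O) :
    ExteriorAlgebra.ι K (KaehlerDifferential.D ℂ K u) ∈ formsOn (O : Set K) 1 := by
  refine AddSubgroup.subset_closure ⟨1, O.one_mem, fun _ => u, fun _ => hu, ?_⟩
  rw [one_smul, ExteriorAlgebra.ιMulti_apply]
  simp

end Pool.Agent.H56.TC
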