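import Pool.Agent.H56.TC.Defs
import Pool.Agent.H56.TC.VAL
import Pool.Agent.H56.TC.CHA
import Pool.Agent.H56.TC.FMU
import Pool.Agent.H56.TC.FID

/-!
Part FRM. Both forms are regular. Notation of part SMO; `lam = Y k 0`, `eta k = Y k 2`, `om k = Y k 3`, `Y k 1 = 1`.
By `id_surface` (block `i`, `d = dd i`) and `id_curve` (blocks `k = i+1, i+2`, `r = Y i (dd i)`)
`T * A (i+1) * A (i+2) = (κ / (r om_i ^ 2)) (r / om_{i+1} ^ 2) (r / om_{i+2} ^ 2) ιdλ ιdη_i ιdη_{i+1} ιdη_{i+2}`, where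
`A k = v k ιd ε k - ε k ιd v k`: the other terms vanish, since `ιdλ ιdλ = 0` and `ιdλ ιdη_i ιdr = 0` for
`r ∈ {λ, 1, η_i, ω_i}` (`d ω_i` is a combination of `dλ, dη_i`). So `omega0 = κ⁻¹ (1 / r) T A A` (cyclic permutations
are even) with `1 / r = Y i 1 / Y i (dd i) ∈ O`, and `lam • omega0 = κ⁻¹ (lam / r) T A A` with `lam / r ∈ O`. Use part FMU.
-/

set_option autoImplicit false

namespace Pool.Agent.H56.TC

open MvPolynomial

section ext

variable {K M : Type} [Field K] [AddCommGroup M] [Module K M]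

theorem FRM_swap (x y : M) : ExteriorAlgebra.ι K x * ExteriorAlgebra.ι K y =
    -(ExteriorAlgebra.ι K y * ExteriorAlgebra.ι K x) :=
  eq_neg_of_add_eq_zero_left (ExteriorAlgebra.ι_add_mul_swap x y)

theorem FRM_sq (x : M) : ExteriorAlgebra.ι K x * ExteriorAlgebra.ι K x = 0 :=
  ExteriorAlgebra.ι_sq_zero x

theorem FRM_three (x y : M) (p q : K) : ExteriorAlgebra.ι K x * ExteriorAlgebra.ι K y *
    ExteriorAlgebra.ι K (p • x + q • y) = 0 := by
  rw [map_add, map_smul, map_smul, mul_add, mul_smul_comm, mul_smul_comm]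
  have h1 : ExteriorAlgebra.ι K x * ExteriorAlgebra.ι K y * ExteriorAlgebra.ι K x = 0 := by
    rw [mul_assoc, FRM_swap y x, mul_neg, ← mul_assoc, FRM_sq, zero_mul, neg_zero]
  have h2 : ExteriorAlgebra.ι K x * ExteriorAlgebra.ι K y * ExteriorAlgebra.ι K y = 0 := by
    rw [mul_assoc, FRM_sq, mul_zero]
  rw [h1, h2, smul_zero, smul_zero, add_zero]

theorem FRM_four (x y z : M) (p q : K) : ExteriorAlgebra.ι K x * ExteriorAlgebra.ι K y *
    ExteriorAlgebra.ι K z * ExteriorAlgebra.ι K (p • x + q • y) = 0 := by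
  rw [mul_assoc _ (ExteriorAlgebra.ι K z), FRM_swap z, mul_neg, ← mul_assoc, FRM_three, zero_mul,
    neg_zero]

theorem FRM_cyc (x y z : M) : ExteriorAlgebra.ι K y * ExteriorAlgebra.ι K z *
    ExteriorAlgebra.ι K x =
    ExteriorAlgebra.ι K x * ExteriorAlgebra.ι K y * ExteriorAlgebra.ι K z := by
  rw [mul_assoc, FRM_swap z x, mul_neg, ← mul_assoc, FRM_swap y x, neg_mul, neg_neg]

/-- the product of the form of the surface and the two forms of the curves -/
theorem FRM_prod (L E R A1 A2 E1 E2 : M) (c0 c1 c2 p q a1 a2 b1 b2 : K)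
    (hR : R = p • L + q • E) (h1 : A1 = c1 • E1 + a1 • L + b1 • R)
    (h2 : A2 = c2 • E2 + a2 • L + b2 • R) :
    (c0 • (ExteriorAlgebra.ι K L * ExteriorAlgebra.ι K E)) * ExteriorAlgebra.ι K A1 *
      ExteriorAlgebra.ι K A2 =
      (c0 * c1 * c2) • (ExteriorAlgebra.ι K L * (ExteriorAlgebra.ι K E *
        ExteriorAlgebra.ι K E1 * ExteriorAlgebra.ι K E2)) := by
  have e1 : A1 = c1 • E1 + ((a1 + b1 * p) • L + (b1 * q) • E) := by
    rw [h1, hR]
    module
  have e2 : A2 = c2 • E2 + ((a2 + b2 * p) • L + (b2 * q) • E) := by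
    rw [h2, hR]
    module
  have f1 : ExteriorAlgebra.ι K L * ExteriorAlgebra.ι K E * ExteriorAlgebra.ι K A1 =
      c1 • (ExteriorAlgebra.ι K L * ExteriorAlgebra.ι K E * ExteriorAlgebra.ι K E1) := by
    rw [e1, LinearMap.map_add, mul_add, FRM_three, add_zero, map_smul, mul_smul_comm]
  have f2 : ExteriorAlgebra.ι K L * ExteriorAlgebra.ι K E * ExteriorAlgebra.ι K E1 *
      ExteriorAlgebra.ι K A2 = c2 • (ExteriorAlgebra.ι K L * ExteriorAlgebra.ι K E *
        ExteriorAlgebra.ι K E1 * ExteriorAlgebra.ι K E2) := by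
    rw [e2, LinearMap.map_add, mul_add, FRM_four, add_zero, map_smul, mul_smul_comm]
  rw [smul_mul_assoc, f1, smul_smul, smul_mul_assoc, f2, smul_smul]
  simp only [mul_assoc]

end ext

theorem FRM_iMulti {K : Type} [Field K] [Algebra ℂ K] (L E0 E1 E2 : KaehlerDifferential ℂ K) :
    ExteriorAlgebra.ιMulti K 4 ![L, E0, E1, E2] = ExteriorAlgebra.ι K L *
      (ExteriorAlgebra.ι K E0 * ExteriorAlgebra.ι K E1 * ExteriorAlgebra.ι K E2) := by
  rw [ExteriorAlgebra.ιMulti_apply]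
  simp [List.ofFn_succ, mul_assoc]

theorem FRM_dom {K : Type} [Field K] [Algebra ℂ K] (lam eta om : K) (c : ℂ)
    (hrel : om ^ 3 = eta ^ 3 + lam ^ 3 + algebraMap ℂ K c) (ho : om ≠ 0) (d : Fin 4) :
    ∃ p q : K, KaehlerDifferential.D ℂ K (![lam, 1, eta, om] d) =
      p • KaehlerDifferential.D ℂ K lam + q • KaehlerDifferential.D ℂ K eta := by
  have h3 : (3 : K) ≠ 0 := by
    have h : algebraMap ℂ K 3 ≠ 0 := (map_ne_zero _).2 (by norm_num)
    have h' : algebraMap ℂ K 3 = 3 := map_ofNat _ 3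
    rwa [h'] at h
  have hD : (3 * om ^ 2) • KaehlerDifferential.D ℂ K om =
      (3 * eta ^ 2) • KaehlerDifferential.D ℂ K eta +
        (3 * lam ^ 2) • KaehlerDifferential.D ℂ K lam := by
    have h := congrArg (KaehlerDifferential.D ℂ K) hrel
    rw [map_add, map_add, Derivation.map_algebraMap, add_zero, Derivation.leibniz_pow,
      Derivation.leibniz_pow, Derivation.leibniz_pow] at h
    simp only [Nat.add_one_sub_one, ← Nat.cast_smul_eq_nsmul K, smul_smul] at h
    exact_mod_cast h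
  fin_cases d
  · exact ⟨1, 0, by simp⟩
  · exact ⟨0, 0, by simp⟩
  · exact ⟨0, 1, by simp⟩
  · refine ⟨lam ^ 2 / om ^ 2, eta ^ 2 / om ^ 2, ?_⟩
    have h4 : (3 * om ^ 2 : K) ≠ 0 := mul_ne_zero h3 (pow_ne_zero 2 ho)
    have h5 : KaehlerDifferential.D ℂ K om = (3 * om ^ 2)⁻¹ •
        ((3 * eta ^ 2) • KaehlerDifferential.D ℂ K eta +
          (3 * lam ^ 2) • KaehlerDifferential.D ℂ K lam) := by
      rw [← hD, smul_smul, inv_mul_cancel₀ h4, one_smul]
    have h6 : KaehlerDifferential.D ℂ K om = (lam ^ 2 / om ^ 2) •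
        KaehlerDifferential.D ℂ K lam + (eta ^ 2 / om ^ 2) • KaehlerDifferential.D ℂ K eta := by
      rw [h5, smul_add, smul_smul, smul_smul, add_comm]
      congr 2
      · field_simp
      · field_simp
    simpa using h6

theorem FRM_term {K : Type} [Field K] [Algebra ℂ K] (O : Subalgebra ℂ K) (x y z : K) (hx : x ∈ O)
    (hy : y ∈ O) (hz : z ∈ O) : x • (ExteriorAlgebra.ι K (KaehlerDifferential.D ℂ K y) *
      ExteriorAlgebra.ι K (KaehlerDifferential.D ℂ K z)) ∈ formsOn (O : Set K) 2 := by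
  have h : ExteriorAlgebra.ι K (KaehlerDifferential.D ℂ K y) *
      ExteriorAlgebra.ι K (KaehlerDifferential.D ℂ K z) ∈ formsOn (O : Set K) (1 + 1) :=
    formsOn_mul O (formsOn_d O hy) (formsOn_d O hz)
  have h2 := formsOn_smul O (a := x) hx h
  exact h2

theorem FRM_mul3 {K : Type} [Field K] [Algebra ℂ K] (O : Subalgebra ℂ K)
    (T A A' : ExteriorAlgebra K (KaehlerDifferential ℂ K)) (hT : T ∈ formsOn (O : Set K) 2)
    (hA : A ∈ formsOn (O : Set K) 1) (hA' : A' ∈ formsOn (O : Set K) 1) :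
    T * A * A' ∈ formsOn (O : Set K) 4 := by
  have h1 : T * A ∈ formsOn (O : Set K) (2 + 1) := formsOn_mul O hT hA
  have h2 : T * A * A' ∈ formsOn (O : Set K) (2 + 1 + 1) := formsOn_mul O h1 hA'
  exact h2

theorem FRM_fin {K : Type} [Field K] [Algebra ℂ K] (O : Subalgebra ℂ K)
    (W P : ExteriorAlgebra K (KaehlerDifferential ℂ K)) (x κ' : K) (hP : P ∈ formsOn (O : Set K) 4)
    (hκ : κ' ∈ O) (hx : x ∈ O) (hW : W = (κ' * x) • P) : W ∈ formsOn (O : Set K) 4 := by
  rw [hW]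
  have h1 : κ' * x ∈ O := O.mul_mem hκ hx
  exact formsOn_smul O h1 hP

/-- the form of a curve -/
theorem FRM_curve {K : Type} [Field K] [Algebra ℂ K] (O : Subalgebra ℂ K) (lam eta om : K) (c : ℂ)
    (hrel : om ^ 3 = eta ^ 3 + lam ^ 3 + algebraMap ℂ K c) (he : eta ≠ 0) (ho : om ≠ 0) (r : K)
    (d : Fin 4) (hd : d = 2 ∨ d = 3)
    (hq : ∀ e, ![lam, 1, eta, om] e / ![lam, 1, eta, om] d ∈ O)
    (hv : r / ![lam, 1, eta, om] d ∈ O) :
    ∃ (A : KaehlerDifferential ℂ K) (a b : K),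
      ExteriorAlgebra.ι K A ∈ formsOn (O : Set K) 1 ∧
      A = (r / om ^ 2) • KaehlerDifferential.D ℂ K eta + a • KaehlerDifferential.D ℂ K lam +
        b • KaehlerDifferential.D ℂ K r := by
  obtain ⟨⟨a1, b1, h1⟩, ⟨a2, b2, h2⟩⟩ := id_curve lam eta om c hrel he ho r
  have key : ∀ v ε : K, v ∈ O → ε ∈ O → ExteriorAlgebra.ι K (v • KaehlerDifferential.D ℂ K ε -
      ε • KaehlerDifferential.D ℂ K v) ∈ formsOn (O : Set K) 1 := by
    intro v ε hv hε
    rw [map_sub, map_smul, map_smul]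
    exact AddSubgroup.sub_mem _ (formsOn_smul O hv (formsOn_d O hε))
      (formsOn_smul O hε (formsOn_d O hv))
  rcases hd with rfl | rfl
  · have g1 : r / eta ∈ O := hv
    have g2 : om / eta ∈ O := hq 3
    have g3 := key (r / eta) (om / eta) g1 g2
    exact Exists.intro _ (Exists.intro a1 (Exists.intro b1 (And.intro g3 h1)))
  · have g1 : r / om ∈ O := hv
    have g2 : eta / om ∈ O := hq 2
    have g3 := key (r / om) (eta / om) g1 g2
    exact Exists.intro _ (Exists.intro a2 (Exists.intro b2 (And.intro g3 h2)))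

theorem forms_regular {B : Type} [CommRing B] [IsDomain B] [Algebra ℂ B]
    {i₀ : Polynomial ℂ →ₐ[ℂ] B} {h w : Fin 3 → B} (hT : IsTower i₀ zX h w) {x : Sg → ℂ}
    (hx : x ∈ VX i₀ h w) :
    omega0 (algebraMap B (FractionRing B) (i₀ Polynomial.X)) (fr h) (fr w) ∈
      formsOn (Loc bX (fr (yB i₀ h w)) x) 4 ∧
    algebraMap B (FractionRing B) (i₀ Polynomial.X) •
      omega0 (algebraMap B (FractionRing B) (i₀ Polynomial.X)) (fr h) (fr w) ∈
      formsOn (Loc bX (fr (yB i₀ h w)) x) 4 := by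
  obtain ⟨O, ev, hO⟩ := exists_LR hx
  obtain ⟨i, dd, hd1, hd2, hd, hu⟩ := chart hT hx
  obtain ⟨hm1, hm2, hm3⟩ := chart_mem hT hx hO hd hu
  have hLoc : Loc bX (fr (yB i₀ h w)) x = (O : Set (FractionRing B)) := by
    ext f
    exact (hO.mem f).symm
  rw [hLoc]
  set lam : FractionRing B := algebraMap B (FractionRing B) (i₀ Polynomial.X) with hlam
  set eta : Fin 3 → FractionRing B := fr h with heta
  set om : Fin 3 → FractionRing B := fr w with hom
  have hY : ∀ k e, fr (yB i₀ h w) (Sum.inl (k, e)) = ![lam, 1, eta k, om k] e := by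
    intro k e
    fin_cases e
    · simp [fr, yB, pt, xc, hlam]
    · simp [fr, yB, pt, xc]
    · simp [fr, yB, pt, xc, heta]
    · simp [fr, yB, pt, xc, hom]
  simp only [hY] at hm1 hm2 hm3
  have hne : ∀ k e, (![lam, 1, eta k, om k] : Fin 4 → FractionRing B) e ≠ 0 := by
    intro k e
    rw [← hY]
    exact yB_ne_zero hT _
  have hl : lam ≠ 0 := hne 0 0
  have he : ∀ k, eta k ≠ 0 := fun k => hne k 2
  have ho : ∀ k, om k ≠ 0 := fun k => hne k 3
  have hrel : ∀ k, om k ^ 3 = eta k ^ 3 + lam ^ 3 + algebraMap ℂ (FractionRing B) (cc k) := by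
    intro k
    have h1 := (hT.rel k).1 (Polynomial.X ^ 3 + Polynomial.C (cc k)) rfl
    have h2 : i₀ (Polynomial.X ^ 3 + Polynomial.C (cc k)) =
        i₀ Polynomial.X ^ 3 + algebraMap ℂ B (cc k) := by
      rw [map_add, map_pow]
      congr 1
      exact i₀.commutes (cc k)
    rw [h2] at h1
    have h3 := congrArg (algebraMap B (FractionRing B)) h1
    rw [map_pow, map_add, map_add, map_pow, map_pow,
      ← IsScalarTower.algebraMap_apply ℂ B (FractionRing B), ← add_assoc] at h3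
    exact h3
  have hcc : cc i ≠ 0 := by
    unfold cc
    exact Nat.cast_add_one_ne_zero _
  -- the form of the surface
  obtain ⟨κ, T, hκ, ⟨a, b, c', sg, hTsum⟩, hTeq⟩ :=
    id_surface lam (eta i) (om i) (cc i) hcc (hrel i) hl (he i) (ho i) (dd i)
  have hT2 : T ∈ formsOn (O : Set (FractionRing B)) 2 := by
    rw [hTsum]
    refine AddSubgroup.sum_mem _ fun j _ => AddSubgroup.zsmul_mem _ ?_ _
    exact FRM_term O _ _ _ (hm1 i (a j)) (hm1 i (b j)) (hm1 i (c' j))
  -- the forms of the curves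
  obtain ⟨A1, a1, b1, hA1, hA1e⟩ := FRM_curve O lam (eta (i + 1)) (om (i + 1)) _ (hrel (i + 1))
    (he _) (ho _) (![lam, 1, eta i, om i] (dd i)) (dd (i + 1)) hd1 (hm1 (i + 1)) hm2
  obtain ⟨A2, a2, b2, hA2, hA2e⟩ := FRM_curve O lam (eta (i + 2)) (om (i + 2)) _ (hrel (i + 2))
    (he _) (ho _) (![lam, 1, eta i, om i] (dd i)) (dd (i + 2)) hd2 (hm1 (i + 2)) hm3
  obtain ⟨p, q, hpq⟩ := FRM_dom lam (eta i) (om i) (cc i) (hrel i) (ho i) (dd i)
  have hTA : T * ExteriorAlgebra.ι _ A1 * ExteriorAlgebra.ι _ A2 ∈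
      formsOn (O : Set (FractionRing B)) 4 :=
    FRM_mul3 O _ _ _ hT2 hA1 hA2
  have hprod := FRM_prod (KaehlerDifferential.D ℂ (FractionRing B) lam)
    (KaehlerDifferential.D ℂ (FractionRing B) (eta i))
    (KaehlerDifferential.D ℂ (FractionRing B) (![lam, 1, eta i, om i] (dd i))) A1 A2
    (KaehlerDifferential.D ℂ (FractionRing B) (eta (i + 1)))
    (KaehlerDifferential.D ℂ (FractionRing B) (eta (i + 2)))
    (algebraMap ℂ (FractionRing B) κ / (![lam, 1, eta i, om i] (dd i) * om i ^ 2)) _ _ p q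
    a1 a2 b1 b2 hpq hA1e hA2e
  rw [← hTeq] at hprod
  -- cyclic permutation
  have hcyc : ExteriorAlgebra.ι (FractionRing B) (KaehlerDifferential.D ℂ (FractionRing B) (eta i)) *
      ExteriorAlgebra.ι (FractionRing B)
        (KaehlerDifferential.D ℂ (FractionRing B) (eta (i + 1))) *
      ExteriorAlgebra.ι (FractionRing B)
        (KaehlerDifferential.D ℂ (FractionRing B) (eta (i + 2))) =
      ExteriorAlgebra.ι (FractionRing B)
        (KaehlerDifferential.D ℂ (FractionRing B) (eta 0)) *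
      ExteriorAlgebra.ι (FractionRing B)
        (KaehlerDifferential.D ℂ (FractionRing B) (eta 1)) *
      ExteriorAlgebra.ι (FractionRing B)
        (KaehlerDifferential.D ℂ (FractionRing B) (eta 2)) := by
    fin_cases i
    · rfl
    · exact FRM_cyc _ _ _
    · exact (FRM_cyc _ _ _).symm
  have homs : om i ^ 2 * om (i + 1) ^ 2 * om (i + 2) ^ 2 = (om 0 * om 1 * om 2) ^ 2 := by
    fin_cases i
    · show om 0 ^ 2 * om 1 ^ 2 * om 2 ^ 2 = _
      ring
    · show om 1 ^ 2 * om 2 ^ 2 * om 0 ^ 2 = _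
      ring
    · show om 2 ^ 2 * om 0 ^ 2 * om 1 ^ 2 = _
      ring
  rw [hcyc, ← FRM_iMulti] at hprod
  have hr : (![lam, 1, eta i, om i] : Fin 4 → FractionRing B) (dd i) ≠ 0 := hne i (dd i)
  set r := (![lam, 1, eta i, om i] : Fin 4 → FractionRing B) (dd i) with hrdef
  have hκ0 : algebraMap ℂ (FractionRing B) κ ≠ 0 := (map_ne_zero _).2 hκ
  have hp : T * ExteriorAlgebra.ι _ A1 * ExteriorAlgebra.ι _ A2 =
      (algebraMap ℂ (FractionRing B) κ * r) • omega0 lam eta om := by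
    rw [hprod]
    unfold omega0
    rw [smul_smul, ← homs]
    congr 1
    have g0 := ho i
    have g1 := ho (i + 1)
    have g2 := ho (i + 2)
    field_simp
  have hκO : algebraMap ℂ (FractionRing B) κ⁻¹ ∈ O := O.algebraMap_mem _
  constructor
  · have e1 : omega0 lam eta om = (algebraMap ℂ (FractionRing B) κ⁻¹ * (1 / r)) •
        (T * ExteriorAlgebra.ι _ A1 * ExteriorAlgebra.ι _ A2) := by
      rw [hp, smul_smul, map_inv₀]
      have : (algebraMap ℂ (FractionRing B) κ)⁻¹ * (1 / r) *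
          (algebraMap ℂ (FractionRing B) κ * r) = 1 := by
        field_simp
      rw [this, one_smul]
    have g5 : 1 / r ∈ O := hm1 i 1
    exact FRM_fin O _ _ _ _ hTA hκO g5 e1
  · have e1 : lam • omega0 lam eta om = (algebraMap ℂ (FractionRing B) κ⁻¹ * (lam / r)) •
        (T * ExteriorAlgebra.ι _ A1 * ExteriorAlgebra.ι _ A2) := by
      rw [hp, smul_smul, map_inv₀]
      have : (algebraMap ℂ (FractionRing B) κ)⁻¹ * (lam / r) *
          (algebraMap ℂ (FractionRing B) κ * r) = lam := by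
        field_simp
      rw [this]
    have g5 : lam / r ∈ O := hm1 i 0
    exact FRM_fin O _ _ _ _ hTA hκO g5 e1

end Pool.Agent.H56.TC
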