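import Pool.Agent.H56.TC.Main

/-!
Names for the rational differential forms, and the final statement in these terms.
-/

set_option autoImplicit false

namespace Pool.Agent.H56.TC

variable (K : Type) [Field K] [Algebra ℂ K]

/-- the module of Kaehler differentials of the field `K` over `ℂ` -/
def Om : Type := KaehlerDifferential ℂ K

noncomputable instance : AddCommGroup (Om K) := inferInstanceAs (AddCommGroup (KaehlerDifferential ℂ K))

noncomputable instance : Module K (Om K) := inferInstanceAs (Module K (KaehlerDifferential ℂ K))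

/-- rational differential forms: the exterior algebra of the module of Kaehler differentials -/
def DF : Type := ExteriorAlgebra K (Om K)

noncomputable instance : AddCommGroup (DF K) := inferInstanceAs (AddCommGroup (ExteriorAlgebra K (Om K)))

noncomputable instance : Module K (DF K) := inferInstanceAs (Module K (ExteriorAlgebra K (Om K)))

variable {K}

/-- the differential `du` -/
noncomputable def dif (u : K) : Om K := KaehlerDifferential.D ℂ K u

/-- the form `v₁ ∧ ⋯ ∧ v_p` -/
noncomputable def wedge {p : ℕ} (v : Fin p → Om K) : DF K := ExteriorAlgebra.ιMulti K p v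

/-- the sums of rational differential `p`-forms `a du₁ ∧ ⋯ ∧ du_p` with `a, u₁, …, u_p` in `L`;
if `L` is the local ring of a point `x`, these are the `p`-forms which are regular at `x` -/
noncomputable def RegForms (L : Set K) (p : ℕ) : AddSubgroup (DF K) :=
  AddSubgroup.closure {ω | ∃ a ∈ L, ∃ u : Fin p → K, (∀ j, u j ∈ L) ∧
    ω = a • wedge (fun j => dif (u j))}

/-- there are a nonzero rational `n`-form `ω` and a nonconstant rational function `f` such that
`ω` and `f ω` are regular at every point of the variety with generic point `y` -/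
def TwoForms {σ β : Type} (bl : σ → β) (y : σ → K) (n : ℕ) : Prop :=
  ∃ (ω : DF K) (f : K), ω ≠ 0 ∧ f ∉ Set.range (algebraMap ℂ K) ∧
    ∀ x ∈ Var bl y, ω ∈ RegForms (Loc bl y x) n ∧ f • ω ∈ RegForms (Loc bl y x) n

theorem main2 : ∃ (σ β : Type) (_ : Fintype σ) (_ : Fintype β) (bl : σ → β) (K : Type)
    (_ : Field K) (_ : Algebra ℂ K) (y : σ → K),
    IsFF bl y ∧ Algebra.trdeg ℂ K = 4 ∧ (∀ x ∈ Var bl y, SmoothAt bl y 4 x) ∧
    TorChain bl (Var bl y) ∧ TwoForms bl y 4 := by
  obtain ⟨σ, β, i1, i2, bl, K, i3, i4, y, h1, h2, h3, h4, ω, f, h5, h6, h7⟩ := main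
  refine ⟨σ, β, i1, i2, bl, K, i3, i4, y, h1, ?_, h3, h4, ω, f, h5, h6, h7⟩
  rw [h2]
  norm_num

end Pool.Agent.H56.TC
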