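import Pool.Agent.H56.TC.Defs
import Pool.Agent.H56.TC.VAL

/-!
Part GEN. Generators of the maximal ideal. Let `f Q(y) = P(y)`, `P(x) = 0`, `Q(x) ≠ 0`
(`LR.zero`, `MaxId`). With `y' s = y s / y (s0 (bl s))`, `x' s = x s / x (s0 (bl s))` we have
`P(y) = (∏ y (s0 b) ^ d b) P(y')` (`aeval_scale`), so `f Q(y') = P(y')`. `P(y') ≡ P(x') = 0` modulo `I`
(`P` is a polynomial, compute in `O ⧸ I`), `Q(y') ∈ O` has value `Q(x') ≠ 0`, so its inverse is in `O`.
-/

set_option autoImplicit false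

namespace Pool.Agent.H56.TC

open MvPolynomial

theorem GEN_scale {σ β R : Type} [Field R] [Algebra ℂ R] {bl : σ → β} {d : β →₀ ℕ}
    {P : MvPolynomial σ ℂ} (hP : MHom bl d P) (y : σ → R) (s0 : β → σ)
    (hne : ∀ b, y (s0 b) ≠ 0) :
    aeval y P = (d.prod fun b n => y (s0 b) ^ n) * aeval (fun s => y s / y (s0 (bl s))) P := by
  rw [← aeval_scale hP (fun b => y (s0 b)) (fun s => y s / y (s0 (bl s)))]
  congr 2
  funext s
  rw [mul_div_cancel₀ _ (hne _)]

theorem GEN_prod_ne {σ β R : Type} [Field R] (d : β →₀ ℕ) (y : σ → R) (s0 : β → σ)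
    (hne : ∀ b, y (s0 b) ≠ 0) : (d.prod fun b n => y (s0 b) ^ n) ≠ 0 := by
  rw [Finsupp.prod]
  exact Finset.prod_ne_zero_iff.2 fun b _ => pow_ne_zero _ (hne b)

theorem LR.mem_of_coord {σ β K : Type} [Field K] [Algebra ℂ K] {bl : σ → β} {y : σ → K}
    {x : σ → ℂ} {O : Subalgebra ℂ K} {ev : O →ₐ[ℂ] ℂ} (hO : LR bl y x O ev)
    (hx : x ∈ Var bl y) (s0 : β → σ) (hs0 : ∀ b, bl (s0 b) = b) (hne : ∀ b, x (s0 b) ≠ 0)
    (I : Ideal O) (hI : ∀ s, ∃ hs : y s / y (s0 (bl s)) ∈ O,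
      (⟨y s / y (s0 (bl s)), hs⟩ : O) - algebraMap ℂ O (x s / x (s0 (bl s))) ∈ I)
    (f : O) (hf : ev f = 0) : f ∈ I := by
  obtain ⟨d, P, Q, hP, hQ, hQx, hPx, hfe⟩ := (hO.zero f).1 hf
  have hyne : ∀ b, y (s0 b) ≠ 0 := by
    intro b h0
    apply hne b
    have := hx.2 _ _ (MHom.X bl (s0 b)) (by rw [aeval_X]; exact h0)
    rwa [aeval_X] at this
  choose hm hmI using hI
  set y' : σ → O := fun s => ⟨y s / y (s0 (bl s)), hm s⟩ with hy'
  have hcoe : ∀ R : MvPolynomial σ ℂ,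
      aeval (fun s => y s / y (s0 (bl s))) R = ((aeval y' R : O) : K) := by
    intro R
    exact SCL_aeval_hom O.val y' R
  have hev : ∀ s, ev (y' s) = x s / x (s0 (bl s)) := by
    intro s
    obtain ⟨hm', h⟩ := hO.ratio hx (s := s) (s' := s0 (bl s)) (hs0 _).symm (hne _)
    exact h
  -- the relation in O
  have hrel : f * aeval y' Q = aeval y' P := by
    apply Subtype.ext
    push_cast
    rw [← hcoe, ← hcoe]
    rw [GEN_scale hQ y s0 hyne, GEN_scale hP y s0 hyne] at hfe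
    apply mul_left_cancel₀ (GEN_prod_ne d y s0 hyne)
    rw [← hfe]; ring
  have hPx' : aeval (fun s => x s / x (s0 (bl s))) P = 0 := by
    have h1 := GEN_scale hP x s0 hne
    rw [hPx] at h1
    rcases mul_eq_zero.1 h1.symm with h | h
    · exact absurd h (GEN_prod_ne d x s0 hne)
    · exact h
  have hQx' : aeval (fun s => x s / x (s0 (bl s))) Q ≠ 0 := by
    intro h0
    apply hQx
    rw [GEN_scale hQ x s0 hne, h0, mul_zero]
  have hPI : aeval y' P ∈ I := by
    have h1 : Ideal.Quotient.mkₐ ℂ I (aeval y' P) = 0 := by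
      rw [← SCL_aeval_hom (Ideal.Quotient.mkₐ ℂ I) y' P]
      have e : (fun s => Ideal.Quotient.mkₐ ℂ I (y' s)) =
          fun s => Algebra.ofId ℂ (O ⧸ I) (x s / x (s0 (bl s))) := by
        funext s
        have h2 : Ideal.Quotient.mkₐ ℂ I (y' s - algebraMap ℂ O (x s / x (s0 (bl s)))) = 0 := by
          rw [Ideal.Quotient.mkₐ_eq_mk]
          exact Ideal.Quotient.eq_zero_iff_mem.2 (hmI s)
        rw [map_sub, AlgHom.commutes, sub_eq_zero] at h2
        rw [h2]; rfl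
      rw [e, SCL_aeval_hom (Algebra.ofId ℂ (O ⧸ I)) (fun s => x s / x (s0 (bl s))) P, hPx',
        map_zero]
    rw [Ideal.Quotient.mkₐ_eq_mk] at h1
    exact Ideal.Quotient.eq_zero_iff_mem.1 h1
  have hQev : ev (aeval y' Q) ≠ 0 := by
    rw [← SCL_aeval_hom ev y' Q]
    have e : (fun s => ev (y' s)) = fun s => x s / x (s0 (bl s)) := funext hev
    rw [e]
    exact hQx'
  have hinv := hO.inv _ hQev
  have hne' : ((aeval y' Q : O) : K) ≠ 0 := by
    intro h0
    apply hQev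
    have : aeval y' Q = 0 := Subtype.ext h0
    rw [this, map_zero]
  have hfin : f = (⟨((aeval y' Q : O) : K)⁻¹, hinv⟩ : O) * (aeval y' P) := by
    rw [← hrel]
    apply Subtype.ext
    push_cast
    field_simp
  rw [hfin]
  exact I.mul_mem_left _ hPI

end Pool.Agent.H56.TC
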