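import Pool.Agent.H56.TC.Defs

/-!
Part NZE. The form is not zero and `λ` is not constant.
-/

set_option autoImplicit false

namespace Pool.Agent.H56.TC

open MvPolynomial

theorem NZE_rel {R : Type} [CommRing R] [Algebra ℂ R] (f : Polynomial ℂ →ₐ[ℂ] R) (k : Fin 3)
    (h w : R) (hw : w ^ 3 = h ^ 3 + (f Polynomial.X ^ 3 + algebraMap ℂ R (cc k))) :
    Rel f (zX k) h w := by
  constructor
  · intro b hb
    have hb' : Polynomial.X ^ 3 + Polynomial.C (cc k) = b := Sum.inl_injective hb
    rw [hw, ← hb', map_add, map_pow]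
    congr 2
    exact (f.commutes (cc k)).symm
  · intro c hc
    exact absurd hc (by simp [zX])

/-- homomorphisms to `ℂ` with a prescribed value of `λ` -/
theorem NZE_pt {B : Type} [CommRing B] [Algebra ℂ B]
    {i₀ : Polynomial ℂ →ₐ[ℂ] B} {h w : Fin 3 → B} (hT : IsTower i₀ zX h w) (μ : ℂ) :
    ∃ g : B →ₐ[ℂ] ℂ, g (i₀ Polynomial.X) = μ ∧ ∀ k, g (w k) ^ 3 = μ ^ 3 + cc k := by
  have hroot : ∀ k : Fin 3, ∃ c : ℂ, c ^ 3 = μ ^ 3 + cc k := fun k =>
    IsAlgClosed.exists_pow_nat_eq _ (by norm_num)
  choose c hc using hroot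
  obtain ⟨g, hg1, hg2, hg3⟩ := hT.univ ℂ (Polynomial.aeval μ) (fun _ => 0) c (fun k => by
    apply NZE_rel
    rw [hc, Polynomial.aeval_X]
    simp)
  refine ⟨g, ?_, fun k => ?_⟩
  · rw [hg1, Polynomial.aeval_X]
  · rw [hg3, hc]

theorem lam_not_const {B : Type} [CommRing B] [IsDomain B] [Algebra ℂ B]
    {i₀ : Polynomial ℂ →ₐ[ℂ] B} {h w : Fin 3 → B} (hT : IsTower i₀ zX h w) :
    algebraMap B (FractionRing B) (i₀ Polynomial.X) ∉
      Set.range (algebraMap ℂ (FractionRing B)) := by
  rintro ⟨c, hc⟩
  rw [IsScalarTower.algebraMap_apply ℂ B (FractionRing B)] at hc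
  have hc' := IsFractionRing.injective B (FractionRing B) hc
  obtain ⟨g, hg, _⟩ := NZE_pt hT (c + 1)
  rw [← hc', g.commutes] at hg
  have h1 : c = c + 1 := hg
  simp at h1

theorem NZE_w_ne {B : Type} [CommRing B] [Algebra ℂ B]
    {i₀ : Polynomial ℂ →ₐ[ℂ] B} {h w : Fin 3 → B} (hT : IsTower i₀ zX h w) (k : Fin 3) :
    w k ≠ 0 := by
  intro h0
  obtain ⟨g, _, hg⟩ := NZE_pt hT 0
  have h1 := hg k
  rw [h0, map_zero] at h1
  have h2 : cc k ≠ 0 := by
    unfold cc
    exact Nat.cast_add_one_ne_zero _
  apply h2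
  rw [zero_pow (by norm_num), zero_add] at h1
  exact h1.symm

theorem exists_derivation {B : Type} [CommRing B] [IsDomain B] [Algebra ℂ B]
    {i₀ : Polynomial ℂ →ₐ[ℂ] B} {h w : Fin 3 → B} (hT : IsTower i₀ zX h w)
    (p₀ : FractionRing B) (p : Fin 3 → FractionRing B) :
    ∃ δ : Derivation ℂ (FractionRing B) (FractionRing B),
      δ (algebraMap B (FractionRing B) (i₀ Polynomial.X)) = p₀ ∧
        ∀ k, δ (algebraMap B (FractionRing B) (h k)) = p k := by
  have hw : ∀ k, algebraMap B (FractionRing B) (w k) ≠ 0 := fun k h0 =>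
    NZE_w_ne hT k (IsFractionRing.injective B (FractionRing B) (by rw [h0, map_zero]))
  have hrel : ∀ k, algebraMap B (FractionRing B) (w k) ^ 3 =
      algebraMap B (FractionRing B) (h k) ^ 3 +
        (algebraMap B (FractionRing B) (i₀ Polynomial.X) ^ 3 +
          algebraMap ℂ (FractionRing B) (cc k)) := by
    intro k
    have h1 := (hT.rel k).1 _ rfl
    have h2 := congrArg (algebraMap B (FractionRing B)) h1
    rw [map_pow, map_add, map_pow, map_add, map_pow, map_add, map_pow] at h2
    rw [h2, IsScalarTower.algebraMap_apply ℂ B (FractionRing B)]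
    congr 3
    exact i₀.commutes (cc k)
  obtain ⟨g, hg1, hg2, hg3⟩ := hT.univ (TrivSqZeroExt (FractionRing B) (FractionRing B))
    (Polynomial.aeval (TrivSqZeroExt.inl (algebraMap B (FractionRing B) (i₀ Polynomial.X)) +
      TrivSqZeroExt.inr p₀))
    (fun k => TrivSqZeroExt.inl (algebraMap B (FractionRing B) (h k)) + TrivSqZeroExt.inr (p k))
    (fun k => TrivSqZeroExt.inl (algebraMap B (FractionRing B) (w k)) + TrivSqZeroExt.inr
      ((algebraMap B (FractionRing B) (h k) ^ 2 * p k +
        algebraMap B (FractionRing B) (i₀ Polynomial.X) ^ 2 * p₀) /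
          algebraMap B (FractionRing B) (w k) ^ 2)) (fun k => by
      apply NZE_rel
      rw [Polynomial.aeval_X]
      have h3 := hrel k
      have h4 := hw k
      ext
      · simp [pow_succ, TrivSqZeroExt.algebraMap_eq_inl'] at h3 ⊢
        linear_combination h3
      · simp [pow_succ, TrivSqZeroExt.algebraMap_eq_inl'] at h3 ⊢
        field_simp)
  have hfst : ∀ b : B, (g b).fst = algebraMap B (FractionRing B) b := by
    let f₁ : B →ₐ[ℂ] FractionRing B :=
      (TrivSqZeroExt.fstHom ℂ (FractionRing B) (FractionRing B)).comp g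
    let f₂ : B →ₐ[ℂ] FractionRing B := IsScalarTower.toAlgHom ℂ B (FractionRing B)
    have hX : f₁.comp i₀ = f₂.comp i₀ := by
      apply Polynomial.algHom_ext
      show (g (i₀ Polynomial.X)).fst = algebraMap B (FractionRing B) (i₀ Polynomial.X)
      rw [hg1, Polynomial.aeval_X]
      simp
    have htop := hT.gen (AlgHom.equalizer f₁ f₂) (fun a => by
        rw [AlgHom.mem_equalizer]
        exact DFunLike.congr_fun hX a) (fun k => by
        rw [AlgHom.mem_equalizer]
        show (g (h k)).fst = algebraMap B (FractionRing B) (h k)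
        rw [hg2]
        simp) (fun k => by
        rw [AlgHom.mem_equalizer]
        show (g (w k)).fst = algebraMap B (FractionRing B) (w k)
        rw [hg3]
        simp)
    intro b
    have hb : b ∈ AlgHom.equalizer f₁ f₂ := by rw [htop]; trivial
    rw [AlgHom.mem_equalizer] at hb
    exact hb
  have hu : ∀ y : nonZeroDivisors B, IsUnit (g y) := by
    intro y
    rw [TrivSqZeroExt.isUnit_iff_isUnit_fst, hfst]
    exact IsLocalization.map_units (FractionRing B) y
  let G : FractionRing B →ₐ[ℂ] TrivSqZeroExt (FractionRing B) (FractionRing B) :=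
    IsLocalization.liftAlgHom (M := nonZeroDivisors B) (S := FractionRing B) (f := g) hu
  have hG : ∀ b : B, G (algebraMap B (FractionRing B) b) = g b := by
    intro b
    exact IsLocalization.lift_eq hu b
  have hGfst : ∀ x : FractionRing B, (G x).fst = x := by
    have h1 : ((TrivSqZeroExt.fstHom ℂ (FractionRing B) (FractionRing B)).comp G : FractionRing B →+* FractionRing B) =
        RingHom.id (FractionRing B) := by
      apply IsLocalization.ringHom_ext (nonZeroDivisors B)
      ext b
      show (G (algebraMap B (FractionRing B) b)).fst = algebraMap B (FractionRing B) b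
      rw [hG, hfst]
    intro x
    exact DFunLike.congr_fun h1 x
  refine ⟨Derivation.mk'
    ((TrivSqZeroExt.sndHom (FractionRing B) (FractionRing B)).restrictScalars ℂ ∘ₗ G.toLinearMap)
    ?_, ?_, ?_⟩
  · intro a b
    show (G (a * b)).snd = a • (G b).snd + b • (G a).snd
    rw [map_mul, TrivSqZeroExt.snd_mul, hGfst, hGfst]
    simp [mul_comm]
  · show (G (algebraMap B (FractionRing B) (i₀ Polynomial.X))).snd = p₀
    rw [hG, hg1, Polynomial.aeval_X]
    simp
  · intro k
    show (G (algebraMap B (FractionRing B) (h k))).snd = p k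
    rw [hG, hg2]
    simp

theorem NZE_multi {K : Type} [Field K] [Algebra ℂ K] (x : Fin 4 → K)
    (δ : Fin 4 → Derivation ℂ K K) (hδ : ∀ m n, δ m (x n) = if n = m then 1 else 0) :
    ExteriorAlgebra.ιMulti K 4 (fun n => KaehlerDifferential.D ℂ K (x n)) ≠ 0 := by
  let F : AlternatingMap K (KaehlerDifferential ℂ K) K (Fin 4) :=
    (Matrix.detRowAlternating (n := Fin 4) (R := K)).compLinearMap
      (LinearMap.pi fun m => (δ m).liftKaehlerDifferential)
  have hF : F (fun n => KaehlerDifferential.D ℂ K (x n)) = 1 := by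
    show Matrix.det (fun n m => (δ m).liftKaehlerDifferential (KaehlerDifferential.D ℂ K (x n))) = 1
    have h1 : (fun n m => (δ m).liftKaehlerDifferential (KaehlerDifferential.D ℂ K (x n))) =
        (1 : Matrix (Fin 4) (Fin 4) K) := by
      ext n m
      rw [Derivation.liftKaehlerDifferential_comp_D, hδ, Matrix.one_apply]
    rw [h1, Matrix.det_one]
  intro h0
  have h2 := congrArg (ExteriorAlgebra.liftAlternating (R := K)
    (M := KaehlerDifferential ℂ K) (N := K) (Function.update 0 4 F)) h0
  rw [ExteriorAlgebra.liftAlternating_apply_ιMulti, map_zero, Function.update_self, hF] at h2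
  exact one_ne_zero h2

theorem omega0_ne_zero {B : Type} [CommRing B] [IsDomain B] [Algebra ℂ B]
    {i₀ : Polynomial ℂ →ₐ[ℂ] B} {h w : Fin 3 → B} (hT : IsTower i₀ zX h w) :
    omega0 (algebraMap B (FractionRing B) (i₀ Polynomial.X)) (fr h) (fr w) ≠ 0 := by
  have hw : ∀ k, fr w k ≠ 0 := fun k h0 =>
    NZE_w_ne hT k (IsFractionRing.injective B (FractionRing B) (by
      rw [map_zero]
      exact h0))
  -- the dual derivations
  have hδ : ∀ m : Fin 4, ∃ δ : Derivation ℂ (FractionRing B) (FractionRing B),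
      δ (algebraMap B (FractionRing B) (i₀ Polynomial.X)) = (if 0 = m then 1 else 0) ∧
        ∀ k : Fin 3, δ (algebraMap B (FractionRing B) (h k)) = (if k.succ = m then 1 else 0) :=
    fun m => exists_derivation hT _ _
  choose δ hδ0 hδ1 using hδ
  have hne := NZE_multi ![algebraMap B (FractionRing B) (i₀ Polynomial.X), fr h 0, fr h 1,
    fr h 2] δ (by
      intro m n
      fin_cases n
      · exact hδ0 m
      · exact hδ1 m 0
      · exact hδ1 m 1
      · exact hδ1 m 2)
  have he : (fun n => KaehlerDifferential.D ℂ (FractionRing B)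
      ((![algebraMap B (FractionRing B) (i₀ Polynomial.X), fr h 0, fr h 1, fr h 2] :
        Fin 4 → FractionRing B) n)) =
      ![KaehlerDifferential.D ℂ _ (algebraMap B (FractionRing B) (i₀ Polynomial.X)),
        KaehlerDifferential.D ℂ _ (fr h 0), KaehlerDifferential.D ℂ _ (fr h 1),
        KaehlerDifferential.D ℂ _ (fr h 2)] := by
    funext n
    fin_cases n <;> rfl
  rw [he] at hne
  unfold omega0
  refine smul_ne_zero (inv_ne_zero (pow_ne_zero 2 ?_)) hne
  exact mul_ne_zero (mul_ne_zero (hw 0) (hw 1)) (hw 2)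

end Pool.Agent.H56.TC
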