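import Pool.Agent.H56.TC.Defs

/-!
Part SMA. Local algebra. `O` is a local ring through `ev` and `hinv`. Cube root lemma: if
`z ^ 3 - (ev z) ^ 3 ∈ I` and `ev z ≠ 0` then `z - ev z ∈ I`, because `z ^ 2 + z ev z + (ev z) ^ 2` has value
`3 (ev z) ^ 2 ≠ 0`, so it is invertible in `O`.
`sm_surface`: some `q j`, `j ≠ d`, has `ev (q j) ≠ 0` (apply `ev` to the relation); let `p₁, p₂` be `q e - ev (q e)` for the
two remaining `e ∉ {d, j}`; the relation minus its value shows `(q j) ^ 3 - (ev (q j)) ^ 3 ∈ span {p₁, p₂}`.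
`sm_curve`: if `ev ε ≠ 0` take `p = v - ev v` (cube root lemma for `ε`); if `ev ε = 0` take `p = ε`: then
`(ev v) ^ 3 ev g = σ₁ ≠ 0`, `g (v ^ 3 - (ev v) ^ 3) + (g - ev g) (ev v) ^ 3 = σ₂ ε ^ 3`, and `g` is a unit.
-/

set_option autoImplicit false

namespace Pool.Agent.H56.TC

open MvPolynomial

/-- elements of nonzero value are units -/
theorem sma_unit {K : Type} [Field K] [Algebra ℂ K] {O : Subalgebra ℂ K} {ev : O →ₐ[ℂ] ℂ}
    (hinv : ∀ f : O, ev f ≠ 0 → (f : K)⁻¹ ∈ O) (u : O) (hu : ev u ≠ 0) (I : Ideal O) (z : O)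
    (h : u * z ∈ I) : z ∈ I := by
  have hne : (u : K) ≠ 0 := by
    intro h0
    apply hu
    have : u = 0 := Subtype.ext h0
    rw [this, map_zero]
  have hz : z = (⟨(u : K)⁻¹, hinv u hu⟩ : O) * (u * z) := by
    apply Subtype.ext
    push_cast
    field_simp
  rw [hz]
  exact I.mul_mem_left _ h

theorem sma_ev {K : Type} [Field K] [Algebra ℂ K] {O : Subalgebra ℂ K} (ev : O →ₐ[ℂ] ℂ) (a : ℂ) :
    ev (algebraMap ℂ O a) = a := by
  rw [AlgHom.commutes]; rfl

theorem sma_cube {K : Type} [Field K] [Algebra ℂ K] {O : Subalgebra ℂ K} {ev : O →ₐ[ℂ] ℂ}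
    (hinv : ∀ f : O, ev f ≠ 0 → (f : K)⁻¹ ∈ O) (I : Ideal O) (z : O) (hz : ev z ≠ 0)
    (h : z ^ 3 - algebraMap ℂ O (ev z) ^ 3 ∈ I) : z - algebraMap ℂ O (ev z) ∈ I := by
  apply sma_unit hinv (z ^ 2 + z * algebraMap ℂ O (ev z) + algebraMap ℂ O (ev z) ^ 2) _ I
  · have e : (z ^ 2 + z * algebraMap ℂ O (ev z) + algebraMap ℂ O (ev z) ^ 2) *
      (z - algebraMap ℂ O (ev z)) = z ^ 3 - algebraMap ℂ O (ev z) ^ 3 := by ring
    rw [e]; exact h
  · simp only [map_add, map_mul, map_pow, sma_ev]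
    have : ev z ^ 2 + ev z * ev z + ev z ^ 2 = 3 * ev z ^ 2 := by ring
    rw [this]
    exact mul_ne_zero (by norm_num) (pow_ne_zero _ hz)

theorem sma_pow {K : Type} [Field K] [Algebra ℂ K] {O : Subalgebra ℂ K} (I : Ideal O) (z c : O)
    (h : z - c ∈ I) : z ^ 3 - c ^ 3 ∈ I := by
  have e : z ^ 3 - c ^ 3 = (z ^ 2 + z * c + c ^ 2) * (z - c) := by ring
  rw [e]; exact I.mul_mem_left _ h

theorem sm_surface {K : Type} [Field K] [Algebra ℂ K] {O : Subalgebra ℂ K} {ev : O →ₐ[ℂ] ℂ}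
    (hinv : ∀ f : O, ev f ≠ 0 → (f : K)⁻¹ ∈ O) (s : Fin 4 → ℂ) (hs : ∀ e, s e ≠ 0) (d : Fin 4)
    (q : Fin 4 → O) (hq : q d = 1) (hrel : ∑ e, algebraMap ℂ O (s e) * q e ^ 3 = 0) :
    ∃ p₁ p₂ : O, ev p₁ = 0 ∧ ev p₂ = 0 ∧
      ∀ e, q e - algebraMap ℂ O (ev (q e)) ∈ Ideal.span {p₁, p₂} := by
  have hval : ∑ e, s e * ev (q e) ^ 3 = 0 := by
    have := congrArg ev hrel
    simp only [map_sum, map_mul, map_pow, sma_ev, map_zero] at this
    exact this
  have hj : ∃ j, j ≠ d ∧ ev (q j) ≠ 0 := by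
    by_contra hcon
    push Not at hcon
    have h1 : ∑ e, s e * ev (q e) ^ 3 = s d := by
      rw [Finset.sum_eq_single d]
      · rw [hq, map_one]; ring
      · intro e _ he
        rw [hcon e he]; ring
      · intro h; exact absurd (Finset.mem_univ _) h
    exact hs d (by rw [← h1, hval])
  obtain ⟨j, hjd, hj0⟩ := hj
  have hrem : ∃ e1 e2 : Fin 4, ∀ e, e = d ∨ e = j ∨ e = e1 ∨ e = e2 := by
    clear hval hrel hq hj0
    revert d j
    decide
  obtain ⟨e1, e2, he⟩ := hrem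
  refine ⟨q e1 - algebraMap ℂ O (ev (q e1)), q e2 - algebraMap ℂ O (ev (q e2)), ?_, ?_, ?_⟩
  · rw [map_sub, sma_ev, sub_self]
  · rw [map_sub, sma_ev, sub_self]
  set I : Ideal O := Ideal.span {q e1 - algebraMap ℂ O (ev (q e1)),
    q e2 - algebraMap ℂ O (ev (q e2))} with hI
  have hother : ∀ e, e ≠ j → q e - algebraMap ℂ O (ev (q e)) ∈ I := by
    intro e hej
    rcases he e with h | h | h | h
    · rw [h, hq, map_one, map_one, sub_self]; exact I.zero_mem
    · exact absurd h hej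
    · rw [h]; exact Ideal.subset_span (by simp)
    · rw [h]; exact Ideal.subset_span (by simp)
  have hjm : q j - algebraMap ℂ O (ev (q j)) ∈ I := by
    apply sma_cube hinv I _ hj0
    apply sma_unit hinv (algebraMap ℂ O (s j)) (by rw [sma_ev]; exact hs j) I
    have e0 : ∑ e, algebraMap ℂ O (s e) * (q e ^ 3 - algebraMap ℂ O (ev (q e)) ^ 3) = 0 := by
      have h2 : ∑ e, algebraMap ℂ O (s e) * algebraMap ℂ O (ev (q e)) ^ 3 = 0 := by
        have := congrArg (algebraMap ℂ O) hval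
        simp only [map_sum, map_mul, map_pow, map_zero] at this
        exact this
      simp only [mul_sub, Finset.sum_sub_distrib, hrel, h2, sub_self]
    rw [← Finset.add_sum_erase _ _ (Finset.mem_univ j)] at e0
    rw [eq_neg_of_add_eq_zero_left e0]
    apply I.neg_mem
    apply I.sum_mem
    intro e hee
    exact I.mul_mem_left _ (sma_pow I _ _ (hother e (Finset.ne_of_mem_erase hee)))
  intro e
  by_cases hej : e = j
  · rw [hej]; exact hjm
  · exact hother e hej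

theorem sm_curve {K : Type} [Field K] [Algebra ℂ K] {O : Subalgebra ℂ K} {ev : O →ₐ[ℂ] ℂ}
    (hinv : ∀ f : O, ev f ≠ 0 → (f : K)⁻¹ ∈ O) (v ε g : O) (σ₁ σ₂ : ℂ) (h1 : σ₁ ≠ 0)
    (h2 : σ₂ ≠ 0) (hrel : v ^ 3 * g = algebraMap ℂ O σ₁ + algebraMap ℂ O σ₂ * ε ^ 3)
    (I : Ideal O) (hI : ∀ f ∈ I, ev f = 0) (hg : g - algebraMap ℂ O (ev g) ∈ I) :
    ∃ p : O, ev p = 0 ∧ v - algebraMap ℂ O (ev v) ∈ I ⊔ Ideal.span {p} ∧
      ε - algebraMap ℂ O (ev ε) ∈ I ⊔ Ideal.span {p} := by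
  have hval : ev v ^ 3 * ev g = σ₁ + σ₂ * ev ε ^ 3 := by
    have := congrArg ev hrel
    simp only [map_add, map_mul, map_pow, sma_ev] at this
    exact this
  have hval' : algebraMap ℂ O (ev v) ^ 3 * algebraMap ℂ O (ev g) =
      algebraMap ℂ O σ₁ + algebraMap ℂ O σ₂ * algebraMap ℂ O (ev ε) ^ 3 := by
    have := congrArg (algebraMap ℂ O) hval
    simp only [map_add, map_mul, map_pow] at this
    exact this
  by_cases hε : ev ε = 0
  · refine ⟨ε, hε, ?_, ?_⟩
    · set J : Ideal O := I ⊔ Ideal.span {ε} with hJ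
      have hv : ev v ≠ 0 := by
        intro h0
        rw [h0, hε] at hval
        apply h1
        linear_combination -hval
      have hgne : ev g ≠ 0 := by
        intro h0
        rw [h0, hε] at hval
        apply h1
        linear_combination -hval
      apply sma_cube hinv J _ hv
      apply sma_unit hinv g hgne J
      have e0 : g * (v ^ 3 - algebraMap ℂ O (ev v) ^ 3) =
          algebraMap ℂ O σ₂ * ε ^ 2 * ε - (algebraMap ℂ O (ev v) ^ 3) * (g - algebraMap ℂ O (ev g)) := by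
        rw [hε, map_zero] at hval'
        linear_combination hrel - hval'
      rw [e0]
      apply J.sub_mem
      · exact J.mul_mem_left _ (Ideal.mem_sup_right (Ideal.mem_span_singleton_self ε))
      · exact J.mul_mem_left _ (Ideal.mem_sup_left hg)
    · rw [hε, map_zero, sub_zero]
      exact Ideal.mem_sup_right (Ideal.mem_span_singleton_self ε)
  · refine ⟨v - algebraMap ℂ O (ev v), ?_, ?_, ?_⟩
    · rw [map_sub, sma_ev, sub_self]
    · exact Ideal.mem_sup_right (Ideal.mem_span_singleton_self _)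
    · set J : Ideal O := I ⊔ Ideal.span {v - algebraMap ℂ O (ev v)} with hJ
      apply sma_cube hinv J _ hε
      apply sma_unit hinv (algebraMap ℂ O σ₂) (by rw [sma_ev]; exact h2) J
      have e0 : algebraMap ℂ O σ₂ * (ε ^ 3 - algebraMap ℂ O (ev ε) ^ 3) =
          g * (v ^ 3 - algebraMap ℂ O (ev v) ^ 3) +
            (algebraMap ℂ O (ev v) ^ 3) * (g - algebraMap ℂ O (ev g)) := by
        linear_combination hval' - hrel
      rw [e0]
      apply J.add_mem
      · exact J.mul_mem_left _ (sma_pow J _ _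
          (Ideal.mem_sup_right (Ideal.mem_span_singleton_self _)))
      · exact J.mul_mem_left _ (Ideal.mem_sup_left hg)

end Pool.Agent.H56.TC
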