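import Pool.Agent.H56.TC.Defs
import Pool.Agent.H56.TC.VAL
import Pool.Agent.H56.TC.GEN
import Pool.Agent.H56.TC.CHA
import Pool.Agent.H56.TC.SMA
import Pool.Agent.H56.TC.REL

/-!
Part SMO. Smoothness. Take `O, ev` from `exists_LR`, `i, dd` from `chart`, write `Y k e` for the coordinates of the
generic point. Put `q e = Y i e / Y i (dd i)`, and for `k = i+1, i+2`: `v k = Y i (dd i) / Y k (dd k)`,
`ε k = Y k (dd' k) / Y k (dd k)`, `{dd k, dd' k} = {2, 3}`, `g k = q 0 ^ 3 + cc k q 1 ^ 3` (all in `O` by `chart_mem`).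
`Y k 3 ^ 3 = Y k 2 ^ 3 + Y k 0 ^ 3 + cc k Y k 1 ^ 3` and `Y k 0 = Y i 0`, `Y k 1 = Y i 1 = 1` give the relations for
`sm_surface` (`s = (1, cc i, 1, -1)`) and `sm_curve` (`σ₁, σ₂ = ±1`). This gives `p₁, p₂, p₃, p₄`; `I = span` of them. All of
`q e, v k, ε k` are constants modulo `I`, hence so are all `Y s / Y (s0 (bl s))`, with `s0 (some k) = inl (k, dd k)`,
`s0 none = inr (i, dd (i+1), dd (i+2))`: block `some k`: `Y k 0 / Y k (dd k) = v k q 0`, etc.; block `none`: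
`inr (i, e, e')`: `z (i+1) e * z (i+2) e'`; `inr (i+1, e, e')`: `z (i+2) e * q e' * v (i+1)`; `inr (i+2, e, e')`:
`q e * z (i+1) e' * v (i+2)`, `z k e = Y k e / Y k (dd k)`. The constants are the values (apply `ev`; `I ⊆ ker ev`), and
`LR.mem_of_coord` finishes.
-/

set_option autoImplicit false

namespace Pool.Agent.H56.TC

open MvPolynomial

lemma smo_rel {B : Type} [CommRing B] [IsDomain B] [Algebra ℂ B]
    {i₀ : Polynomial ℂ →ₐ[ℂ] B} {h w : Fin 3 → B} (hT : IsTower i₀ zX h w) (k : Fin 3) :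
    fr (yB i₀ h w) (Sum.inl (k, 3)) ^ 3 = fr (yB i₀ h w) (Sum.inl (k, 2)) ^ 3 +
      fr (yB i₀ h w) (Sum.inl (k, 0)) ^ 3 +
      algebraMap ℂ (FractionRing B) (cc k) * fr (yB i₀ h w) (Sum.inl (k, 1)) ^ 3 := by
  have h1 := (hT.rel k).1 (Polynomial.X ^ 3 + Polynomial.C (cc k)) rfl
  rw [map_add, map_pow] at h1
  have h2 : i₀ (Polynomial.C (cc k)) = algebraMap ℂ B (cc k) := i₀.commutes (cc k)
  rw [h2] at h1
  have h3 := congrArg (algebraMap B (FractionRing B)) h1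
  simp only [map_add, map_pow] at h3
  rw [← IsScalarTower.algebraMap_apply ℂ B (FractionRing B)] at h3
  have e0 : fr (yB i₀ h w) (Sum.inl (k, 0)) =
      algebraMap B (FractionRing B) (i₀ Polynomial.X) := by
    change algebraMap B (FractionRing B) (i₀ Polynomial.X * 1) = _
    rw [mul_one]
  have e1 : fr (yB i₀ h w) (Sum.inl (k, 1)) = 1 := by
    change algebraMap B (FractionRing B) (1 * 1) = _
    rw [mul_one, map_one]
  have e2 : fr (yB i₀ h w) (Sum.inl (k, 2)) = algebraMap B (FractionRing B) (h k) := rfl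
  have e3 : fr (yB i₀ h w) (Sum.inl (k, 3)) = algebraMap B (FractionRing B) (w k) := rfl
  rw [e0, e1, e2, e3, h3]
  ring

lemma smo_coord {B : Type} [CommRing B] [IsDomain B] [Algebra ℂ B]
    (i₀ : Polynomial ℂ →ₐ[ℂ] B) (h w : Fin 3 → B) (k k' : Fin 3) :
    fr (yB i₀ h w) (Sum.inl (k, 0)) = fr (yB i₀ h w) (Sum.inl (k', 0)) ∧
    fr (yB i₀ h w) (Sum.inl (k, 1)) = fr (yB i₀ h w) (Sum.inl (k', 1)) := ⟨rfl, rfl⟩

/-- `f` is constant modulo `J` -/
def SmoCst {K : Type} [Field K] [Algebra ℂ K] {O : Subalgebra ℂ K} (ev : O →ₐ[ℂ] ℂ)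
    (J : Ideal O) (f : O) : Prop := f - algebraMap ℂ O (ev f) ∈ J

lemma SmoCst.mul {K : Type} [Field K] [Algebra ℂ K] {O : Subalgebra ℂ K} {ev : O →ₐ[ℂ] ℂ}
    {J : Ideal O} {f g : O} (hf : SmoCst ev J f) (hg : SmoCst ev J g) : SmoCst ev J (f * g) := by
  unfold SmoCst at *
  have h1 : f * g - algebraMap ℂ O (ev (f * g)) =
      f * (g - algebraMap ℂ O (ev g)) + algebraMap ℂ O (ev g) * (f - algebraMap ℂ O (ev f)) := by
    rw [map_mul, map_mul]; ring
  rw [h1]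
  exact J.add_mem (J.mul_mem_left _ hg) (J.mul_mem_left _ hf)

lemma SmoCst.add {K : Type} [Field K] [Algebra ℂ K] {O : Subalgebra ℂ K} {ev : O →ₐ[ℂ] ℂ}
    {J : Ideal O} {f g : O} (hf : SmoCst ev J f) (hg : SmoCst ev J g) : SmoCst ev J (f + g) := by
  unfold SmoCst at *
  have h1 : f + g - algebraMap ℂ O (ev (f + g)) =
      (f - algebraMap ℂ O (ev f)) + (g - algebraMap ℂ O (ev g)) := by
    rw [map_add, map_add]; ring
  rw [h1]
  exact J.add_mem hf hg

lemma SmoCst.const {K : Type} [Field K] [Algebra ℂ K] {O : Subalgebra ℂ K} (ev : O →ₐ[ℂ] ℂ)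
    (J : Ideal O) (c : ℂ) : SmoCst ev J (algebraMap ℂ O c) := by
  unfold SmoCst
  rw [AlgHom.commutes]
  simp

lemma SmoCst.one {K : Type} [Field K] [Algebra ℂ K] {O : Subalgebra ℂ K} (ev : O →ₐ[ℂ] ℂ)
    (J : Ideal O) : SmoCst ev J (1 : O) := by
  have := SmoCst.const ev J (1 : ℂ)
  rwa [map_one] at this

lemma SmoCst.pow {K : Type} [Field K] [Algebra ℂ K] {O : Subalgebra ℂ K} {ev : O →ₐ[ℂ] ℂ}
    {J : Ideal O} {f : O} (hf : SmoCst ev J f) (n : ℕ) : SmoCst ev J (f ^ n) := by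
  induction n with
  | zero => rw [pow_zero]; exact SmoCst.one ev J
  | succ n ih => rw [pow_succ]; exact ih.mul hf

lemma SmoCst.mono {K : Type} [Field K] [Algebra ℂ K] {O : Subalgebra ℂ K} {ev : O →ₐ[ℂ] ℂ}
    {J J' : Ideal O} (hJ : J ≤ J') {f : O} (hf : SmoCst ev J f) : SmoCst ev J' f := hJ hf

/-- the block `k ≠ i` -/
lemma smo_block {B : Type} [CommRing B] [IsDomain B] [Algebra ℂ B]
    {i₀ : Polynomial ℂ →ₐ[ℂ] B} {h w : Fin 3 → B} (hT : IsTower i₀ zX h w)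
    {O : Subalgebra ℂ (FractionRing B)} {ev : O →ₐ[ℂ] ℂ}
    (hinv : ∀ f : O, ev f ≠ 0 → (f : FractionRing B)⁻¹ ∈ O) {i k : Fin 3} {dd : Fin 3 → Fin 4}
    (hdk : dd k = 2 ∨ dd k = 3)
    (m1 : ∀ k e, fr (yB i₀ h w) (Sum.inl (k, e)) / fr (yB i₀ h w) (Sum.inl (k, dd k)) ∈ O)
    (m2 : fr (yB i₀ h w) (Sum.inl (i, dd i)) / fr (yB i₀ h w) (Sum.inl (k, dd k)) ∈ O)
    (I : Ideal O) (hI : ∀ f ∈ I, ev f = 0)
    (hq : ∀ e, SmoCst ev I (⟨_, m1 i e⟩ : O)) :
    ∃ p : O, ev p = 0 ∧ SmoCst ev (I ⊔ Ideal.span {p}) (⟨_, m2⟩ : O) ∧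
      ∀ e, SmoCst ev (I ⊔ Ideal.span {p}) (⟨_, m1 k e⟩ : O) := by
  have hY := yB_ne_zero hT
  obtain ⟨c0, c1⟩ := smo_coord i₀ h w k i
  have hr := smo_rel hT k
  have y0 := hY (Sum.inl (i, dd i))
  have y1 := hY (Sum.inl (k, dd k))
  set g : O := (⟨_, m1 i 0⟩ : O) ^ 3 + algebraMap ℂ O (cc k) * (⟨_, m1 i 1⟩ : O) ^ 3 with hg
  have hgc : SmoCst ev I g :=
    ((hq 0).pow 3).add ((SmoCst.const ev I (cc k)).mul ((hq 1).pow 3))
  have hgv : (g : FractionRing B) =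
      (fr (yB i₀ h w) (Sum.inl (i, 0)) / fr (yB i₀ h w) (Sum.inl (i, dd i))) ^ 3 +
      algebraMap ℂ (FractionRing B) (cc k) *
        (fr (yB i₀ h w) (Sum.inl (i, 1)) / fr (yB i₀ h w) (Sum.inl (i, dd i))) ^ 3 := rfl
  have fin : ∀ (J : Ideal O), I ≤ J → SmoCst ev J (⟨_, m2⟩ : O) →
      SmoCst ev J (⟨_, m1 k 2⟩ : O) → SmoCst ev J (⟨_, m1 k 3⟩ : O) →
      ∀ e, SmoCst ev J (⟨_, m1 k e⟩ : O) := by
    intro J hIJ hv h2 h3 e
    fin_cases e
    · have e1 : (⟨_, m1 k 0⟩ : O) = ⟨_, m1 i 0⟩ * ⟨_, m2⟩ := by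
        apply Subtype.ext
        change fr (yB i₀ h w) (Sum.inl (k, 0)) / fr (yB i₀ h w) (Sum.inl (k, dd k)) =
          fr (yB i₀ h w) (Sum.inl (i, 0)) / fr (yB i₀ h w) (Sum.inl (i, dd i)) *
          (fr (yB i₀ h w) (Sum.inl (i, dd i)) / fr (yB i₀ h w) (Sum.inl (k, dd k)))
        rw [c0]
        field_simp
      change SmoCst ev J (⟨_, m1 k 0⟩ : O)
      rw [e1]
      exact ((hq 0).mono hIJ).mul hv
    · have e1 : (⟨_, m1 k 1⟩ : O) = ⟨_, m1 i 1⟩ * ⟨_, m2⟩ := by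
        apply Subtype.ext
        change fr (yB i₀ h w) (Sum.inl (k, 1)) / fr (yB i₀ h w) (Sum.inl (k, dd k)) =
          fr (yB i₀ h w) (Sum.inl (i, 1)) / fr (yB i₀ h w) (Sum.inl (i, dd i)) *
          (fr (yB i₀ h w) (Sum.inl (i, dd i)) / fr (yB i₀ h w) (Sum.inl (k, dd k)))
        rw [c1]
        field_simp
      change SmoCst ev J (⟨_, m1 k 1⟩ : O)
      rw [e1]
      exact ((hq 1).mono hIJ).mul hv
    · exact h2
    · exact h3
  rcases hdk with hk | hk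
  · have hrel : (⟨_, m2⟩ : O) ^ 3 * g = algebraMap ℂ O (-1) + algebraMap ℂ O 1 *
        (⟨_, m1 k 3⟩ : O) ^ 3 := by
      apply Subtype.ext
      change (fr (yB i₀ h w) (Sum.inl (i, dd i)) / fr (yB i₀ h w) (Sum.inl (k, dd k))) ^ 3 *
        (g : FractionRing B) = algebraMap ℂ (FractionRing B) (-1) +
          algebraMap ℂ (FractionRing B) 1 *
          (fr (yB i₀ h w) (Sum.inl (k, 3)) / fr (yB i₀ h w) (Sum.inl (k, dd k))) ^ 3
      rw [hgv, ← c0, ← c1, map_neg, map_one]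
      rw [hk] at y1 ⊢
      field_simp
      linear_combination -hr
    obtain ⟨p, hp, hv, hε⟩ := sm_curve hinv _ _ g (-1) 1 (by norm_num) one_ne_zero hrel I hI hgc
    refine ⟨p, hp, hv, fin _ le_sup_left hv ?_ hε⟩
    have e1 : (⟨_, m1 k 2⟩ : O) = 1 := by
      apply Subtype.ext
      change fr (yB i₀ h w) (Sum.inl (k, 2)) / fr (yB i₀ h w) (Sum.inl (k, dd k)) = 1
      rw [hk]
      rw [hk] at y1
      exact div_self y1
    rw [e1]
    exact SmoCst.one _ _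
  · have hrel : (⟨_, m2⟩ : O) ^ 3 * g = algebraMap ℂ O 1 + algebraMap ℂ O (-1) *
        (⟨_, m1 k 2⟩ : O) ^ 3 := by
      apply Subtype.ext
      change (fr (yB i₀ h w) (Sum.inl (i, dd i)) / fr (yB i₀ h w) (Sum.inl (k, dd k))) ^ 3 *
        (g : FractionRing B) = algebraMap ℂ (FractionRing B) 1 +
          algebraMap ℂ (FractionRing B) (-1) *
          (fr (yB i₀ h w) (Sum.inl (k, 2)) / fr (yB i₀ h w) (Sum.inl (k, dd k))) ^ 3
      rw [hgv, ← c0, ← c1, map_neg, map_one]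
      rw [hk] at y1 ⊢
      field_simp
      linear_combination -hr
    obtain ⟨p, hp, hv, hε⟩ := sm_curve hinv _ _ g 1 (-1) one_ne_zero (by norm_num) hrel I hI hgc
    refine ⟨p, hp, hv, fin _ le_sup_left hv hε ?_⟩
    have e1 : (⟨_, m1 k 3⟩ : O) = 1 := by
      apply Subtype.ext
      change fr (yB i₀ h w) (Sum.inl (k, 3)) / fr (yB i₀ h w) (Sum.inl (k, dd k)) = 1
      rw [hk]
      rw [hk] at y1
      exact div_self y1
    rw [e1]
    exact SmoCst.one _ _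

lemma smo_tri : ∀ i k : Fin 3, k = i ∨ k = i + 1 ∨ k = i + 2 := by decide

lemma smo_span_ev {K : Type} [Field K] [Algebra ℂ K] {O : Subalgebra ℂ K} {ev : O →ₐ[ℂ] ℂ}
    (S : Set O) (hS : ∀ p ∈ S, ev p = 0) : ∀ f ∈ Ideal.span S, ev f = 0 := by
  intro f hf
  have h1 : Ideal.span S ≤ RingHom.ker ev.toRingHom := by
    rw [Ideal.span_le]
    intro p hp
    exact hS p hp
  exact h1 hf

theorem smooth_X {B : Type} [CommRing B] [IsDomain B] [Algebra ℂ B]
    {i₀ : Polynomial ℂ →ₐ[ℂ] B} {h w : Fin 3 → B} (hT : IsTower i₀ zX h w) {x : Sg → ℂ}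
    (hx : x ∈ VX i₀ h w) : SmoothAt bX (fr (yB i₀ h w)) 4 x := by
  classical
  obtain ⟨O, ev, hO⟩ := exists_LR hx
  obtain ⟨i, dd, h1, h2, hd, hu⟩ := chart hT hx
  obtain ⟨m1, m2, m3⟩ := chart_mem hT hx hO hd hu
  obtain ⟨f1, f2, f3, f4, f5, f6⟩ := cha_fin3 i
  have hY := yB_ne_zero hT
  have y0 := hY (Sum.inl (i, dd i))
  have y1 := hY (Sum.inl (i + 1, dd (i + 1)))
  have y2 := hY (Sum.inl (i + 2, dd (i + 2)))
  -- the surface
  obtain ⟨p₁, p₂, hp₁, hp₂, hq⟩ := sm_surface (ev := ev) hO.inv ![1, cc i, 1, -1] (by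
      intro e
      fin_cases e
      · exact one_ne_zero
      · change cc i ≠ 0
        unfold cc
        exact_mod_cast Nat.succ_ne_zero (i : ℕ)
      · exact one_ne_zero
      · change (-1 : ℂ) ≠ 0
        norm_num) (dd i) (fun e => (⟨_, m1 i e⟩ : O)) (by
      apply Subtype.ext
      exact div_self y0) (by
      have hr := smo_rel hT i
      apply Subtype.ext
      rw [Fin.sum_univ_four]
      change algebraMap ℂ (FractionRing B) 1 *
          (fr (yB i₀ h w) (Sum.inl (i, 0)) / fr (yB i₀ h w) (Sum.inl (i, dd i))) ^ 3 +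
        algebraMap ℂ (FractionRing B) (cc i) *
          (fr (yB i₀ h w) (Sum.inl (i, 1)) / fr (yB i₀ h w) (Sum.inl (i, dd i))) ^ 3 +
        algebraMap ℂ (FractionRing B) 1 *
          (fr (yB i₀ h w) (Sum.inl (i, 2)) / fr (yB i₀ h w) (Sum.inl (i, dd i))) ^ 3 +
        algebraMap ℂ (FractionRing B) (-1) *
          (fr (yB i₀ h w) (Sum.inl (i, 3)) / fr (yB i₀ h w) (Sum.inl (i, dd i))) ^ 3 = 0
      rw [map_neg, map_one]
      field_simp
      linear_combination -hr)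
  set I : Ideal O := Ideal.span {p₁, p₂} with hIdef
  have hI : ∀ f ∈ I, ev f = 0 := by
    apply smo_span_ev
    intro p hp
    rcases hp with rfl | rfl
    · exact hp₁
    · exact hp₂
  have hqI : ∀ e, SmoCst ev I (⟨_, m1 i e⟩ : O) := hq
  obtain ⟨p₃, hp₃, hv1, hz1⟩ := smo_block hT hO.inv h1 m1 m2 I hI hqI
  obtain ⟨p₄, hp₄, hv2, hz2⟩ := smo_block hT hO.inv h2 m1 m3 I hI hqI
  set J : Ideal O := (I ⊔ Ideal.span {p₃}) ⊔ Ideal.span {p₄} with hJ
  have j0 : I ≤ J := le_trans le_sup_left le_sup_left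
  have j1 : I ⊔ Ideal.span {p₃} ≤ J := le_sup_left
  have j2 : I ⊔ Ideal.span {p₄} ≤ J := sup_le j0 le_sup_right
  have hz : ∀ k e, SmoCst ev J (⟨_, m1 k e⟩ : O) := by
    intro k e
    have hk := smo_tri i k
    rcases hk with rfl | rfl | rfl
    · exact (hqI e).mono j0
    · exact (hz1 e).mono j1
    · exact (hz2 e).mono j2
  have hv1' : SmoCst ev J (⟨_, m2⟩ : O) := hv1.mono j1
  have hv2' : SmoCst ev J (⟨_, m3⟩ : O) := hv2.mono j2
  set s0 : Option (Fin 3) → Sg := fun b => match b with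
    | some k => Sum.inl (k, dd k)
    | none => Sum.inr (i, dd (i + 1), dd (i + 2)) with hs0
  have key : ∀ f : O, ev f = 0 → f ∈ J := by
    apply LR.mem_of_coord hO hx s0
    · intro b
      rcases b with _ | k <;> rfl
    · intro b
      rcases b with _ | k
      · exact hu
      · exact hd k
    · intro s
      have hne : x (s0 (bX s)) ≠ 0 := by
        rcases s with ⟨k, e⟩ | ⟨k, e, e'⟩
        · exact hd k
        · exact hu
      have hbl : bX s = bX (s0 (bX s)) := by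
        rcases s with ⟨k, e⟩ | ⟨k, e, e'⟩ <;> rfl
      obtain ⟨hm, hev⟩ := hO.ratio hx (s := s) (s' := s0 (bX s)) hbl hne
      refine ⟨hm, ?_⟩
      rw [← hev]
      change SmoCst ev J ⟨_, hm⟩
      rcases s with ⟨k, e⟩ | ⟨k, e, e'⟩
      · exact hz k e
      · have hk := smo_tri i k
        have hden : fr (yB i₀ h w) (s0 (bX (Sum.inr (k, e, e')))) =
            fr (yB i₀ h w) (Sum.inl (i + 1, dd (i + 1))) *
              fr (yB i₀ h w) (Sum.inl (i + 2, dd (i + 2))) := cha_inr i₀ h w i _ _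
        have hnum := cha_inr i₀ h w k e e'
        rcases hk with rfl | rfl | rfl
        · have e1 : (⟨_, hm⟩ : O) = ⟨_, m1 (k + 1) e⟩ * ⟨_, m1 (k + 2) e'⟩ := by
            apply Subtype.ext
            change fr (yB i₀ h w) (Sum.inr (k, e, e')) /
              fr (yB i₀ h w) (s0 (bX (Sum.inr (k, e, e')))) =
              (fr (yB i₀ h w) (Sum.inl (k + 1, e)) /
                fr (yB i₀ h w) (Sum.inl (k + 1, dd (k + 1)))) *
              (fr (yB i₀ h w) (Sum.inl (k + 2, e')) /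
                fr (yB i₀ h w) (Sum.inl (k + 2, dd (k + 2))))
            rw [hden, hnum]
            field_simp
          rw [e1]
          exact (hz _ _).mul (hz _ _)
        · have e1 : (⟨_, hm⟩ : O) = ⟨_, m1 (i + 2) e⟩ * ⟨_, m1 i e'⟩ * ⟨_, m2⟩ := by
            apply Subtype.ext
            change fr (yB i₀ h w) (Sum.inr (i + 1, e, e')) /
              fr (yB i₀ h w) (s0 (bX (Sum.inr (i + 1, e, e')))) =
              (fr (yB i₀ h w) (Sum.inl (i + 2, e)) /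
                fr (yB i₀ h w) (Sum.inl (i + 2, dd (i + 2)))) *
              (fr (yB i₀ h w) (Sum.inl (i, e')) /
                fr (yB i₀ h w) (Sum.inl (i, dd i))) *
              (fr (yB i₀ h w) (Sum.inl (i, dd i)) /
                fr (yB i₀ h w) (Sum.inl (i + 1, dd (i + 1))))
            rw [hden, hnum, f3, f4]
            field_simp
          rw [e1]
          exact ((hz _ _).mul (hz _ _)).mul hv1'
        · have e1 : (⟨_, hm⟩ : O) = ⟨_, m1 i e⟩ * ⟨_, m1 (i + 1) e'⟩ * ⟨_, m3⟩ := by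
            apply Subtype.ext
            change fr (yB i₀ h w) (Sum.inr (i + 2, e, e')) /
              fr (yB i₀ h w) (s0 (bX (Sum.inr (i + 2, e, e')))) =
              (fr (yB i₀ h w) (Sum.inl (i, e)) /
                fr (yB i₀ h w) (Sum.inl (i, dd i))) *
              (fr (yB i₀ h w) (Sum.inl (i + 1, e')) /
                fr (yB i₀ h w) (Sum.inl (i + 1, dd (i + 1)))) *
              (fr (yB i₀ h w) (Sum.inl (i, dd i)) /
                fr (yB i₀ h w) (Sum.inl (i + 2, dd (i + 2))))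
            rw [hden, hnum, f5, f6]
            field_simp
          rw [e1]
          exact ((hz _ _).mul (hz _ _)).mul hv2'
  refine ⟨![(p₁ : FractionRing B), p₂, p₃, p₄], ?_, ?_⟩
  · intro j
    fin_cases j
    · exact (hO.zero p₁).mp hp₁
    · exact (hO.zero p₂).mp hp₂
    · exact (hO.zero p₃).mp hp₃
    · exact (hO.zero p₄).mp hp₄
  · intro f hf
    have hfO : f ∈ O := by
      rw [hO.mem]
      obtain ⟨d, P, Q, hP, hQ, hQx, _, he⟩ := hf
      exact ⟨d, P, Q, hP, hQ, hQx, he⟩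
    have hf0 : ev ⟨f, hfO⟩ = 0 := (hO.zero _).mpr hf
    have hJf := key _ hf0
    obtain ⟨b, hb, c, hc, hbc⟩ := Submodule.mem_sup.mp hJf
    obtain ⟨b', hb', c', hc', hbc'⟩ := Submodule.mem_sup.mp hb
    obtain ⟨a₁, a₂, ha⟩ := Ideal.mem_span_pair.mp hb'
    obtain ⟨a₃, ha₃⟩ := Ideal.mem_span_singleton'.mp hc'
    obtain ⟨a₄, ha₄⟩ := Ideal.mem_span_singleton'.mp hc
    refine ⟨![(a₁ : FractionRing B), a₂, a₃, a₄], ?_, ?_⟩
    · intro j
      fin_cases j
      · exact (hO.mem _).mp a₁.2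
      · exact (hO.mem _).mp a₂.2
      · exact (hO.mem _).mp a₃.2
      · exact (hO.mem _).mp a₄.2
    · rw [Fin.sum_univ_four]
      change f = (a₁ : FractionRing B) * p₁ + a₂ * p₂ + a₃ * p₃ + a₄ * p₄
      have h5 : (⟨f, hfO⟩ : O) = a₁ * p₁ + a₂ * p₂ + a₃ * p₃ + a₄ * p₄ := by
        rw [← hbc, ← hbc', ← ha, ← ha₃, ← ha₄]
      exact congrArg Subtype.val h5

end Pool.Agent.H56.TC
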