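import Pool.Agent.H56.TC.Defs
import Pool.Agent.H56.TC.SPC
import Pool.Agent.H56.TC.REL

/-!
Part PCE. The variety with generic point `yM t h w` is `piece t z`.
`⊇`: `specF` with `R = ℂ`. `⊆`: let `x ∈ Var bX (fr (yM t h w))`. Then `Sum.elim x t ∈ VC i' h' w'` for any tower over
`ℂ[X]` (take one from `exists_tower`): if `P` vanishes at `yC`, then by `specC` (`R = B`, `s = t 0`, `u = t 1`, `θ = 1`,
`ρ = 1`, `h, w`; in a linear step `w ^ 3 = c ^ 3 h ^ 3 = h ^ 3 = h ^ 3 + gg t k`) it vanishes at `Sum.elim (yM t h w) t`, so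
the polynomial obtained by substituting `t` (`MHom.subst_inr`) vanishes at `yM t h w`, hence at `x`. Now `cox_C` gives the
coordinates; the linear relations `w k = c h k` hold since `X (inl (k, 3)) - C c * X (inl (k, 2))` vanishes at `yM`.
-/

set_option autoImplicit false

namespace Pool.Agent.H56.TC

open MvPolynomial

theorem PCE_fr {σ B : Type} [CommRing B] [IsDomain B] [Algebra ℂ B] (y : σ → B)
    (P : MvPolynomial σ ℂ) : aeval (fr y) P = 0 ↔ aeval y P = 0 := by
  have h1 := SCL_aeval_hom (Algebra.algHom ℂ B (FractionRing B)) y P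
  have h2 : (fun s => (Algebra.algHom ℂ B (FractionRing B)) (y s)) = fr y := rfl
  rw [h2] at h1
  rw [h1]
  have h3 : (Algebra.algHom ℂ B (FractionRing B)) (aeval y P) =
    algebraMap B (FractionRing B) (aeval y P) := rfl
  rw [h3, map_eq_zero_iff _ (IsFractionRing.injective B (FractionRing B))]

theorem PCE_subst {σ τ R : Type} [CommRing R] [Algebra ℂ R] (x : σ → R) (t : τ → ℂ)
    (P : MvPolynomial (σ ⊕ τ) ℂ) :
    aeval x (aeval (Sum.elim (fun s => (MvPolynomial.X s : MvPolynomial σ ℂ))
      (fun s => MvPolynomial.C (t s))) P) =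
    aeval (Sum.elim x (fun s => algebraMap ℂ R (t s))) P := by
  rw [← SCL_aeval_hom (aeval x)]
  congr 2
  funext s
  rcases s with s | s
  · simp
  · simp

theorem piece_eq {t : Fin 2 → ℂ} (ht : t ≠ 0) {z : Fin 3 → ℂ ⊕ ℂ} (hz : adm t z)
    {B : Type} [CommRing B] [IsDomain B] [Algebra ℂ B] {i : ℂ →ₐ[ℂ] B} {h w : Fin 3 → B}
    (hT : IsTower i z h w) : Var bX (fr (yM t h w)) = piece t z := by
  have hi : ∀ c, i c = algebraMap ℂ B c := fun c => i.commutes c
  apply Set.Subset.antisymm
  · intro x hx
    obtain ⟨hx1, hx2⟩ := hx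
    obtain ⟨B', _, _, _, i', h', w', hT'⟩ := exists_tower (Polynomial ℂ) zX (by
      intro k b hb hb0
      have h1 : b = Polynomial.X ^ 3 + Polynomial.C (cc k) := (Sum.inl.inj hb).symm
      rw [h1] at hb0
      have h2 := congrArg (fun p => Polynomial.coeff p 3) hb0
      simp [Polynomial.coeff_X_pow] at h2)
    have hxC : Sum.elim x t ∈ VC i' h' w' := by
      refine ⟨?_, ?_⟩
      · intro b
        rcases b with b | u
        · obtain ⟨s, hs, hs2⟩ := hx1 b
          exact ⟨Sum.inl s, by rw [← hs]; rfl, hs2⟩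
        · by_contra hc
          push Not at hc
          apply ht
          funext j
          exact hc (Sum.inr j) rfl
      · intro d P hP h0
        rw [PCE_fr] at h0
        have h1 := specC hT' (algebraMap ℂ B (t 0)) (algebraMap ℂ B (t 1)) 1 (fun _ => 1) h w
          (by
            intro k
            rcases hk : z k with b | c
            · have h2 := (hT.rel k).1 b hk
              rw [h2, hi, ((hz k).1 b hk).1, gg]
              simp
            · have h2 := (hT.rel k).2 c hk
              obtain ⟨h3, h4⟩ := (hz k).2 c hk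
              have h5 : (algebraMap ℂ B c) ^ 3 = 1 := by rw [← map_pow, h3, map_one]
              have h6 : algebraMap ℂ B (t 0) ^ 3 + algebraMap ℂ B (cc k) * algebraMap ℂ B (t 1) ^ 3
                = 0 := by
                rw [← map_pow, ← map_pow, ← map_mul, ← map_add]
                have : t 0 ^ 3 + cc k * t 1 ^ 3 = 0 := h4
                rw [this, map_zero]
              rw [h2, hi, h6, mul_pow, h5]
              ring) hP h0
        rw [mul_one, mul_one] at h1
        have h2 := hx2 _ _ (hP.subst_inr t) (by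
          rw [PCE_fr, PCE_subst]
          rw [← h1]
          congr 2
          · funext s
            rcases s with s | s
            · rfl
            · fin_cases s <;> rfl)
        rw [PCE_subst] at h2
        exact h2
    obtain ⟨-, -, θ, ρ, h'', w'', hr, hxe⟩ := cox_C hT' hxC
    refine ⟨hx1, θ, ρ, h'', w'', fun k => ⟨?_, ?_⟩, hxe⟩
    · intro b hb
      rw [hr k, ((hz k).1 b hb).1]
    · intro c hc
      have h1 : MHom bX (Finsupp.single (some k) 1)
          (X (Sum.inl (k, 3)) - C c * X (Sum.inl (k, 2)) : MvPolynomial Sg ℂ) :=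
        (MHom.X bX (Sum.inl (k, 3))).sub ((MHom.X bX (Sum.inl (k, 2))).C_mul c)
      have h2 := hx2 _ _ h1 (by
        rw [PCE_fr]
        have h3 := (hT.rel k).2 c hc
        rw [hi] at h3
        rw [map_sub, map_mul, aeval_X, aeval_X, aeval_C]
        show w k - algebraMap ℂ B c * h k = 0
        rw [h3, sub_self])
      rw [map_sub, map_mul, aeval_X, aeval_X, aeval_C, hxe] at h2
      have h4 : w'' k - c * h'' k = 0 := h2
      exact sub_eq_zero.1 h4
  · rintro x ⟨hx1, θ, ρ, h', w', hr, hxe⟩
    refine ⟨hx1, ?_⟩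
    intro d P hP h0
    rw [PCE_fr] at h0
    have h1 := specF t (z := z) (fun k b hb => ((hz k).1 b hb).2) hT θ ρ h' w' hr hP h0
    rw [hxe]
    exact h1

end Pool.Agent.H56.TC
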