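import Pool.Agent.H56.TC.Defs

/-!
Part TRD. Transcendence degrees. `(x, h)` is a transcendence basis of `FractionRing B`. Algebraically
independent: let `P ≠ 0` be a polynomial in `n + 3` variables with `P(x, h) = 0`; choose a complex point with `P ≠ 0`
(`MvPolynomial.funext`), the homomorphism `A → ℂ` with prescribed values of `x` (`hx`, `hgen`: `A` is a polynomial ring),
`h' k` prescribed, `w' k` a cube root (`IsAlgClosed.exists_pow_nat_eq`) or `c h' k`: by `IsTower.univ` we get `B → ℂ`
with `P ↦ P(point) ≠ 0`. Algebraic: `B` is generated by `x, h, w` and `w k` is integral over `ℂ[x, h]`.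
Alternative: induction along the steps.
-/

set_option autoImplicit false

namespace Pool.Agent.H56.TC

open MvPolynomial

/-- homomorphisms from a polynomial ring with prescribed values -/
theorem TRD_hom {A : Type} [CommRing A] [Algebra ℂ A] {n : ℕ} (x : Fin n → A)
    (hx : AlgebraicIndependent ℂ x) (hgen : Algebra.adjoin ℂ (Set.range x) = ⊤) (v : Fin n → ℂ) :
    ∃ f : A →ₐ[ℂ] ℂ, ∀ j, f (x j) = v j := by
  have hsurj : Function.Surjective (aeval x : MvPolynomial (Fin n) ℂ →ₐ[ℂ] A) := by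
    rw [← AlgHom.range_eq_top, ← Algebra.adjoin_range_eq_range_aeval, hgen]
  let e : MvPolynomial (Fin n) ℂ ≃ₐ[ℂ] A := AlgEquiv.ofBijective (aeval x) ⟨hx, hsurj⟩
  refine ⟨(aeval v).comp e.symm.toAlgHom, fun j => ?_⟩
  have h1 : e.symm (x j) = MvPolynomial.X j := by
    rw [AlgEquiv.symm_apply_eq]
    show x j = aeval x (MvPolynomial.X j)
    rw [aeval_X]
  show aeval v (e.symm (x j)) = v j
  rw [h1, aeval_X]

theorem TRD_indep {A : Type} [CommRing A] [Algebra ℂ A] {n : ℕ} (x : Fin n → A)
    (hx : AlgebraicIndependent ℂ x) (hgen : Algebra.adjoin ℂ (Set.range x) = ⊤)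
    {z : Fin 3 → A ⊕ A} {B : Type} [CommRing B] [Algebra ℂ B] {i : A →ₐ[ℂ] B}
    {h w : Fin 3 → B} (hT : IsTower i z h w) :
    AlgebraicIndependent ℂ (Sum.elim (fun j => i (x j)) h : Fin n ⊕ Fin 3 → B) := by
  rw [algebraicIndependent_iff]
  intro p hp
  apply MvPolynomial.funext
  intro v
  obtain ⟨f, hf⟩ := TRD_hom x hx hgen (fun j => v (Sum.inl j))
  have hw : ∀ k : Fin 3, ∃ w' : ℂ, Rel f (z k) (v (Sum.inr k)) w' := by
    intro k
    rcases hz : z k with b | c
    · obtain ⟨w', hw'⟩ := IsAlgClosed.exists_pow_nat_eq (v (Sum.inr k) ^ 3 + f b)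
        (show 0 < 3 by norm_num)
      refine ⟨w', fun b' hb' => ?_, fun c hc => by simp at hc⟩
      rw [← Sum.inl_injective hb', hw']
    · refine ⟨f c * v (Sum.inr k), fun b hb => by simp at hb, fun c' hc' => ?_⟩
      rw [← Sum.inr_injective hc']
  choose w' hw' using hw
  obtain ⟨g, hg1, hg2, -⟩ := hT.univ ℂ f (fun k => v (Sum.inr k)) w' hw'
  have h1 : g (aeval (Sum.elim (fun j => i (x j)) h) p) = 0 := by rw [hp, map_zero]
  rw [← AlgHom.comp_apply, MvPolynomial.comp_aeval] at h1
  have h2 : (fun s => g ((Sum.elim (fun j => i (x j)) h : Fin n ⊕ Fin 3 → B) s)) = v := by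
    funext s
    rcases s with s | s
    · simp only [Sum.elim_inl]
      rw [hg1, hf]
    · simp only [Sum.elim_inr]
      rw [hg2]
  rw [h2] at h1
  rw [map_zero]
  exact h1

theorem TRD_alg {A : Type} [CommRing A] [Algebra ℂ A] {n : ℕ} (x : Fin n → A)
    (hgen : Algebra.adjoin ℂ (Set.range x) = ⊤)
    {z : Fin 3 → A ⊕ A} {B : Type} [CommRing B] [IsDomain B] [Algebra ℂ B] {i : A →ₐ[ℂ] B}
    {h w : Fin 3 → B} (hT : IsTower i z h w) :
    Algebra.IsAlgebraic (Algebra.adjoin ℂ (Set.range (fun s => algebraMap B (FractionRing B)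
      ((Sum.elim (fun j => i (x j)) h : Fin n ⊕ Fin 3 → B) s)))) (FractionRing B) := by
  set y : Fin n ⊕ Fin 3 → FractionRing B := fun s => algebraMap B (FractionRing B)
      ((Sum.elim (fun j => i (x j)) h : Fin n ⊕ Fin 3 → B) s) with hy
  set S := Algebra.adjoin ℂ (Set.range y) with hS
  have hyS : ∀ s, y s ∈ S := fun s => Algebra.subset_adjoin ⟨s, rfl⟩
  -- the elements of `A`
  have hA : ∀ a : A, algebraMap B (FractionRing B) (i a) ∈ S := by
    intro a
    have h1 : a ∈ Algebra.adjoin ℂ (Set.range x) := by rw [hgen]; trivial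
    have h2 : Algebra.adjoin ℂ (Set.range x) ≤
        S.comap ((IsScalarTower.toAlgHom ℂ B (FractionRing B)).comp i) := by
      rw [Algebra.adjoin_le_iff]
      rintro _ ⟨j, rfl⟩
      exact hyS (Sum.inl j)
    exact h2 h1
  have hint : ∀ s : FractionRing B, s ∈ S → IsIntegral S s := fun s hs =>
    (isIntegral_algebraMap (R := S) (A := FractionRing B) (x := (⟨s, hs⟩ : S)))
  have hB : (((integralClosure S (FractionRing B)).restrictScalars ℂ).comap
      (IsScalarTower.toAlgHom ℂ B (FractionRing B))) = ⊤ := by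
    apply hT.gen
    · intro a
      exact hint _ (hA a)
    · intro k
      exact hint _ (hyS (Sum.inr k))
    · intro k
      show IsIntegral S (algebraMap B (FractionRing B) (w k))
      have hr := hT.rel k
      rcases hz : z k with b | c
      · have h1 := hr.1 b hz
        refine IsIntegral.of_pow (n := 3) (by norm_num) ?_
        rw [← map_pow, h1, map_add, map_pow]
        exact ((hint _ (hyS (Sum.inr k))).pow 3).add (hint _ (hA b))
      · have h1 := hr.2 c hz
        rw [h1, map_mul]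
        exact (hint _ (hA c)).mul (hint _ (hyS (Sum.inr k)))
  have hB' : ∀ b : B, IsIntegral S (algebraMap B (FractionRing B) b) := by
    intro b
    have h1 : b ∈ (((integralClosure S (FractionRing B)).restrictScalars ℂ).comap
      (IsScalarTower.toAlgHom ℂ B (FractionRing B))) := by rw [hB]; trivial
    exact h1
  constructor
  intro f
  obtain ⟨a, b, hb, rfl⟩ := IsFractionRing.div_surjective (A := B) f
  rw [div_eq_mul_inv]
  exact ((hB' a).isAlgebraic).mul ((hB' b).isAlgebraic).inv

theorem trdeg_tower {A : Type} [CommRing A] [IsDomain A] [Algebra ℂ A] {n : ℕ} (x : Fin n → A)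
    (hx : AlgebraicIndependent ℂ x) (hgen : Algebra.adjoin ℂ (Set.range x) = ⊤)
    {z : Fin 3 → A ⊕ A} {B : Type} [CommRing B] [IsDomain B] [Algebra ℂ B] {i : A →ₐ[ℂ] B}
    {h w : Fin 3 → B} (hT : IsTower i z h w) :
    Algebra.trdeg ℂ (FractionRing B) = ((n + 3 : ℕ) : Cardinal) := by
  have h1 := TRD_indep x hx hgen hT
  have h2 : AlgebraicIndependent ℂ (fun s => algebraMap B (FractionRing B)
      ((Sum.elim (fun j => i (x j)) h : Fin n ⊕ Fin 3 → B) s)) :=
    h1.map' (f := IsScalarTower.toAlgHom ℂ B (FractionRing B))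
      (IsFractionRing.injective B (FractionRing B))
  have h3 := isTranscendenceBasis_iff_algebraicIndependent_isAlgebraic.2
    ⟨h2, TRD_alg x hgen hT⟩
  rw [← h3.cardinalMk_eq_trdeg]
  simp

theorem trdeg_X {B : Type} [CommRing B] [IsDomain B] [Algebra ℂ B]
    {i : Polynomial ℂ →ₐ[ℂ] B} {h w : Fin 3 → B} (hT : IsTower i zX h w) :
    Algebra.trdeg ℂ (FractionRing B) = ((4 : ℕ) : Cardinal) := by
  have h1 : AlgebraicIndependent ℂ (fun _ : Fin 1 => (Polynomial.X : Polynomial ℂ)) := by
    rw [algebraicIndependent_unique_type_iff]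
    exact Polynomial.transcendental_X ℂ
  have h2 : Algebra.adjoin ℂ (Set.range (fun _ : Fin 1 => (Polynomial.X : Polynomial ℂ))) = ⊤ := by
    rw [Set.range_const]
    exact Polynomial.adjoin_X
  exact trdeg_tower _ h1 h2 hT

theorem trdeg_M {z : Fin 3 → ℂ ⊕ ℂ} {B : Type} [CommRing B] [IsDomain B] [Algebra ℂ B]
    {i : ℂ →ₐ[ℂ] B} {h w : Fin 3 → B} (hT : IsTower i z h w) :
    Algebra.trdeg ℂ (FractionRing B) = ((3 : ℕ) : Cardinal) := by
  have h1 : AlgebraicIndependent ℂ (fun j : Fin 0 => (j.elim0 : ℂ)) := by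
    rw [algebraicIndependent_empty_type_iff]
    exact fun a b hab => hab
  have h2 : Algebra.adjoin ℂ (Set.range (fun j : Fin 0 => (j.elim0 : ℂ))) = ⊤ := by
    rw [eq_top_iff]
    intro c _
    exact Subalgebra.algebraMap_mem _ c
  exact trdeg_tower _ h1 h2 hT

end Pool.Agent.H56.TC
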