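import Pool.Agent.H56.TC.Defs
import Pool.Agent.H56.TC.TW3
import Pool.Agent.H56.TC.MEM
import Pool.Agent.H56.TC.PCE
import Pool.Agent.H56.TC.FIB
import Pool.Agent.H56.TC.FFS
import Pool.Agent.H56.TC.TRD
import Pool.Agent.H56.TC.BIR

/-!
Part TCH. `X` is torically chain connected. `T = {t ≠ 0}`, `C = VC`, `m = 1`, `n = 4`, `d = 3`.
Surjectivity: `mem_X_iff`, `mem_C_iff` (`(a, b) ≠ 0`: `t = (a, b)`, `θ = 1`; else `t = (1, 0)`, `θ = 0`).
Fibres: `fibre_union`, and each piece is a variety of dimension 3: `exists_tower` over `ℂ`, `piece_eq`, `isFF_yM`,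
`trdeg_M`. General member: `G = ∏ k (X 0 ^ 3 + C (cc k) X 1 ^ 3)`, `fibre_good`, `piece_eq`, `birat_M`. Chains: the point
`o = pt 0 0 1 1 1` lies in every member (`θ = 0`), so any two points are joined by two members.
-/

set_option autoImplicit false

namespace Pool.Agent.H56.TC

open MvPolynomial

/-- the factors of the discriminant -/
noncomputable def TCH_g (k : Fin 3) : MvPolynomial (Fin 2) ℂ :=
  MvPolynomial.X 0 ^ 3 + MvPolynomial.C (cc k) * MvPolynomial.X 1 ^ 3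

theorem TCH_g_hom (k : Fin 3) : MHom bT (3 • Finsupp.single () 1) (TCH_g k) :=
  ((MHom.X bT 0).pow 3).add (((MHom.X bT 1).pow 3).C_mul (cc k))

theorem TCH_g_eval (t : Fin 2 → ℂ) (k : Fin 3) : aeval t (TCH_g k) = gg t k := by
  unfold TCH_g gg
  simp

theorem TCH_isPt : IsPt bX (pt (0 : ℂ) 0 (fun _ => 1) (fun _ => 1) (fun _ => 1)) := by
  intro b
  rcases b with _ | k
  · refine ⟨Sum.inr (0, 2, 2), rfl, ?_⟩
    simp [pt, xc]
  · refine ⟨Sum.inl (k, 2), rfl, ?_⟩
    simp [pt, xc]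

theorem TCH_piece {t : Fin 2 → ℂ} (ht : t ≠ 0) {z : Fin 3 → ℂ ⊕ ℂ} (hz : adm t z) :
    IsVariety bX 3 (piece t z) := by
  obtain ⟨B', _, _, _, i', h', w', hT'⟩ := exists_tower ℂ z (fun k b hb => ((hz k).1 b hb).2)
  exact ⟨FractionRing B', inferInstance, inferInstance, fr (yM t h' w'), isFF_yM ht hT',
    trdeg_M hT', (piece_eq ht hz hT').symm⟩

theorem torChain_X {B : Type} [CommRing B] [IsDomain B] [Algebra ℂ B]
    {i₀ : Polynomial ℂ →ₐ[ℂ] B} {h w : Fin 3 → B} (hT : IsTower i₀ zX h w) :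
    TorChain bX (VX i₀ h w) := by
  have hsurj : ∀ x ∈ VX i₀ h w, ∃ t, Sum.elim x t ∈ VC i₀ h w := by
    intro x hx
    obtain ⟨hp, a, b, ρ, h', w', hr, rfl⟩ := (mem_X_iff hT x).1 hx
    by_cases hab : a = 0 ∧ b = 0
    · obtain ⟨rfl, rfl⟩ := hab
      refine ⟨![1, 0], (mem_C_iff hT _ _).2 ⟨hp, ?_, 0, ρ, h', w', fun k => ?_, ?_⟩⟩
      · intro h0
        have := congrFun h0 0
        simp at this
      · rw [hr k]; ring
      · simp
    · refine ⟨![a, b], (mem_C_iff hT _ _).2 ⟨hp, ?_, 1, ρ, h', w', fun k => ?_, ?_⟩⟩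
      · intro h0
        have h1 := congrFun h0 0
        have h2 := congrFun h0 1
        simp at h1 h2
        exact hab ⟨h1, h2⟩
      · rw [hr k]; unfold gg; simp
      · simp
  have ho : ∀ t : Fin 2 → ℂ, t ≠ 0 →
      Sum.elim (pt (0 : ℂ) 0 (fun _ => 1) (fun _ => 1) (fun _ => 1)) t ∈ VC i₀ h w := by
    intro t ht
    refine (mem_C_iff hT _ _).2 ⟨TCH_isPt, ht, 0, fun _ => 1, fun _ => 1, fun _ => 1,
      fun k => ?_, ?_⟩
    · ring
    · simp
  refine ⟨Fin 2, Unit, inferInstance, inferInstance, bT, {t | t ≠ 0}, VC i₀ h w, 1, 4, 3,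
    isVariety_T, ⟨FractionRing B, inferInstance, inferInstance, fr (yC i₀ h w), isFF_yC hT,
      trdeg_X hT, rfl⟩, ?_, hsurj, ?_, ?_, ?_⟩
  · intro x t hx
    obtain ⟨hp, ht, θ, ρ, h', w', hr, rfl⟩ := (mem_C_iff hT x t).1 hx
    refine ⟨(mem_X_iff hT _).2 ⟨hp, t 0 * θ, t 1 * θ, ρ, h', w', fun k => ?_, rfl⟩, ht⟩
    rw [hr k]; unfold gg; ring
  · intro t ht
    obtain ⟨r, z, hz, hU⟩ := fibre_union hT ht
    exact ⟨r, fun j => piece t (z j), fun j => TCH_piece ht (hz j), hU⟩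
  · refine ⟨_, TCH_g 0 * TCH_g 1 * TCH_g 2, ((TCH_g_hom 0).mul (TCH_g_hom 1)).mul (TCH_g_hom 2),
      ⟨![1, 0], ?_, ?_⟩, ?_⟩
    · intro h0
      have := congrFun h0 0
      simp at this
    · rw [map_mul, map_mul, TCH_g_eval, TCH_g_eval, TCH_g_eval]
      simp [gg]
    · intro t ht hG
      rw [map_mul, map_mul, TCH_g_eval, TCH_g_eval, TCH_g_eval] at hG
      have hg : ∀ k, gg t k ≠ 0 := by
        intro k
        have h2 := right_ne_zero_of_mul hG
        have h01 := left_ne_zero_of_mul hG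
        have h0 := left_ne_zero_of_mul h01
        have h1 := right_ne_zero_of_mul h01
        fin_cases k
        · exact h0
        · exact h1
        · exact h2
      rw [fibre_good hT ht hg]
      have hz : adm t (fun k => Sum.inl (gg t k)) := by
        intro k
        refine ⟨fun b hb => ?_, fun c hc => absurd hc (by simp)⟩
        rw [← Sum.inl.inj hb]
        exact ⟨rfl, hg k⟩
      obtain ⟨B', _, _, _, i', h', w', hT'⟩ := exists_tower ℂ (fun k => Sum.inl (gg t k))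
        (fun k b hb => ((hz k).1 b hb).2)
      rw [← piece_eq ht hz hT']
      exact birat_M ht hg hT'
  · intro x hx x' hx'
    obtain ⟨t, hxt⟩ := hsurj x hx
    obtain ⟨t', hxt'⟩ := hsurj x' hx'
    have ht := ((mem_C_iff hT x t).1 hxt).2.1
    have ht' := ((mem_C_iff hT x' t').1 hxt').2.1
    refine Relation.ReflTransGen.tail (Relation.ReflTransGen.single ⟨t, hxt, ho t ht⟩)
      ⟨t', ho t' ht', hxt'⟩

end Pool.Agent.H56.TC
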