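import Pool.Agent.H56.TC.Defs
import Pool.Agent.H56.TC.TCH
import Pool.Agent.H56.TC.SMO
import Pool.Agent.H56.TC.FRM
import Pool.Agent.H56.TC.NZE
import Pool.Agent.H56.TC.FFS
import Pool.Agent.H56.TC.TRD
import Pool.Agent.H56.TC.TW3

/-!
Assembly.
-/

set_option autoImplicit false

namespace Pool.Agent.H56.TC

open MvPolynomial

theorem main : ∃ (σ β : Type) (_ : Fintype σ) (_ : Fintype β) (bl : σ → β) (K : Type)
    (_ : Field K) (_ : Algebra ℂ K) (y : σ → K),
    IsFF bl y ∧ Algebra.trdeg ℂ K = ((4 : ℕ) : Cardinal) ∧ (∀ x ∈ Var bl y, SmoothAt bl y 4 x) ∧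
    TorChain bl (Var bl y) ∧
    ∃ (ω : ExteriorAlgebra K (KaehlerDifferential ℂ K)) (f : K), ω ≠ 0 ∧
      f ∉ Set.range (algebraMap ℂ K) ∧
      ∀ x ∈ Var bl y, ω ∈ formsOn (Loc bl y x) 4 ∧ f • ω ∈ formsOn (Loc bl y x) 4 := by
  obtain ⟨B, _, _, _, i₀, h, w, hT⟩ := exists_tower (Polynomial ℂ) zX (by
    intro k b hb
    have h1 : b = Polynomial.X ^ 3 + Polynomial.C (cc k) := (Sum.inl.inj hb).symm
    rw [h1]
    exact (Polynomial.monic_X_pow_add_C _ (by norm_num)).ne_zero)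
  exact ⟨Sg, Option (Fin 3), inferInstance, inferInstance, bX, FractionRing B, inferInstance,
    inferInstance, fr (yB i₀ h w), isFF_yB hT, trdeg_X hT, fun x hx => smooth_X hT hx,
    torChain_X hT, _, _, omega0_ne_zero hT, lam_not_const hT, fun x hx => forms_regular hT hx⟩

end Pool.Agent.H56.TC
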